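import Pool.Agent.Work.MP_609cce_lc_alg.KBStage

/-!
# Assembly: an oracle and extensions of low degree with PSPACE = UP and without distillations
-/

namespace OAlg.KB

open ORDist ORD ORK O2PP PTime

variable {Φ : Fields} {F : (Str → Bool) → ℕ → Str → Bool}

/-! ### the limit -/

/-- the oracle meets all requirements -/
theorem exists_parB (hF : Loc F) : ∃ x : PB Φ, (∀ M, OkB M (x M)) ∧
    ∀ Mf MD : OProc, PT Mf → PT MD → ∀ (pf pD q p : Polynomial ℕ) (n₀ : ℕ),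
      Req (balg F x) (langK (ky x)) Mf MD pf pD q p n₀ := by
  have hc : Countable {M : OProc // PT M} :=
    (countable_PT (α := Str × Str) (β := Bool × Str)).to_subtype
  have hp := countable_poly
  obtain ⟨x, h1, h2⟩ := exists_generic
    (ι := {M : OProc // PT M} × {M : OProc // PT M} × Polynomial ℕ × Polynomial ℕ ×
      Polynomial ℕ × Polynomial ℕ × ℕ) (OkB (Φ := Φ))
    (fun M => (List.replicate M true, fun _ _ _ => 0))
    (fun M => ⟨List.length_replicate, fun _ _ => van_zero _⟩)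
    (fun e x => Req (balg F x) (langK (ky x)) e.1.1 e.2.1.1 e.2.2.1 e.2.2.2.1 e.2.2.2.2.1
      e.2.2.2.2.2.1 e.2.2.2.2.2.2)
    (fun e x b hx => stageB hF _ _ _ _ _ _ _ x b hx)
  exact ⟨x, h1, fun Mf MD hf hD pf pD q p n₀ => h2 (⟨Mf, hf⟩, ⟨MD, hD⟩, pf, pD, q, p, n₀)⟩

variable {B B' : Str → Bool} {L : Set Str}

/-- no compression of an OR -/
theorem no_orX (hR : ∀ Mf MD : OProc, PT Mf → PT MD →
      ∀ (pf pD q p : Polynomial ℕ) (n₀ : ℕ), Req B' L Mf MD pf pD q p n₀) (hL : InNPO B L)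
    {R : Set Str} (hRh : NPHardX B B' R) {R' : Set Str} {D : List Str → Str}
    (hD : PolyTimeO B' seqBits D) (hc : ∀ xs : List Str, xs ≠ [] → (D xs ∈ R' ↔ ∃ x ∈ xs, x ∈ R))
    (p : Polynomial ℕ) (n₀ : ℕ) : ∃ n ≥ n₀, ∀ m, 1 ≤ m → m ≤ p.eval n →
      ∃ xs : List Str, xs.length = m ∧ (∀ x ∈ xs, x.length ≤ n) ∧ m ≤ (D xs).length := by
  obtain ⟨f, hf, hfL⟩ := hRh L hL
  obtain ⟨Mf, pf, qf, hMf, hevf, hlenf⟩ := exists_ev hf
  obtain ⟨MD, pD, _, hMD, hevD, _⟩ := exists_ev hD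
  obtain ⟨n, hn, h⟩ := hR Mf MD hMf hMD pf pD qf p n₀
  have hfK : fK B' Mf pf qf = f := by
    funext z
    unfold fK
    rw [← hevf z, List.take_of_length_le (hlenf z)]
  have hdK : ∀ ys, dK B' MD pD ys = D ys := fun ys => (hevD ys).symm
  refine ⟨n, hn, fun m hm hmp => ?_⟩
  obtain ⟨zs, zs', h1, h2, h3, h4, h5, h6, h7⟩ := h m hm hmp
  rw [hfK] at h5 h6 h7
  rw [hdK, hdK] at h7
  have hne : zs.map f ≠ [] := by
    intro h8
    rw [List.map_eq_nil_iff] at h8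
    rw [h8, List.length_nil] at h1
    omega
  have hne' : zs'.map f ≠ [] := by
    intro h8
    rw [List.map_eq_nil_iff] at h8
    rw [h8, List.length_nil] at h2
    omega
  have h8 : D (zs.map f) ∈ R' := by
    rw [hc _ hne]
    obtain ⟨z, hz, hzL⟩ := h3
    exact ⟨f z, List.mem_map_of_mem hz, (hfL z).1 hzL⟩
  have h9 : D (zs'.map f) ∉ R' := by
    rw [hc _ hne']
    rintro ⟨x, hx, hxR⟩
    obtain ⟨z, hz, rfl⟩ := List.mem_map.1 hx
    exact h4 z hz ((hfL z).2 hxR)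
  rcases h7 with h7 | h7 | h7
  · rw [h7] at h8
    exact absurd h8 h9
  · refine ⟨zs.map f, by rw [List.length_map, h1], fun x hx => ?_, h7⟩
    obtain ⟨z, hz, rfl⟩ := List.mem_map.1 hx
    exact h5 z hz
  · refine ⟨zs'.map f, by rw [List.length_map, h2], fun x hx => ?_, h7⟩
    obtain ⟨z, hz, rfl⟩ := List.mem_map.1 hx
    exact h6 z hz

/-- if NP is closed under complement, then the complement of an NP-hard language is NP-hard -/
theorem hard_complX (hco : ∀ L : Set Str, InNPO B L → InNPO B Lᶜ) {R : Set Str}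
    (hR : NPHardX B B' R) : NPHardX B B' Rᶜ := by
  intro L hL
  obtain ⟨f, hf, h⟩ := hR Lᶜ (hco L hL)
  refine ⟨f, hf, fun x => ?_⟩
  rw [Set.mem_compl_iff, ← h x, Set.mem_compl_iff, not_not]

/-- **Part (B) of the algebrizing sandwich.** -/
theorem keyB_main (Φ : Fields) : ∃ (B : Str → Bool) (f : ExtF Φ), IsExt Φ B f ∧
    (∀ L : Set Str, InPSPACEO (extO Φ B f) L ∨ InNPO (extO Φ B f) L → InUPO B L ∧ InUPO B Lᶜ) ∧
    (∃ L : Set Str, InNPO B L ∧ ¬ InPO (extO Φ B f) L) ∧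
    ∀ R : Set Str, NPHardX B (extO Φ B f) R → ∀ (R' : Set Str) (D : List Str → Str),
      PolyTimeO (extO Φ B f) seqBits D →
      ((∀ xs : List Str, xs ≠ [] → (D xs ∈ R' ↔ ∃ x ∈ xs, x ∈ R)) ∨
        ∀ xs : List Str, xs ≠ [] → (D xs ∈ R' ↔ ∀ x ∈ xs, x ∈ R)) →
      ∀ (p : Polynomial ℕ) (n₀ : ℕ), ∃ n ≥ n₀, ∀ m, 1 ≤ m → m ≤ p.eval n →
        ∃ xs : List Str, xs.length = m ∧ (∀ x ∈ xs, x.length ≤ n) ∧ m ≤ (D xs).length := by
  obtain ⟨Mach, hMach⟩ := exists_enum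
  have hF := loc_FK Mach
  obtain ⟨x, hx, hReq⟩ := exists_parB (Φ := Φ) hF
  have hκ : ∀ M, (ky x M).length = M := fun M => (hx M).1
  have hL := langB_inNPO hF hκ
  have hup : ∀ L : Set Str, InPSPACEO (balg (FK Mach) x) L ∨ InNPO (balg (FK Mach) x) L →
      InUPO (borc (FK Mach) x) L ∧ InUPO (borc (FK Mach) x) Lᶜ := by
    rintro L (h | h)
    · obtain ⟨t, y, hy, h⟩ := ps_red hMach h
      exact upoB_both hF hκ hy h
    · obtain ⟨t, y, hy, h⟩ := np_red hMach h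
      exact upoB_both hF hκ hy h
  refine ⟨borc (FK Mach) x, _, isExt_of_van _ (V := vp x) fun s n => (hx _).2 s n, hup,
    ⟨langK (ky x), hL, not_inPO hReq⟩, ?_⟩
  rintro R hR R' D hD (h | h) p n₀
  · exact no_orX hReq hL hR hD h p n₀
  · have hR2 : NPHardX (borc (FK Mach) x) (balg (FK Mach) x) Rᶜ :=
      hard_complX (fun L hL => (hup L (Or.inr (inNPO_ext (balg_false x) hL))).2.inNPO) hR
    refine no_orX (R' := R'ᶜ) hReq hL hR2 hD (fun xs hxs => ?_) p n₀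
    rw [Set.mem_compl_iff, h xs hxs]
    push Not
    rfl

end OAlg.KB
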