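import Pool.Agent.Work.MP_609cce_lc_alg.Tree

/-!
# The guessing game with extensions: ordinary queries
-/

namespace OAlg

open OEth Orc Finset
open Classical

set_option linter.unusedSectionVars false

section game

variable {X Y T P Q C : Type} {W U M : C → Type} [∀ c, AddCommGroup (M c)]
  [Fintype X] [Fintype Y] [Fintype T] [Fintype P] [Fintype C]
  [∀ c, Fintype (W c)] [∀ c, Fintype (U c)] [∀ c, Fintype (M c)]
  {G : AG X Y T P Q C W U M} {E0 : Co X Y T → Finset (List Bool)} {H D : ℕ} {δ : ℝ}
  {xs : List X}

/-- the state with another ordinary part -/
noncomputable def mk' (σ : Stt X Y T Q W U M) (E : Co X Y T → Finset (List Bool)) (S : Finset T)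
    (v : T → Bool) (κ : Q → Option Bool) : Stt X Y T Q W U M where
  E := E
  S := S
  v := v
  κ := κ
  Sa := σ.Sa
  va := σ.va
  aa := σ.aa

theorem inW_mk' {σ : Stt X Y T Q W U M} {E : Co X Y T → Finset (List Bool)} {S : Finset T}
    {v : T → Bool} {κ : Q → Option Bool} {θ : Wo X Y T P U M} :
    InW G (mk' σ E S v κ) θ ↔ (∀ c, θ.1 c ∈ E c) ∧ G.VV θ.2.2 ∧ (∀ t ∈ S, G.vis θ t = v t) ∧
    (∀ q a, κ q = some a → G.B θ q = a) ∧ ∀ c, ∀ y ∈ σ.Sa c, G.f θ c y = σ.va c y := Iff.rfl

/-- a splitting of the ordinary part -/
theorem spl_mk {k : ℕ} {σ : Stt X Y T Q W U M} (hσ : Valid G E0 H k σ) {q : Q} {ι : Type}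
    (s : Finset ι) (E : ι → Co X Y T → Finset (List Bool)) (S : ι → Finset T)
    (v : ι → T → Bool) (κ : ι → Q → Option Bool)
    (hcov : ∀ θ, InW G σ θ → ∃ i ∈ s, InW G (mk' σ (E i) (S i) (v i) (κ i)) θ)
    (hsub : ∀ i ∈ s, ∀ θ, InW G (mk' σ (E i) (S i) (v i) (κ i)) θ → InW G σ θ)
    (hSt : ∀ i ∈ s, St G.toG E0 H (k + 1) (E i) (S i) (κ i))
    (hdec : ∀ i ∈ s, ∃ a, ∀ θ, InW G (mk' σ (E i) (S i) (v i) (κ i)) θ → G.B θ q = a)
    (hsum : ∑ i ∈ s, mass (E i) (S i) * pot (E i) xs ≤
      (mass σ.E σ.S * pot σ.E xs) * (1 + δ)) :
    Spl G E0 H δ xs 0 1 k σ fun τ => ∃ a, ∀ θ, InW G τ θ → G.B θ q = a := by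
  have hcr : ∀ τ : Stt X Y T Q W U M, cr G 0 τ = 0 := by
    intro τ
    unfold cr
    exact sum_eq_zero fun c _ => if_neg (Nat.not_lt_zero _)
  refine ⟨{i // i ∈ s}, inferInstance, fun i => mk' σ (E i.1) (S i.1) (v i.1) (κ i.1),
    fun _ => k + 1, fun θ hθ => ?_, fun i => ⟨hsub i.1 i.2, ⟨hSt i.1 i.2, ?_⟩, ?_,
      fun c _ => ⟨rfl, rfl, rfl⟩, hdec i.1 i.2⟩, ?_⟩
  · obtain ⟨i, hi, h⟩ := hcov θ hθ
    exact ⟨⟨i, hi⟩, h⟩
  · intro c w hw θ hθ
    exact hσ.bits c w hw θ (hsub i.1 i.2 θ hθ)
  · rw [hcr, hcr]
  · simp only [hcr, pow_zero, mul_one, pow_one]
    have h1 : ∑ i : {i // i ∈ s}, phi G xs (mk' σ (E i.1) (S i.1) (v i.1) (κ i.1)) =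
        ∑ i ∈ s, mass (E i) (S i) * pot (E i) xs * gam G σ :=
      sum_coe_sort s fun i => mass (E i) (S i) * pot (E i) xs * gam G σ
    rw [h1, ← sum_mul]
    calc (∑ i ∈ s, mass (E i) (S i) * pot (E i) xs) * gam G σ
        ≤ (mass σ.E σ.S * pot σ.E xs) * (1 + δ) * gam G σ :=
          mul_le_mul_of_nonneg_right hsum (gam_nonneg _ _)
      _ = (1 + δ) * phi G xs σ := by
          unfold phi
          ring

/-- the facts about the queries of `t` -/
noncomputable def factK (G : AG X Y T P Q C W U M) (κ : Q → Option Bool) (t : T)
    (γ : List Bool) (b : Bool) (q : Q) : Option Bool :=
  match κ q with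
  | some a => some a
  | none => match G.cls q with
    | .hash t' f => if t' = t then some (f γ b) else none
    | _ => none

theorem factK_some {κ : Q → Option Bool} {t : T} {γ : List Bool} {b : Bool} {q : Q} {a : Bool}
    (h : κ q = some a) : factK G κ t γ b q = some a := by
  unfold factK
  rw [h]

theorem factK_hash {κ : Q → Option Bool} {t : T} {γ : List Bool} {b : Bool} {q : Q}
    {f : List Bool → Bool → Bool} (hκ : κ q = none) (h : G.cls q = .hash t f) :
    factK G κ t γ b q = some (f γ b) := by
  unfold factK
  rw [hκ]
  simp only
  rw [h]
  simp

theorem factK_cases (G : AG X Y T P Q C W U M) (κ : Q → Option Bool) (t : T) (γ : List Bool)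
    (b : Bool) (q : Q) : (κ q = none ∧ ∃ f, G.cls q = .hash t f ∧
      factK G κ t γ b q = some (f γ b)) ∨ factK G κ t γ b q = κ q := by
  cases hκ : κ q with
  | some a => exact Or.inr (factK_some hκ)
  | none =>
    cases h : G.cls q with
    | hash t' f =>
      by_cases ht : t' = t
      · subst ht
        exact Or.inl ⟨rfl, f, rfl, factK_hash hκ h⟩
      · refine Or.inr ?_
        unfold factK
        rw [hκ]
        simp only
        rw [h]
        simp [ht]
    | fix => refine Or.inr ?_; unfold factK; rw [hκ]; simp only; rw [h]
    | plain x c u => refine Or.inr ?_; unfold factK; rw [hκ]; simp only; rw [h]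
    | wit y w => refine Or.inr ?_; unfold factK; rw [hκ]; simp only; rw [h]

theorem factK_ne_none {κ : Q → Option Bool} {t : T} {γ : List Bool}
    {b : Bool} {q : Q} (h : κ q ≠ none) : factK G κ t γ b q ≠ none := by
  rcases factK_cases G κ t γ b q with ⟨h1, _⟩ | h1
  · exact absurd h1 h
  · rw [h1]; exact h

theorem base_split (hG : G.OK E0 H) (hδ : 0 ≤ δ) (hD1 : ∀ a : ℕ, H ≤ a + D → 1 ≤ δ * a)
    (hD2 : (D : ℝ) ≤ δ * H) (hxs : xs.Nodup) : BaseSplit G E0 H D δ xs := by
  intro k σ hσ hk q
  have hSt := hσ.st
  set E := σ.E with hEdef
  set S := σ.S with hSdef
  set κ := σ.κ with hκdef
  have hΨ : 0 ≤ mass E S * pot E xs := mul_nonneg (mass_nonneg _ _) (pot_nonneg _ _)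
  set Ψ : ℝ := mass E S * pot E xs with hΨd
  -- determined answers
  have det : ∀ a : Bool, (∀ θ, InW G σ θ → G.B θ q = a) →
      Spl G E0 H δ xs 0 1 k σ fun τ => ∃ a, ∀ θ, InW G τ θ → G.B θ q = a :=
    fun a ha => Spl.refl hδ hσ ⟨a, ha⟩ 1
  have hmemE : ∀ θ, InW G σ θ → ∀ c, θ.1 c ∈ E c := fun θ hθ => hθ.1
  have hmem0 : ∀ θ, InW G σ θ → ∀ c, θ.1 c ∈ E0 c := fun θ hθ c => hSt.sub c (hmemE θ hθ c)
  cases hκ : κ q with
  | some a => exact det a fun θ hθ => hθ.2.2.2.1 q a hκ
  | none =>
    cases hc : G.cls q with
    | fix =>
      obtain ⟨a, ha⟩ := hG.fix q hc
      exact det a fun θ hθ => ha θ (hmem0 θ hθ) hθ.2.1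
    | plain x0 c u =>
      have hpl := fun θ hθ => hG.plain q x0 c u hc θ (hmem0 θ hθ) hθ.2.1
      by_cases hu : u ∈ E (cu x0)
      · rcases hSt.hu x0 with hH | ⟨u0, b0, h1, h2⟩
        · -- the main case
          set a : ℝ := ((E (cu x0)).card : ℝ) with ha
          have ha1 : 1 ≤ δ * a := hD1 _ (by omega)
          have ha0 : 0 < a := by
            rcases eq_or_lt_of_le (show (0 : ℝ) ≤ a by positivity) with h | h
            · rw [← h] at ha1; norm_num at ha1
            · exact h
          set E1 := Function.update E (cu x0) ((E (cu x0)).erase u) with hE1
          set E' := Function.update E (cu x0) {u} with hE'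
          let E2 : Bool → Co X Y T → Finset (List Bool) := fun b =>
            Function.update E' (cb x0) {[b]}
          have hSt1 : St G.toG E0 H (k + 1) E1 S κ := by
            refine ⟨fun c => ?_, hSt.sc.trans (Nat.le_succ _), fun x' => ?_, fun x' => ?_,
              fun y => ?_, fun t => ?_, ?_⟩
            · by_cases hc : c = cu x0
              · subst hc
                rw [hE1, Function.update_self]
                exact (erase_subset _ _).trans (hSt.sub _)
              · rw [hE1, Function.update_of_ne hc]
                exact hSt.sub c
            · rw [hE1, Function.update_of_ne (by simp)]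
              exact hSt.hb x'
            · by_cases hx : x' = x0
              · subst hx
                left
                rw [hE1, Function.update_self, card_erase_of_mem hu]
                omega
              · rw [hE1, Function.update_of_ne (by simpa using hx),
                  Function.update_of_ne (by simp)]
                rcases hSt.hu x' with h | h
                · left; omega
                · right; exact h
            · rw [hE1, Function.update_of_ne (by simp)]
              rcases hSt.ho y with h | h
              · left; omega
              · right; exact h
            · rw [hE1, Function.update_of_ne (by simp)]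
              exact hSt.hg t
            · intro t ht t' ht' h
              rw [hE1, Function.update_of_ne (by simp), Function.update_of_ne (by simp)] at h
              exact hSt.inj t ht t' ht' h
          have hSt2 : ∀ b, St G.toG E0 H (k + 1) (E2 b) S κ := by
            intro b
            have hE2 : E2 b = Function.update E' (cb x0) {[b]} := rfl
            refine ⟨fun c => ?_, hSt.sc.trans (Nat.le_succ _), fun x' => ?_, fun x' => ?_,
              fun y => ?_, fun t => ?_, ?_⟩
            · by_cases hc : c = cb x0
              · subst hc
                rw [hE2, Function.update_self, hG.eb]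
                cases b <;> simp
              · rw [hE2, Function.update_of_ne hc]
                by_cases hc' : c = cu x0
                · subst hc'
                  rw [hE', Function.update_self]
                  exact (singleton_subset_iff.2 hu).trans (hSt.sub _)
                · rw [hE', Function.update_of_ne hc']
                  exact hSt.sub c
            · by_cases hx : x' = x0
              · subst hx
                exact Or.inr ⟨b, by rw [hE2, Function.update_self]⟩
              · rw [hE2, Function.update_of_ne (by simpa using hx), hE',
                  Function.update_of_ne (by simp)]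
                exact hSt.hb x'
            · by_cases hx : x' = x0
              · subst hx
                right
                refine ⟨u, b, ?_, ?_⟩
                · rw [hE2, Function.update_of_ne (by simp), hE', Function.update_self]
                · rw [hE2, Function.update_self]
              · rw [hE2, Function.update_of_ne (by simp), hE',
                  Function.update_of_ne (by simpa using hx),
                  Function.update_of_ne (by simpa using hx), Function.update_of_ne (by simp)]
                rcases hSt.hu x' with h | h
                · left; omega
                · right; exact h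
            · rw [hE2, Function.update_of_ne (by simp), hE',
                Function.update_of_ne (by simp)]
              rcases hSt.ho y with h | h
              · left; omega
              · right; exact h
            · rw [hE2, Function.update_of_ne (by simp), hE',
                Function.update_of_ne (by simp)]
              exact hSt.hg t
            · intro t ht t' ht' h
              rw [hE2, Function.update_of_ne (by simp), Function.update_of_ne (by simp),
                hE', Function.update_of_ne (by simp), Function.update_of_ne (by simp)] at h
              exact hSt.inj t ht t' ht' h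
          have hm1 : mass E1 S * pot E1 xs = Ψ * (a - 1) / a := by
            have h3 := mass_update E S (cu x0) ((E (cu x0)).erase u)
            rw [← hE1, cast_card_erase_of_mem hu] at h3
            have h7 : pot E1 xs = pot E xs := pot_update E (cu x0) _ _ fun x' _ => by simp
            rw [h7, eq_div_iff ha0.ne', hΨd]
            calc mass E1 S * pot E xs * a = (mass E1 S * a) * pot E xs := by ring
              _ = (mass E S * (a - 1)) * pot E xs := by rw [h3]
              _ = _ := by ring
          have hm2 : ∀ b, mass (E2 b) S * pot (E2 b) xs ≤ Ψ / a := by
            intro b
            have hE2 : E2 b = Function.update E' (cb x0) {[b]} := rfl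
            have h3 := mass_update E S (cu x0) {u}
            have h4 := mass_update E' S (cb x0) {[b]}
            have h5 : E' (cb x0) = E (cb x0) := by
              rw [hE', Function.update_of_ne (by simp)]
            have h6 := pot_update_cb E' x0 b (fun x' => by
              rw [hE', Function.update_of_ne (by simp)]
              exact hSt.cb_card x') xs hxs
            have h7 : pot E' xs = pot E xs := pot_update E (cu x0) _ _ fun x' _ => by simp
            rw [card_singleton, Nat.cast_one, mul_one, ← hE'] at h3
            rw [card_singleton, Nat.cast_one, mul_one, ← hE2, h5] at h4
            rw [← hE2, h5, h7] at h6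
            have h8 : 0 ≤ mass (E2 b) S := mass_nonneg _ _
            calc mass (E2 b) S * pot (E2 b) xs ≤
                  mass (E2 b) S * (pot E xs * ((E (cb x0)).card : ℝ)) :=
                  mul_le_mul_of_nonneg_left h6 h8
              _ = (mass (E2 b) S * (E (cb x0)).card) * pot E xs := by ring
              _ = mass E' S * pot E xs := by rw [h4]
              _ = Ψ / a := by
                  rw [eq_div_iff ha0.ne', hΨd, ← h3]
                  ring
          have htot : Ψ * (a - 1) / a + 2 * (Ψ / a) ≤ Ψ * (1 + δ) := by
            have h12 : Ψ * (a - 1) / a + 2 * (Ψ / a) = Ψ + Ψ / a := by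
              field_simp
              ring
            have h13 : Ψ / a ≤ Ψ * δ := by
              rw [div_le_iff₀ ha0]
              nlinarith
            rw [h12]
            linarith
          let EE : Option Bool → Co X Y T → Finset (List Bool) := fun o => o.elim E1 E2
          let s : Finset (Option Bool) := univ.filter fun o => ∀ b, o = some b → [b] ∈ E (cb x0)
          have hms : ∀ o, o ∈ s ↔ ∀ b, o = some b → [b] ∈ E (cb x0) := fun o => by
            simp only [s, mem_filter]
            exact and_iff_right (mem_univ _)
          refine spl_mk hσ s EE (fun _ => S) (fun _ => σ.v) (fun _ => κ) ?_ ?_ ?_ ?_ ?_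
          · intro θ hθ
            have h9 := hmemE θ hθ
            by_cases hcu : θ.1 (cu x0) = u
            · have h10 := hmem0 θ hθ (cb x0)
              rw [hG.eb, mem_insert, mem_singleton] at h10
              obtain ⟨b, hb⟩ : ∃ b, θ.1 (cb x0) = [b] := by
                rcases h10 with h | h
                · exact ⟨false, h⟩
                · exact ⟨true, h⟩
              refine ⟨some b, (hms _).2 fun b' hb' => ?_, inW_mk'.2 ⟨fun c' => ?_, hθ.2⟩⟩
              · simp only [Option.some.injEq] at hb'
                rw [← hb', ← hb]
                exact h9 _
              · show θ.1 c' ∈ Function.update E' (cb x0) {[b]} c'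
                by_cases hc' : c' = cb x0
                · subst hc'
                  rw [Function.update_self, mem_singleton]
                  exact hb
                · rw [Function.update_of_ne hc']
                  by_cases hc'' : c' = cu x0
                  · subst hc''
                    rw [hE', Function.update_self, mem_singleton]
                    exact hcu
                  · rw [hE', Function.update_of_ne hc'']
                    exact h9 c'
            · refine ⟨none, (hms _).2 fun b' hb' => by simp at hb',
                inW_mk'.2 ⟨fun c' => ?_, hθ.2⟩⟩
              show θ.1 c' ∈ E1 c'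
              by_cases hc' : c' = cu x0
              · subst hc'
                rw [hE1, Function.update_self, mem_erase]
                exact ⟨hcu, h9 _⟩
              · rw [hE1, Function.update_of_ne hc']
                exact h9 c'
          · intro o ho θ hθ
            obtain ⟨g1, g2⟩ := inW_mk'.1 hθ
            refine ⟨fun c' => ?_, g2⟩
            cases o with
            | none =>
              have g3 : θ.1 c' ∈ E1 c' := g1 c'
              by_cases hc' : c' = cu x0
              · subst hc'
                rw [hE1, Function.update_self] at g3
                exact mem_of_mem_erase g3
              · rwa [hE1, Function.update_of_ne hc'] at g3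
            | some b =>
              have g3 : θ.1 c' ∈ Function.update E' (cb x0) {[b]} c' := g1 c'
              by_cases hc' : c' = cb x0
              · subst hc'
                rw [Function.update_self, mem_singleton] at g3
                rw [g3]
                exact (hms _).1 ho b rfl
              · rw [Function.update_of_ne hc'] at g3
                by_cases hc'' : c' = cu x0
                · subst hc''
                  rw [hE', Function.update_self, mem_singleton] at g3
                  rw [g3]
                  exact hu
                · rwa [hE', Function.update_of_ne hc''] at g3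
          · intro o _
            cases o with
            | none => exact hSt1
            | some b => exact hSt2 b
          · intro o ho
            cases o with
            | none =>
              refine ⟨false, fun θ hθ => ?_⟩
              obtain ⟨g1, g2⟩ := inW_mk'.1 hθ
              have g3 : θ.1 (cu x0) ∈ E1 (cu x0) := g1 _
              rw [hE1, Function.update_self, mem_erase] at g3
              have g4 : InW G σ θ := by
                refine ⟨fun c' => ?_, g2⟩
                have g5 : θ.1 c' ∈ E1 c' := g1 c'
                by_cases hc' : c' = cu x0
                · subst hc'
                  exact g3.2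
                · rwa [hE1, Function.update_of_ne hc'] at g5
              rw [Bool.eq_false_iff]
              intro h
              exact g3.1 ((hpl θ g4).1 h).2
            | some b =>
              refine ⟨decide (b = c), fun θ hθ => ?_⟩
              obtain ⟨g1, g2⟩ := inW_mk'.1 hθ
              have g3 : θ.1 (cb x0) ∈ Function.update E' (cb x0) {[b]} (cb x0) := g1 _
              have g3' : θ.1 (cu x0) ∈ Function.update E' (cb x0) {[b]} (cu x0) := g1 _
              rw [Function.update_self, mem_singleton] at g3
              rw [Function.update_of_ne (by simp), hE', Function.update_self,
                mem_singleton] at g3'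
              have g4 : InW G σ θ := by
                refine ⟨fun c' => ?_, g2⟩
                have g5 : θ.1 c' ∈ Function.update E' (cb x0) {[b]} c' := g1 c'
                by_cases hc' : c' = cb x0
                · subst hc'
                  rw [g3]
                  exact (hms _).1 ho b rfl
                · rw [Function.update_of_ne hc'] at g5
                  by_cases hc'' : c' = cu x0
                  · subst hc''
                    rw [g3']
                    exact hu
                  · rwa [hE', Function.update_of_ne hc''] at g5
              rw [Bool.eq_iff_iff, hpl θ g4, g3, g3', decide_eq_true_eq]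
              simp
          · have h14 : ∑ o ∈ s, mass (EE o) S * pot (EE o) xs ≤
                ∑ o : Option Bool, mass (EE o) S * pot (EE o) xs :=
              sum_le_sum_of_subset_of_nonneg (filter_subset _ _) fun o _ _ =>
                mul_nonneg (mass_nonneg _ _) (pot_nonneg _ _)
            refine h14.trans ?_
            rw [Fintype.sum_option, Fintype.sum_bool]
            show mass E1 S * pot E1 xs + (mass (E2 true) S * pot (E2 true) xs +
              mass (E2 false) S * pot (E2 false) xs) ≤ _
            have q0 := hm2 false
            have q1 := hm2 true
            rw [hm1]
            linarith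
        · -- everything about `x0` is known
          refine det (decide ([b0] = [c] ∧ u0 = u)) fun θ hθ => ?_
          have h3 := hmemE θ hθ (cu x0)
          have h4 := hmemE θ hθ (cb x0)
          rw [h1, mem_singleton] at h3
          rw [h2, mem_singleton] at h4
          rw [Bool.eq_iff_iff, hpl θ hθ, decide_eq_true_eq, h3, h4]
      · refine det false fun θ hθ => ?_
        rw [Bool.eq_false_iff]
        intro h
        exact hu (((hpl θ hθ).1 h).2 ▸ hmemE θ hθ (cu x0))
    | wit y w =>
      have hw := fun θ hθ => hG.wit q y w hc θ (hmem0 θ hθ) hθ.2.1
      by_cases hwE : w ∈ E (co y)
      · rcases hSt.ho y with hH | ⟨w0, h1, h2⟩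
        · set a : ℝ := ((E (co y)).card : ℝ) with ha
          have ha1 : 1 ≤ δ * a := hD1 _ (by omega)
          have ha0 : 0 < a := by
            rcases eq_or_lt_of_le (show (0 : ℝ) ≤ a by positivity) with h | h
            · rw [← h] at ha1; norm_num at ha1
            · exact h
          set E1 := Function.update E (co y) ((E (co y)).erase w) with hE1
          set E2 := Function.update E (co y) {w} with hE2
          let κ' : Bool → Q → Option Bool := fun b => Function.update κ q (some b)
          have hκ'2 : ∀ b q', κ q' ≠ none → κ' b q' ≠ none := by
            intro b q' h
            show Function.update κ q (some b) q' ≠ none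
            by_cases hq : q' = q
            · rw [hq, Function.update_self]; simp
            · rw [Function.update_of_ne hq]; exact h
          have hSt1 : St G.toG E0 H (k + 1) E1 S κ := by
            refine ⟨fun c => ?_, hSt.sc.trans (Nat.le_succ _), fun x' => ?_, fun x' => ?_,
              fun y' => ?_, fun t => ?_, ?_⟩
            · by_cases hc : c = co y
              · subst hc
                rw [hE1, Function.update_self]
                exact (erase_subset _ _).trans (hSt.sub _)
              · rw [hE1, Function.update_of_ne hc]
                exact hSt.sub c
            · rw [hE1, Function.update_of_ne (by simp)]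
              exact hSt.hb x'
            · rw [hE1, Function.update_of_ne (by simp), Function.update_of_ne (by simp)]
              rcases hSt.hu x' with h | h
              · left; omega
              · right; exact h
            · by_cases hy : y' = y
              · subst hy
                left
                rw [hE1, Function.update_self, card_erase_of_mem hwE]
                omega
              · rw [hE1, Function.update_of_ne (by simpa using hy)]
                rcases hSt.ho y' with h | h
                · left; omega
                · right; exact h
            · rw [hE1, Function.update_of_ne (by simp)]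
              exact hSt.hg t
            · intro t ht t' ht' h
              rw [hE1, Function.update_of_ne (by simp), Function.update_of_ne (by simp)] at h
              exact hSt.inj t ht t' ht' h
          have hSt2 : ∀ b, St G.toG E0 H (k + 1) E2 S (κ' b) := by
            intro b
            refine ⟨fun c => ?_, hSt.sc.trans (Nat.le_succ _), fun x' => ?_, fun x' => ?_,
              fun y' => ?_, fun t => ?_, ?_⟩
            · by_cases hc : c = co y
              · subst hc
                rw [hE2, Function.update_self]
                exact (singleton_subset_iff.2 hwE).trans (hSt.sub _)
              · rw [hE2, Function.update_of_ne hc]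
                exact hSt.sub c
            · rw [hE2, Function.update_of_ne (by simp)]
              exact hSt.hb x'
            · rw [hE2, Function.update_of_ne (by simp), Function.update_of_ne (by simp)]
              rcases hSt.hu x' with h | h
              · left; omega
              · right; exact h
            · by_cases hy : y' = y
              · subst hy
                right
                refine ⟨w, by rw [hE2, Function.update_self], fun q' w' h3 h4 => ?_⟩
                subst h4
                have h5 := hG.inj q' q y' w' h3 hc
                show Function.update κ q (some b) q' ≠ none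
                rw [h5, Function.update_self]
                simp
              · rw [hE2, Function.update_of_ne (by simpa using hy)]
                rcases hSt.ho y' with h | ⟨w0, h3, h4⟩
                · left; omega
                · right
                  exact ⟨w0, h3, fun q' w' h5 h6 => hκ'2 b q' (h4 q' w' h5 h6)⟩
            · rw [hE2, Function.update_of_ne (by simp)]
              rcases hSt.hg t with h | ⟨γ, h3, h4⟩
              · exact Or.inl h
              · refine Or.inr ⟨γ, h3, ?_⟩
                rcases h4 with h4 | h4
                · exact Or.inl h4
                · exact Or.inr fun q' f h5 => hκ'2 b q' (h4 q' f h5)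
            · intro t ht t' ht' h
              rw [hE2, Function.update_of_ne (by simp), Function.update_of_ne (by simp)] at h
              exact hSt.inj t ht t' ht' h
          have hm1 : mass E1 S * pot E1 xs = Ψ * (a - 1) / a := by
            have h3 := mass_update E S (co y) ((E (co y)).erase w)
            rw [← hE1, cast_card_erase_of_mem hwE] at h3
            have h7 : pot E1 xs = pot E xs := pot_update E (co y) _ _ fun x' _ => by simp
            rw [h7, eq_div_iff ha0.ne', hΨd]
            calc mass E1 S * pot E xs * a = (mass E1 S * a) * pot E xs := by ring
              _ = (mass E S * (a - 1)) * pot E xs := by rw [h3]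
              _ = _ := by ring
          have hm2 : mass E2 S * pot E2 xs = Ψ / a := by
            have h3 := mass_update E S (co y) {w}
            have h7 : pot E2 xs = pot E xs := pot_update E (co y) _ _ fun x' _ => by simp
            rw [card_singleton, Nat.cast_one, mul_one, ← hE2] at h3
            rw [h7, eq_div_iff ha0.ne', hΨd, ← h3]
            ring
          have htot : Ψ * (a - 1) / a + 2 * (Ψ / a) ≤ Ψ * (1 + δ) := by
            have h12 : Ψ * (a - 1) / a + 2 * (Ψ / a) = Ψ + Ψ / a := by
              field_simp
              ring
            have h13 : Ψ / a ≤ Ψ * δ := by
              rw [div_le_iff₀ ha0]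
              nlinarith
            rw [h12]
            linarith
          -- a known answer is kept
          have hext : ∀ b q' a', κ q' = some a' → κ' b q' = some a' := by
            intro b q' a' h
            show Function.update κ q (some b) q' = some a'
            have hne : q' ≠ q := fun h' => by rw [h', hκ] at h; simp at h
            rw [Function.update_of_ne hne, h]
          refine spl_mk hσ (univ : Finset (Option Bool)) (fun o => o.elim E1 fun _ => E2)
            (fun _ => S) (fun _ => σ.v) (fun o => o.elim κ κ') ?_ ?_ ?_ ?_ ?_
          · intro θ hθ
            have h9 := hmemE θ hθ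
            by_cases hcu : θ.1 (co y) = w
            · refine ⟨some (G.B θ q), mem_univ _, inW_mk'.2 ⟨fun c' => ?_, hθ.2.1, hθ.2.2.1,
                fun q' a' hq' => ?_, hθ.2.2.2.2⟩⟩
              · show θ.1 c' ∈ E2 c'
                by_cases hc' : c' = co y
                · subst hc'
                  rw [hE2, Function.update_self, mem_singleton]
                  exact hcu
                · rw [hE2, Function.update_of_ne hc']
                  exact h9 c'
              · have hq'' : Function.update κ q (some (G.B θ q)) q' = some a' := hq'
                by_cases hq : q' = q
                · rw [hq, Function.update_self, Option.some.injEq] at hq''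
                  rw [hq, hq'']
                · rw [Function.update_of_ne hq] at hq''
                  exact hθ.2.2.2.1 q' a' hq''
            · refine ⟨none, mem_univ _, inW_mk'.2 ⟨fun c' => ?_, hθ.2⟩⟩
              show θ.1 c' ∈ E1 c'
              by_cases hc' : c' = co y
              · subst hc'
                rw [hE1, Function.update_self, mem_erase]
                exact ⟨hcu, h9 _⟩
              · rw [hE1, Function.update_of_ne hc']
                exact h9 c'
          · intro o _ θ hθ
            obtain ⟨g1, g2, g3, g4, g5⟩ := inW_mk'.1 hθ
            cases o with
            | none =>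
              refine ⟨fun c' => ?_, g2, g3, g4, g5⟩
              have g6 : θ.1 c' ∈ E1 c' := g1 c'
              by_cases hc' : c' = co y
              · subst hc'
                rw [hE1, Function.update_self] at g6
                exact mem_of_mem_erase g6
              · rwa [hE1, Function.update_of_ne hc'] at g6
            | some b =>
              refine ⟨fun c' => ?_, g2, g3, fun q' a' h => g4 q' a' (hext b q' a' h), g5⟩
              have g6 : θ.1 c' ∈ E2 c' := g1 c'
              by_cases hc' : c' = co y
              · subst hc'
                rw [hE2, Function.update_self, mem_singleton] at g6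
                rw [g6]
                exact hwE
              · rwa [hE2, Function.update_of_ne hc'] at g6
          · intro o _
            cases o with
            | none => exact hSt1
            | some b => exact hSt2 b
          · intro o _
            cases o with
            | none =>
              refine ⟨false, fun θ hθ => ?_⟩
              obtain ⟨g1, g2⟩ := inW_mk'.1 hθ
              have g3 : θ.1 (co y) ∈ E1 (co y) := g1 _
              rw [hE1, Function.update_self, mem_erase] at g3
              have g4 : InW G σ θ := by
                refine ⟨fun c' => ?_, g2⟩
                have g5 : θ.1 c' ∈ E1 c' := g1 c'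
                by_cases hc' : c' = co y
                · subst hc'
                  exact g3.2
                · rwa [hE1, Function.update_of_ne hc'] at g5
              rw [Bool.eq_false_iff]
              intro h
              exact g3.1 (hw θ g4 h)
            | some b =>
              refine ⟨b, fun θ hθ => ?_⟩
              refine (inW_mk'.1 hθ).2.2.2.1 q b ?_
              show Function.update κ q (some b) q = some b
              rw [Function.update_self]
          · rw [Fintype.sum_option, Fintype.sum_bool]
            show mass E1 S * pot E1 xs + (mass E2 S * pot E2 xs + mass E2 S * pot E2 xs) ≤ _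
            rw [hm1, hm2]
            linarith
        · refine det false fun θ hθ => ?_
          rw [Bool.eq_false_iff]
          intro h
          have h3 := hmemE θ hθ (co y)
          rw [h1, mem_singleton] at h3
          have h4 := hw θ hθ h
          exact h2 q w hc (h4.symm.trans h3) hκ
      · refine det false fun θ hθ => ?_
        rw [Bool.eq_false_iff]
        intro h
        exact hwE (hw θ hθ h ▸ hmemE θ hθ (co y))
    | hash t f =>
      have hh := fun θ hθ => hG.hash q t f hc θ (hmem0 θ hθ) hθ.2.1
      rcases hSt.hg t with ⟨hH, htS⟩ | ⟨γ0, h1, h2⟩
      · set a : ℝ := ((E (cg t)).card : ℝ) with ha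
        have ha1 : 1 ≤ δ * a := hD1 _ (by omega)
        have ha0 : 0 < a := by
          rcases eq_or_lt_of_le (show (0 : ℝ) ≤ a by positivity) with h | h
          · rw [← h] at ha1; norm_num at ha1
          · exact h
        set used : List Bool → Prop := fun γ => ∃ t' ∈ S, E (cg t') = {γ} with hused
        let E2 : List Bool × Bool → Co X Y T → Finset (List Bool) := fun z =>
          Function.update E (cg t) {z.1}
        let S2 : List Bool × Bool → Finset T := fun z => if used z.1 then S else insert t S
        let v2 : List Bool × Bool → T → Bool := fun z =>
          if used z.1 then σ.v else Function.update σ.v t z.2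
        let κ2 : List Bool × Bool → Q → Option Bool := fun z =>
          if used z.1 then factK G κ t z.1 z.2 else κ
        have hE2 : ∀ z, E2 z = Function.update E (cg t) {z.1} := fun _ => rfl
        have hE2t : ∀ z, E2 z (cg t) = {z.1} := fun z => by rw [hE2, Function.update_self]
        have hE2n : ∀ z c, c ≠ cg t → E2 z c = E c := fun z c h => by
          rw [hE2, Function.update_of_ne h]
        have hS2u : ∀ z, used z.1 → S2 z = S := fun z h => if_pos h
        have hS2n : ∀ z, ¬ used z.1 → S2 z = insert t S := fun z h => if_neg h
        have hv2u : ∀ z, used z.1 → v2 z = σ.v := fun z h => if_pos h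
        have hv2n : ∀ z, ¬ used z.1 → v2 z = Function.update σ.v t z.2 := fun z h => if_neg h
        have hκ2u : ∀ z, used z.1 → κ2 z = factK G κ t z.1 z.2 := fun z h => if_pos h
        have hκ2n : ∀ z, ¬ used z.1 → κ2 z = κ := fun z h => if_neg h
        have hm2 : ∀ z, mass (E2 z) S * pot (E2 z) xs = Ψ / a := by
          intro z
          have h3 := mass_update E S (cg t) {z.1}
          have h7 : pot (E2 z) xs = pot E xs := pot_update E (cg t) _ _ fun x' _ => by simp
          rw [card_singleton, Nat.cast_one, mul_one, ← hE2] at h3
          rw [h7, eq_div_iff ha0.ne', hΨd, ← h3]
          ring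
        have hEsub : ∀ z : List Bool × Bool, z.1 ∈ E (cg t) → ∀ c, E2 z c ⊆ E0 c := by
          intro z hz c
          by_cases hc : c = cg t
          · subst hc
            rw [hE2t]
            exact (singleton_subset_iff.2 hz).trans (hSt.sub _)
          · rw [hE2n z c hc]
            exact hSt.sub c
        -- the worlds of the new states are worlds of the state
        have hsub : ∀ z : List Bool × Bool, z.1 ∈ E (cg t) → ∀ θ,
            InW G (mk' σ (E2 z) (S2 z) (v2 z) (κ2 z)) θ →
            InW G σ θ ∧ θ.1 (cg t) = z.1 ∧ (used z.1 → ∀ q' f', κ q' = none →
              G.cls q' = .hash t f' → G.B θ q' = f' z.1 z.2) ∧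
              (¬ used z.1 → G.vis θ t = z.2) := by
          intro z hz θ hθ
          obtain ⟨g1, g2, g3, g4, g5⟩ := inW_mk'.1 hθ
          have g6 : θ.1 (cg t) = z.1 := by
            have := g1 (cg t)
            rwa [hE2t, mem_singleton] at this
          have g7 : ∀ c, θ.1 c ∈ E c := by
            intro c
            by_cases hc : c = cg t
            · subst hc
              rw [g6]
              exact hz
            · have := g1 c
              rwa [hE2n z c hc] at this
          by_cases hus : used z.1
          · rw [hS2u z hus, hv2u z hus] at g3
            rw [hκ2u z hus] at g4
            refine ⟨⟨g7, g2, g3, fun q' a' h => g4 q' a' (factK_some h), g5⟩, g6,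
              fun _ q' f' h h' => g4 q' _ (factK_hash h h'), fun h => absurd hus h⟩
          · rw [hS2n z hus, hv2n z hus] at g3
            rw [hκ2n z hus] at g4
            refine ⟨⟨g7, g2, fun t' ht' => ?_, g4, g5⟩, g6, fun h => absurd h hus, fun _ => ?_⟩
            · have hne : t' ≠ t := fun h => htS (h ▸ ht')
              have := g3 t' (mem_insert_of_mem ht')
              rwa [Function.update_of_ne hne] at this
            · have := g3 t (mem_insert_self _ _)
              rwa [Function.update_self] at this
        refine spl_mk hσ ((E (cg t)) ×ˢ (univ : Finset Bool)) E2 S2 v2 κ2 ?_ ?_ ?_ ?_ ?_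
        · intro θ hθ
          have h9 := hmemE θ hθ
          set z : List Bool × Bool := (θ.1 (cg t), G.vis θ t) with hz
          refine ⟨z, mem_product.2 ⟨h9 _, mem_univ _⟩, inW_mk'.2 ⟨fun c' => ?_, hθ.2.1, ?_, ?_,
            hθ.2.2.2.2⟩⟩
          · by_cases hc' : c' = cg t
            · subst hc'
              rw [hE2t, mem_singleton]
            · rw [hE2n z c' hc']
              exact h9 c'
          · intro t' ht'
            by_cases hus : used z.1
            · rw [hS2u z hus] at ht'
              rw [hv2u z hus]
              exact hθ.2.2.1 t' ht'
            · rw [hS2n z hus] at ht'
              rw [hv2n z hus]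
              by_cases ht : t' = t
              · subst ht
                rw [Function.update_self]
              · rw [Function.update_of_ne ht]
                exact hθ.2.2.1 t' ((mem_insert.1 ht').resolve_left ht)
          · intro q' a' hq'
            by_cases hus : used z.1
            · rw [hκ2u z hus] at hq'
              rcases factK_cases G κ t z.1 z.2 q' with ⟨h8, f', h9', h10⟩ | h9'
              · rw [h10, Option.some.injEq] at hq'
                rw [hG.hash q' t f' h9' θ (hmem0 θ hθ) hθ.2.1, ← hq']
              · rw [h9'] at hq'
                exact hθ.2.2.2.1 q' a' hq'
            · rw [hκ2n z hus] at hq'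
              exact hθ.2.2.2.1 q' a' hq'
        · intro z hz θ hθ
          exact (hsub z (mem_product.1 hz).1 θ hθ).1
        · intro z hz
          have hz1 := (mem_product.1 hz).1
          by_cases hus : used z.1
          · rw [hS2u z hus, hκ2u z hus]
            refine ⟨hEsub z hz1, hSt.sc.trans (Nat.le_succ _), fun x' => ?_, fun x' => ?_,
              fun y' => ?_, fun t' => ?_, ?_⟩
            · rw [hE2n z _ (by simp)]
              exact hSt.hb x'
            · rw [hE2n z _ (by simp), hE2n z _ (by simp)]
              rcases hSt.hu x' with h | h
              · left; omega
              · right; exact h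
            · rw [hE2n z _ (by simp)]
              rcases hSt.ho y' with h | ⟨w0, h3, h4⟩
              · left; omega
              · right
                exact ⟨w0, h3, fun q' w' h5 h6 => factK_ne_none (h4 q' w' h5 h6)⟩
            · by_cases ht : t' = t
              · subst ht
                refine Or.inr ⟨z.1, hE2t z, Or.inr fun q' f' h3 => ?_⟩
                cases hκq : κ q' with
                | some a' => rw [factK_some hκq]; simp
                | none => rw [factK_hash hκq h3]; simp
              · rw [hE2n z _ (by simpa using ht)]
                rcases hSt.hg t' with h | ⟨γ', h3, h4⟩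
                · exact Or.inl h
                · refine Or.inr ⟨γ', h3, ?_⟩
                  rcases h4 with h4 | h4
                  · exact Or.inl h4
                  · exact Or.inr fun q' f' h5 => factK_ne_none (h4 q' f' h5)
            · intro t1 ht1 t2 ht2 h
              have hne1 : t1 ≠ t := fun h => htS (h ▸ ht1)
              have hne2 : t2 ≠ t := fun h => htS (h ▸ ht2)
              rw [hE2n z _ (by simpa using hne1), hE2n z _ (by simpa using hne2)] at h
              exact hSt.inj t1 ht1 t2 ht2 h
          · rw [hS2n z hus, hκ2n z hus]
            refine ⟨hEsub z hz1, (card_insert_le _ _).trans (Nat.succ_le_succ hSt.sc),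
              fun x' => ?_, fun x' => ?_, fun y' => ?_, fun t' => ?_, ?_⟩
            · rw [hE2n z _ (by simp)]
              exact hSt.hb x'
            · rw [hE2n z _ (by simp), hE2n z _ (by simp)]
              rcases hSt.hu x' with h | h
              · left; omega
              · right; exact h
            · rw [hE2n z _ (by simp)]
              rcases hSt.ho y' with h | h
              · left; omega
              · right; exact h
            · by_cases ht : t' = t
              · subst ht
                exact Or.inr ⟨z.1, hE2t z, Or.inl (mem_insert_self _ _)⟩
              · rw [hE2n z _ (by simpa using ht)]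
                rcases hSt.hg t' with ⟨h, h'⟩ | ⟨γ', h3, h4⟩
                · refine Or.inl ⟨h, fun h'' => ?_⟩
                  rcases mem_insert.1 h'' with h'' | h''
                  · exact ht h''
                  · exact h' h''
                · refine Or.inr ⟨γ', h3, ?_⟩
                  rcases h4 with h4 | h4
                  · exact Or.inl (mem_insert_of_mem h4)
                  · exact Or.inr h4
            · intro t1 ht1 t2 ht2 h
              by_cases h3 : t1 = t
              · by_cases h4 : t2 = t
                · rw [h3, h4]
                · exfalso
                  have h5 : t2 ∈ S := (mem_insert.1 ht2).resolve_left h4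
                  rw [h3, hE2t, hE2n z _ (by simpa using h4)] at h
                  exact hus ⟨t2, h5, h.symm⟩
              · have h6 : t1 ∈ S := (mem_insert.1 ht1).resolve_left h3
                by_cases h4 : t2 = t
                · exfalso
                  rw [h4, hE2t, hE2n z _ (by simpa using h3)] at h
                  exact hus ⟨t1, h6, h⟩
                · have h5 : t2 ∈ S := (mem_insert.1 ht2).resolve_left h4
                  rw [hE2n z _ (by simpa using h3), hE2n z _ (by simpa using h4)] at h
                  exact hSt.inj t1 h6 t2 h5 h
        · intro z hz
          refine ⟨f z.1 z.2, fun θ hθ => ?_⟩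
          obtain ⟨g1, g2, g3, g4⟩ := hsub z (mem_product.1 hz).1 θ hθ
          by_cases hus : used z.1
          · exact g3 hus q f hκ hc
          · rw [hh θ g1, g2, g4 hus]
        · have hval1 : ∀ z : List Bool × Bool, mass (E2 z) (S2 z) * pot (E2 z) xs =
              if used z.1 then Ψ / a else Ψ / a / 2 := by
            intro z
            by_cases hus : used z.1
            · rw [hS2u z hus, if_pos hus, hm2]
            · rw [hS2n z hus, if_neg hus, ← hm2 z]
              have h3 : mass (E2 z) (insert t S) = mass (E2 z) S / 2 := by
                unfold mass
                rw [card_insert_of_notMem htS, pow_succ, div_div]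
              rw [h3]
              ring
          rw [sum_congr rfl fun z _ => hval1 z, sum_product]
          have hsum2 : ∀ γ ∈ E (cg t), ∑ b : Bool, (if used γ then Ψ / a else Ψ / a / 2) =
              Ψ / a + if used γ then Ψ / a else 0 := by
            intro γ _
            rw [Fintype.sum_bool]
            split_ifs <;> ring
          rw [sum_congr rfl hsum2, sum_add_distrib, sum_const, nsmul_eq_mul, ← ha,
            ← sum_filter, sum_const, nsmul_eq_mul, mul_div_cancel₀ _ ha0.ne']
          have hnum : ((E (cg t)).filter used).card ≤ k := by
            refine le_trans ?_ hSt.sc
            have h3 : (E (cg t)).filter used ⊆ S.biUnion fun t' =>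
                if (E (cg t')).card = 1 then E (cg t') else ∅ := by
              intro γ hγ
              obtain ⟨t', ht', h4⟩ := (mem_filter.1 hγ).2
              rw [mem_biUnion]
              refine ⟨t', ht', ?_⟩
              rw [h4, card_singleton, if_pos rfl]
              exact mem_singleton_self γ
            refine (card_le_card h3).trans (card_biUnion_le.trans ?_)
            rw [card_eq_sum_ones]
            refine sum_le_sum fun t' _ => ?_
            split_ifs with h4
            · exact h4.le
            · simp
          have h4 : (((E (cg t)).filter used).card : ℝ) ≤ k := by exact_mod_cast hnum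
          have h5 : (k : ℝ) ≤ D := by
            have : k ≤ D := by omega
            exact_mod_cast this
          have h6 : (H : ℝ) ≤ a := by
            rw [ha]
            exact_mod_cast hH
          have h7 : (((E (cg t)).filter used).card : ℝ) ≤ δ * a :=
            h4.trans (h5.trans (hD2.trans (mul_le_mul_of_nonneg_left h6 hδ)))
          have h8 : (((E (cg t)).filter used).card : ℝ) * (Ψ / a) ≤ δ * a * (Ψ / a) :=
            mul_le_mul_of_nonneg_right h7 (by positivity)
          have h9 : δ * a * (Ψ / a) = Ψ * δ := by
            field_simp
          linarith
      · rcases h2 with h2 | h2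
        · refine det (f γ0 (σ.v t)) fun θ hθ => ?_
          have h3 := hmemE θ hθ (cg t)
          rw [h1, mem_singleton] at h3
          rw [hh θ hθ, h3, hθ.2.2.1 t h2]
        · exact absurd hκ (h2 q f hc)

end game

end OAlg
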