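import Pool.Agent.Work.MP_609cce_lc_alg.Tree

/-!
# The guessing game with extensions: the bound for a list of runs
-/

namespace OAlg

open OEth Orc Finset
open Classical

set_option linter.unusedSectionVars false

section game

variable {X Y T P Q C : Type} {W U M : C → Type} [∀ c, AddCommGroup (M c)]
  [Fintype X] [Fintype Y] [Fintype T] [Fintype P] [Fintype C]
  [∀ c, Fintype (W c)] [∀ c, Fintype (U c)] [∀ c, Fintype (M c)]
  {G : AG X Y T P Q C W U M} {E0 : Co X Y T → Finset (List Bool)} {H D : ℕ} {δ : ℝ}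

/-- the number of worlds of a state -/
theorem worlds_bound (hG : G.OK E0 H) {k : ℕ} {σ : Stt X Y T Q W U M} (hσ : Valid G E0 H k σ)
    (F : Finset (Wo X Y T P U M)) (hF : ∀ θ ∈ F, InW G σ θ) :
    (F.card : ℝ) ≤ 2 ^ Fintype.card P * phi G [] σ := by
  let cond : (Co X Y T → List Bool) → (P → Bool) × (∀ c, U c → M c) → Prop := fun η ω =>
    G.VV ω.2 ∧ (∀ t ∈ σ.S, G.vis (η, ω) t = σ.v t) ∧
      (∀ c, ∀ y ∈ σ.Sa c, G.f (η, ω) c y = σ.va c y) ∧
      ∀ c, ∀ w ∈ (G.cube c).B (σ.Sa c), G.bit (η, ω) c w = σ.aa c w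
  have h1 : F.card ≤ ∑ η ∈ Fintype.piFinset σ.E, (univ.filter (cond η)).card := by
    have h2 : F ⊆ (Fintype.piFinset σ.E).biUnion fun η =>
        (univ.filter (cond η)).image fun ω => (η, ω) := by
      intro θ hθ
      have h3 := hF θ hθ
      rw [mem_biUnion]
      refine ⟨θ.1, Fintype.mem_piFinset.2 h3.1, mem_image.2 ⟨θ.2, ?_, rfl⟩⟩
      rw [mem_filter]
      exact ⟨mem_univ _, h3.2.1, h3.2.2.1, h3.2.2.2.2, fun c w hw => hσ.bits c w hw θ h3⟩
    refine (card_le_card h2).trans (card_biUnion_le.trans (sum_le_sum fun η _ => ?_))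
    exact card_image_le
  have h2 : ∀ η ∈ Fintype.piFinset σ.E, (univ.filter (cond η)).card * 2 ^ σ.S.card ≤
      2 ^ Fintype.card P * ∏ c, ((G.cube c).gs (σ.Sa c) (σ.va c) (σ.aa c)).card := by
    intro η hη
    rw [Fintype.mem_piFinset] at hη
    refine hG.count η (fun c => hσ.st.sub c (hη c)) σ.S
      (fun t ht t' ht' he => hσ.st.inj t ht t' ht' ?_) σ.v σ.Sa σ.va σ.aa
    have h3 : ∀ t ∈ σ.S, ∃ γ, σ.E (cg t) = {γ} := by
      intro t ht
      rcases hσ.st.hg t with h4 | ⟨γ, h4, _⟩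
      · exact absurd ht h4.2
      · exact ⟨γ, h4⟩
    obtain ⟨γ, h3a⟩ := h3 t ht
    obtain ⟨γ', h3b⟩ := h3 t' ht'
    have h5 := hη (cg t)
    have h6 := hη (cg t')
    rw [h3a, mem_singleton] at h5
    rw [h3b, mem_singleton] at h6
    rw [h3a, h3b, ← h5, ← h6, he]
  have h3 : F.card * 2 ^ σ.S.card ≤ (∏ c, (σ.E c).card) * (2 ^ Fintype.card P *
      ∏ c, ((G.cube c).gs (σ.Sa c) (σ.va c) (σ.aa c)).card) := by
    calc F.card * 2 ^ σ.S.card
        ≤ (∑ η ∈ Fintype.piFinset σ.E, (univ.filter (cond η)).card) * 2 ^ σ.S.card :=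
          Nat.mul_le_mul_right _ h1
      _ = ∑ η ∈ Fintype.piFinset σ.E, (univ.filter (cond η)).card * 2 ^ σ.S.card := by
          rw [sum_mul]
      _ ≤ ∑ η ∈ Fintype.piFinset σ.E, (2 ^ Fintype.card P *
          ∏ c, ((G.cube c).gs (σ.Sa c) (σ.va c) (σ.aa c)).card) := sum_le_sum h2
      _ = _ := by rw [sum_const, smul_eq_mul, Fintype.card_piFinset]
  have h4 : (F.card : ℝ) * 2 ^ σ.S.card ≤ (∏ c, ((σ.E c).card : ℝ)) *
      (2 ^ Fintype.card P * gam G σ) := by
    unfold gam
    exact_mod_cast h3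
  have h5 : (F.card : ℝ) ≤ (∏ c, ((σ.E c).card : ℝ)) *
      (2 ^ Fintype.card P * gam G σ) / 2 ^ σ.S.card := by
    rw [le_div_iff₀ (by positivity)]
    exact h4
  refine h5.trans (le_of_eq ?_)
  unfold phi mass pot
  simp only [List.map_nil, List.prod_nil, mul_one]
  ring

/-- the state in which the bit of `x` is guessed -/
noncomputable def guess (σ : Stt X Y T Q W U M) (x : X) (b : Bool) : Stt X Y T Q W U M where
  E := Function.update σ.E (cb x) {[b]}
  S := σ.S
  v := σ.v
  κ := σ.κ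
  Sa := σ.Sa
  va := σ.va
  aa := σ.aa

theorem guess_E_of_ne {σ : Stt X Y T Q W U M} {x : X} {b : Bool} {c : Co X Y T}
    (h : c ≠ cb x) : (guess σ x b).E c = σ.E c := Function.update_of_ne h _ _

theorem guess_E_self {σ : Stt X Y T Q W U M} {x : X} {b : Bool} :
    (guess σ x b).E (cb x) = {[b]} := Function.update_self ..

theorem inW_guess {σ : Stt X Y T Q W U M} {x : X} {b : Bool} (hb : [b] ∈ σ.E (cb x))
    {θ : Wo X Y T P U M} : InW G (guess σ x b) θ ↔ InW G σ θ ∧ θ.1 (cb x) = [b] := by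
  unfold InW guess
  simp only
  constructor
  · rintro ⟨h1, h2⟩
    have h3 := h1 (cb x)
    rw [Function.update_self, mem_singleton] at h3
    refine ⟨⟨fun c => ?_, h2⟩, h3⟩
    by_cases hc : c = cb x
    · subst hc
      rw [h3]
      exact hb
    · have h4 := h1 c
      rwa [Function.update_of_ne hc] at h4
  · rintro ⟨⟨h1, h2⟩, h3⟩
    refine ⟨fun c => ?_, h2⟩
    by_cases hc : c = cb x
    · subst hc
      rw [Function.update_self, mem_singleton]
      exact h3
    · rw [Function.update_of_ne hc]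
      exact h1 c

theorem valid_guess {k : ℕ} {σ : Stt X Y T Q W U M} (hσ : Valid G E0 H k σ) {x : X} {b : Bool}
    (hb : [b] ∈ σ.E (cb x)) : Valid G E0 H k (guess σ x b) := by
  have hSt := hσ.st
  refine ⟨⟨fun c => ?_, hSt.sc, fun x' => ?_, fun x' => ?_, fun y => ?_, fun t => ?_, ?_⟩,
    fun c w hw θ hθ => hσ.bits c w hw θ ((inW_guess hb).1 hθ).1⟩
  · by_cases hc : c = cb x
    · subst hc
      rw [guess_E_self]
      exact (singleton_subset_iff.2 hb).trans (hSt.sub _)
    · rw [guess_E_of_ne hc]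
      exact hSt.sub c
  · by_cases hx : x' = x
    · subst hx
      exact Or.inr ⟨b, guess_E_self⟩
    · rw [guess_E_of_ne (by simpa using hx)]
      exact hSt.hb x'
  · rw [guess_E_of_ne (show (cu x' : Co X Y T) ≠ cb x by simp)]
    rcases hSt.hu x' with h | ⟨u, b', h1, h2⟩
    · exact Or.inl h
    · right
      by_cases hx : x' = x
      · subst hx
        exact ⟨u, b, h1, guess_E_self⟩
      · exact ⟨u, b', h1, (guess_E_of_ne (by simpa using hx)).trans h2⟩
  · rw [guess_E_of_ne (show (co y : Co X Y T) ≠ cb x by simp)]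
    exact hSt.ho y
  · rw [guess_E_of_ne (show (cg t : Co X Y T) ≠ cb x by simp)]
    exact hSt.hg t
  · intro t ht t' ht' h
    rw [guess_E_of_ne (show (cg t : Co X Y T) ≠ cb x by simp),
      guess_E_of_ne (show (cg t' : Co X Y T) ≠ cb x by simp)] at h
    exact hSt.inj t ht t' ht' h

theorem phi_guess {k : ℕ} {σ : Stt X Y T Q W U M} (hσ : Valid G E0 H k σ) {x : X}
    {xs : List X} (hx : x ∉ xs) (b : Bool) : phi G xs (guess σ x b) = phi G (x :: xs) σ := by
  have h4 := mass_update σ.E σ.S (cb x) {[b]}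
  rw [card_singleton, Nat.cast_one, mul_one] at h4
  have h5 : pot (Function.update σ.E (cb x) {[b]}) xs = pot σ.E xs :=
    pot_update σ.E (cb x) _ _ fun x' hx' h => hx (by
      have : x' = x := by simpa using h
      rw [← this]; exact hx')
  have h6 : ((σ.E (cb x)).card : ℝ) ≠ 0 := by
    have := hσ.st.cb_card x
    positivity
  have h7 : pot σ.E (x :: xs) = ((σ.E (cb x)).card : ℝ)⁻¹ * pot σ.E xs := by
    simp [pot]
  show mass (Function.update σ.E (cb x) {[b]}) σ.S * pot (Function.update σ.E (cb x) {[b]}) xs *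
    gam G σ = mass σ.E σ.S * pot σ.E (x :: xs) * gam G σ
  rw [h5, h7, ← h4]
  field_simp

/-- **The bound for a list of runs.** -/
theorem list_bound (hG : G.OK E0 H) (hδ : 0 ≤ δ)
    (hB : ∀ xs : List X, xs.Nodup → BaseSplit G E0 H D δ xs) (hR : Res G E0) (L t : ℕ) :
    ∀ l : List (X × ATree Q C U M), (l.map Prod.fst).Nodup → (∀ z ∈ l, Bd G L z.2 t) →
      ∀ (k : ℕ) (σ : Stt X Y T Q W U M), Valid G E0 H k σ → k + cr G L σ + l.length * t ≤ D →
      ∀ F : Finset (Wo X Y T P U M), (∀ θ ∈ F, InW G σ θ ∧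
        ∀ z ∈ l, z.2.eval G θ = (θ.1 (cb z.1)).headD false) →
      (F.card : ℝ) ≤ 2 ^ Fintype.card P * (phi G (l.map Prod.fst) σ *
        (1 + δ) ^ (cr G L σ + l.length * t)) := by
  intro l
  have hP : (0 : ℝ) < 2 ^ Fintype.card P := by positivity
  induction l with
  | nil =>
    intro _ _ k σ hσ _ F hF
    refine (worlds_bound hG hσ F fun θ hθ => (hF θ hθ).1).trans ?_
    refine mul_le_mul_of_nonneg_left ?_ hP.le
    exact le_mul_of_one_le_right (phi_nonneg _ _ _) (one_le_pow₀ (by linarith))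
  | cons z l ih =>
    intro hnd hbd k σ hσ hk F hF
    obtain ⟨x, tr⟩ := z
    have hnd2 : x ∉ l.map Prod.fst ∧ (l.map Prod.fst).Nodup := by
      rw [List.map_cons, List.nodup_cons] at hnd
      exact hnd
    have e1 : ((x, tr) :: l).length * t = t + l.length * t := by
      rw [List.length_cons]; ring
    rw [e1] at hk ⊢
    have hsp := tree_split hδ (hB _ hnd) hR L tr t (hbd (x, tr) List.mem_cons_self) k σ hσ
      (by omega)
    obtain ⟨ι, hι, τ, kk, h1, h2, h3⟩ := hsp
    have hcov : F ⊆ univ.biUnion fun i => F.filter fun θ => InW G (τ i) θ := by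
      intro θ hθ
      obtain ⟨i, hi⟩ := h1 θ (hF θ hθ).1
      exact mem_biUnion.2 ⟨i, mem_univ _, mem_filter.2 ⟨hθ, hi⟩⟩
    have hpart : ∀ i, ((F.filter fun θ => InW G (τ i) θ).card : ℝ) ≤ 2 ^ Fintype.card P *
        (phi G (x :: l.map Prod.fst) (τ i) * (1 + δ) ^ cr G L (τ i) *
          (1 + δ) ^ (l.length * t)) := by
      intro i
      obtain ⟨b1, b2, b3, b4, b, hb⟩ := h2 i
      rcases (F.filter fun θ => InW G (τ i) θ).eq_empty_or_nonempty with he | ⟨θ0, hθ0⟩
      · rw [he, card_empty, Nat.cast_zero]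
        have := phi_nonneg G (x :: l.map Prod.fst) (τ i)
        positivity
      · have hval : ∀ θ ∈ F.filter fun θ => InW G (τ i) θ, θ.1 (cb x) = [b] := by
          intro θ hθ
          obtain ⟨hθ1, hθ2⟩ := mem_filter.1 hθ
          have h4 := (hF θ hθ1).2 (x, tr) List.mem_cons_self
          rw [hb θ hθ2] at h4
          have h5 := b2.mem0 hθ2 (cb x)
          rw [hG.eb, mem_insert, mem_singleton] at h5
          simp only at h4
          rcases h5 with h5 | h5 <;> rw [h5] at h4 ⊢ <;> simp at h4 <;> rw [h4]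
        have hbE : [b] ∈ (τ i).E (cb x) := by
          rw [← hval θ0 hθ0]
          exact (mem_filter.1 hθ0).2.1 (cb x)
        have h6 := ih hnd2.2 (fun z hz => hbd z (List.mem_cons_of_mem _ hz)) (kk i)
          (guess (τ i) x b) (valid_guess b2 hbE) (by
            show kk i + cr G L (τ i) + _ ≤ D
            omega) (F.filter fun θ => InW G (τ i) θ) (fun θ hθ =>
              ⟨(inW_guess hbE).2 ⟨(mem_filter.1 hθ).2, hval θ hθ⟩,
                fun z hz => (hF θ (mem_filter.1 hθ).1).2 z (List.mem_cons_of_mem _ hz)⟩)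
        refine h6.trans (le_of_eq ?_)
        rw [phi_guess b2 hnd2.1, pow_add]
        show _ * (_ * ((1 + δ) ^ cr G L (τ i) * _)) = _
        ring
    have hcard : (F.card : ℝ) ≤ ∑ i, ((F.filter fun θ => InW G (τ i) θ).card : ℝ) := by
      exact_mod_cast (card_le_card hcov).trans card_biUnion_le
    calc (F.card : ℝ) ≤ ∑ i, ((F.filter fun θ => InW G (τ i) θ).card : ℝ) := hcard
      _ ≤ ∑ i, 2 ^ Fintype.card P * (phi G (x :: l.map Prod.fst) (τ i) *
          (1 + δ) ^ cr G L (τ i) * (1 + δ) ^ (l.length * t)) := sum_le_sum fun i _ => hpart i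
      _ = 2 ^ Fintype.card P * (1 + δ) ^ (l.length * t) *
          ∑ i, phi G (x :: l.map Prod.fst) (τ i) * (1 + δ) ^ cr G L (τ i) := by
          rw [mul_sum]
          exact sum_congr rfl fun i _ => by ring
      _ ≤ 2 ^ Fintype.card P * (1 + δ) ^ (l.length * t) *
          ((1 + δ) ^ t * (phi G (x :: l.map Prod.fst) σ * (1 + δ) ^ cr G L σ)) :=
          mul_le_mul_of_nonneg_left h3 (by positivity)
      _ = _ := by
          rw [List.map_cons, pow_add, pow_add]
          ring

end game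

end OAlg
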