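import Pool.Agent.Work.MP_609cce_lc_alg.Defs
import Pool.Agent.Work.MP_609cce_lc_eth.ELoc
import Pool.Agent.Work.MP_609cce_lc_key.KFun

/-!
# The oracle with hidden strings, names with pads and extensions: equations and locality
-/

namespace OAlg

open ORDist hiding stepA stepR stepA_congr stepR_congr
open OEth

/-- the multilinear polynomial which is `1` at the point `b` of the cube and `0` at the others -/
def del {F : Type} [Field F] {n : ℕ} (b : Fin n → Bool) (z : Fin n → F) : F :=
  ∏ k, if b k then z k else 1 - z k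

/-- the multilinear extension of the oracle -/
def mle (Φ : Fields) (A : Str → Bool) : ExtF Φ := fun _ n z =>
  ∑ b : Fin n → Bool, if A (List.ofFn b) then del b z else 0

/-- quadratic functions which vanish on the cube -/
def Van {F : Type} [Field F] {n : ℕ} (f : (Fin n → F) → F) : Prop :=
  (∃ c, f = qval c) ∧ ∀ b : Fin n → Bool, f (pt b) = 0

/-- the parameters of an oracle with extensions -/
structure Par (Φ : Fields) where
  /-- the hidden strings, the names, the pads, the witnesses -/
  par : OEth.Par
  /-- the vanishing parts of the extensions -/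
  V : ExtF Φ

variable {Φ : Fields}

/-- well-formed parameters -/
structure Par.WF (p : Par Φ) : Prop where
  wf : p.par.WF
  van : ∀ s n, Van (p.V s n)

/-- the extensions of the oracle `A` with the vanishing parts of `p` -/
def fx (p : Par Φ) (A : Str → Bool) : ExtF Φ := fun s n z => mle Φ A s n z + p.V s n z

/-- the oracle `A` together with its extensions -/
noncomputable def alO (p : Par Φ) (A : Str → Bool) : Str → Bool := extO Φ A (fx p A)

theorem length_le_seqBits : ∀ ws : List Str, ws.length ≤ (seqBits ws).length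
  | [] => le_rfl
  | w :: ws => by
    have := length_le_seqBits ws
    rw [seqBits, pairStr_length', List.length_cons]
    omega

theorem algQ_length (s : Str) (j : ℕ) (ws : List Str) :
    (algQ s j ws).length = 2 * s.length + j + (seqBits ws).length + 2 := by
  rw [algQ, pairStr_length', un_length]
  omega

theorem algQ_inj {s s' : Str} {j j' : ℕ} {ws ws' : List Str} (h : algQ s j ws = algQ s' j' ws') :
    s = s' ∧ j = j' ∧ ws = ws' := by
  obtain ⟨h1, h2⟩ := pairStr_inj' h
  obtain ⟨h3, h4⟩ := un_inj h2
  exact ⟨h1, h3, seqBits_inj h4⟩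

/-! ### the values of the extended oracle -/

theorem extO_false (A : Str → Bool) (f : ExtF Φ) (q : Str) :
    extO Φ A f (false :: q) = A q := by
  rw [Bool.eq_iff_iff, extO, cdec]
  constructor
  · rintro (⟨q', h1, h2⟩ | ⟨s, j, ws, h1, _⟩)
    · simp only [List.cons.injEq, true_and] at h1
      rw [h1]; exact h2
    · simp at h1
  · intro h
    exact Or.inl ⟨q, rfl, h⟩

theorem extO_alg (A : Str → Bool) (f : ExtF Φ) (s : Str) (j : ℕ) (ws : List Str) :
    extO Φ A f (true :: algQ s j ws) =
      (Φ.cd s (f s ws.length fun k => Φ.dc s (ws.get k))).getD j false := by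
  rw [Bool.eq_iff_iff, extO, cdec]
  constructor
  · rintro (⟨q', h1, h2⟩ | ⟨s', j', ws', h1, h2⟩)
    · simp at h1
    · simp only [List.cons.injEq, true_and] at h1
      obtain ⟨h3, h4, h5⟩ := algQ_inj h1
      subst h3 h4 h5
      exact h2
  · intro h
    exact Or.inr ⟨s, j, ws, rfl, h⟩

theorem extO_other (A : Str → Bool) (f : ExtF Φ) {q : Str} (h1 : ∀ q', q ≠ false :: q')
    (h2 : ∀ s j ws, q ≠ true :: algQ s j ws) : extO Φ A f q = false := by
  rw [Bool.eq_false_iff, Ne, extO, cdec]
  rintro (⟨q', h, _⟩ | ⟨s, j, ws, h, _⟩)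
  · exact h1 _ h
  · exact h2 _ _ _ h

theorem extO_congr {A A' : Str → Bool} {f f' : ExtF Φ} {q : Str}
    (hA : ∀ q' : Str, q'.length < q.length → A q' = A' q')
    (hf : ∀ (s : Str) (n : ℕ), n < q.length → f s n = f' s n) :
    extO Φ A f q = extO Φ A' f' q := by
  unfold extO
  refine decide_eq_decide.2 (or_congr ?_ ?_)
  · refine exists_congr fun q' => and_congr_right fun h => ?_
    rw [hA q' (by rw [h, List.length_cons]; omega)]
  · refine exists_congr fun s => exists_congr fun j => exists_congr fun ws =>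
      and_congr_right fun h => ?_
    have h1 := length_le_seqBits ws
    have h2 := algQ_length s j ws
    rw [hf s ws.length (by rw [h, List.length_cons]; omega)]

theorem mle_congr {A A' : Str → Bool} {n : ℕ} (h : ∀ q : Str, q.length = n → A q = A' q)
    (s : Str) : mle Φ A s n = mle Φ A' s n := by
  funext z
  unfold mle
  refine Finset.sum_congr rfl fun b _ => ?_
  rw [h _ List.length_ofFn]

theorem alO_congr {p p' : Par Φ} {A A' : Str → Bool} {q : Str}
    (hV : ∀ (s : Str) (n : ℕ), n < q.length → p.V s n = p'.V s n)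
    (hA : ∀ q' : Str, q'.length < q.length → A q' = A' q') : alO p A q = alO p' A' q := by
  refine extO_congr hA fun s n hn => ?_
  funext z
  unfold fx
  rw [hV s n hn, mle_congr fun q' hq' => hA q' (by omega)]

/-! ### the oracle and the complete language -/

/-- the complete language, one step: the yes-names, and the questions whose answers are the values
of the functional `ORK.FK`, which is complete for PSPACE and NP -/
noncomputable def stepP (Mach : ℕ → OProc) (p : OEth.Par) (A : Str → Bool) (x : Str) : Bool :=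
  @decide ((∃ y, x = true :: y ∧ yesN p y) ∨
    (∃ M y, x = false :: un M y ∧ ORK.FK Mach A M y = true)) (Classical.propDecidable _)

theorem stepP_aux {Mach : ℕ → OProc} {A A' : Str → Bool} {x : Str}
    (hA : ∀ q' : Str, q'.length < x.length → A q' = A' q') :
    (∃ M y, x = false :: un M y ∧ ORK.FK Mach A M y = true) ↔
      ∃ M y, x = false :: un M y ∧ ORK.FK Mach A' M y = true := by
  refine exists_congr fun M => exists_congr fun y => and_congr_right fun hw => ?_
  have h2 : x.length = M + y.length + 2 := by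
    rw [hw, List.length_cons, un_length]
  rw [ORK.loc_FK Mach A A' M y fun q' hq' => hA q' (by omega)]

theorem stepP_congr {Mach : ℕ → OProc} {p p' : OEth.Par} {A A' : Str → Bool} {q : Str} {n : ℕ}
    (h : OEth.Agr p p' n) (hq : q.length ≤ n)
    (hA : ∀ q' : Str, q'.length < q.length → A q' = A' q') :
    stepP Mach p A q = stepP Mach p' A' q := by
  unfold stepP
  refine decide_eq_decide.2 (or_congr ?_ (stepP_aux hA))
  refine exists_congr fun y => and_congr_right fun hw => ?_
  have h2 : q.length = y.length + 1 := by rw [hw, List.length_cons]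
  exact yesN_congr h (by omega)

/-- the oracle (`(false, q)`) and the complete language (`(true, x)`) -/
noncomputable def Zf (Mach : ℕ → OProc) (p : Par Φ) (z : Bool × Str) : Bool :=
  bif z.1 then
    stepP Mach p.par
      (alO p fun q => if _h : q.length < z.2.length then Zf Mach p (false, q) else false) z.2
  else
    stepA Mach p.par
      (alO p fun q => if _h : q.length < z.2.length then Zf Mach p (false, q) else false)
      (fun x => if _h : x.length < z.2.length then Zf Mach p (true, x) else false) z.2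
termination_by z.2.length

/-- the oracle of the parameters `p` -/
noncomputable def orc (Mach : ℕ → OProc) (p : Par Φ) (q : Str) : Bool := Zf Mach p (false, q)

/-- the complete language of the parameters `p` -/
noncomputable def lang (Mach : ℕ → OProc) (p : Par Φ) (x : Str) : Bool := Zf Mach p (true, x)

/-- the oracle with its extensions -/
noncomputable def aorc (Mach : ℕ → OProc) (p : Par Φ) : Str → Bool := alO p (orc Mach p)

/-- the parameters agree below `n` -/
structure Agr (p p' : Par Φ) (n : ℕ) : Prop where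
  par : OEth.Agr p.par p'.par n
  V : ∀ (s : Str) (k : ℕ), k < n → p.V s k = p'.V s k

theorem Agr.refl (p : Par Φ) (n : ℕ) : Agr p p n := ⟨OEth.Agr.refl _ _, fun _ _ _ => rfl⟩

theorem Agr.mono {p p' : Par Φ} {m n : ℕ} (h : Agr p p' n) (hmn : m ≤ n) : Agr p p' m :=
  ⟨h.par.mono hmn, fun s k hk => h.V s k (by omega)⟩

theorem Agr.trans {p p' p'' : Par Φ} {n : ℕ} (h : Agr p p' n) (h' : Agr p' p'' n) :
    Agr p p'' n := ⟨h.par.trans h'.par, fun s k hk => (h.V s k hk).trans (h'.V s k hk)⟩

theorem Agr.symm {p p' : Par Φ} {n : ℕ} (h : Agr p p' n) : Agr p' p n :=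
  ⟨h.par.symm, fun s k hk => (h.V s k hk).symm⟩

variable {Mach : ℕ → OProc}

theorem orc_eq {p : Par Φ} (hp : p.WF) (q : Str) :
    orc Mach p q = stepA Mach p.par (aorc Mach p) (lang Mach p) q := by
  unfold orc
  rw [Zf, cond_false]
  refine stepA_congr hp.wf (OEth.Agr.refl p.par q.length) le_rfl ?_ ?_
  · intro q' hq'
    refine alO_congr (fun _ _ _ => rfl) fun q'' hq'' => ?_
    show (if _h : q''.length < q.length then _ else _) = _
    rw [dif_pos (lt_trans hq'' hq')]
    rfl
  · intro q' hq'
    show (if _h : q'.length < q.length then _ else _) = _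
    rw [dif_pos hq']
    rfl

theorem lang_eq {p : Par Φ} (x : Str) :
    lang Mach p x = stepP Mach p.par (aorc Mach p) x := by
  unfold lang
  rw [Zf, cond_true]
  refine stepP_congr (OEth.Agr.refl p.par x.length) le_rfl ?_
  intro q' hq'
  refine alO_congr (fun _ _ _ => rfl) fun q'' hq'' => ?_
  show (if _h : q''.length < x.length then _ else _) = _
  rw [dif_pos (lt_trans hq'' hq')]
  rfl

/-- locality -/
theorem local_aux {p p' : Par Φ} (hp : p.WF) (hp' : p'.WF) {n : ℕ} (h : Agr p p' n) :
    ∀ k ≤ n, ∀ q : Str, q.length = k →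
      orc Mach p q = orc Mach p' q ∧ lang Mach p q = lang Mach p' q := by
  intro k
  induction k using Nat.strong_induction_on with
  | _ k ih =>
    intro hk q hq
    have hA : ∀ q' : Str, q'.length < q.length → aorc Mach p q' = aorc Mach p' q' := by
      intro q' hq'
      refine alO_congr (fun s m hm => h.V s m (by omega)) fun q'' hq'' => ?_
      exact (ih _ (by omega) (by omega) q'' rfl).1
    have hR : ∀ q' : Str, q'.length < q.length → lang Mach p q' = lang Mach p' q' :=
      fun q' hq' => (ih _ (by omega) (by omega) q' rfl).2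
    rw [orc_eq hp, orc_eq hp', lang_eq, lang_eq]
    exact ⟨stepA_congr hp.wf h.par (by omega) hA hR, stepP_congr h.par (by omega) hA⟩

theorem orc_local {p p' : Par Φ} (hp : p.WF) (hp' : p'.WF) {n : ℕ} (h : Agr p p' n) {q : Str}
    (hq : q.length ≤ n) : orc Mach p q = orc Mach p' q :=
  (local_aux hp hp' h q.length hq q rfl).1

theorem lang_local {p p' : Par Φ} (hp : p.WF) (hp' : p'.WF) {n : ℕ} (h : Agr p p' n) {q : Str}
    (hq : q.length ≤ n) : lang Mach p q = lang Mach p' q :=
  (local_aux hp hp' h q.length hq q rfl).2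

theorem aorc_local {p p' : Par Φ} (hp : p.WF) (hp' : p'.WF) {n : ℕ} (h : Agr p p' n) {q : Str}
    (hq : q.length ≤ n) : aorc Mach p q = aorc Mach p' q :=
  alO_congr (fun s m hm => h.V s m (by omega)) fun q' hq' => orc_local hp hp' h (by omega)

/-! ### the values of the four types of queries -/

theorem orc_bQ {p : Par Φ} (hp : p.WF) (x w : Str) :
    orc Mach p (bQ x w) = true ↔ w = p.par.base x := by
  rw [orc_eq hp, stepA, cdec]
  constructor
  · rintro (⟨x', w', h1, h2⟩ | ⟨j, T, h1, h2⟩ | ⟨y, w', h1, h2⟩ | ⟨r, w', h1, h2⟩)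
    · simp only [bQ, List.cons.injEq, true_and] at h1
      obtain ⟨h3, h4⟩ := pairStr_inj' h1
      rw [h3, h4]; exact h2
    · simp [bQ, hashQ] at h1
    · simp [bQ, wQ] at h1
    · simp [bQ, kQ] at h1
  · intro h
    exact Or.inl ⟨x, w, rfl, h⟩

theorem orc_hash {p : Par Φ} (hp : p.WF) (j : ℕ) (T : List Str) :
    orc Mach p (hashQ j T) = (pairStr (nm p.par (lang Mach p) T, [])).getD j false := by
  rw [orc_eq hp, Bool.eq_iff_iff, stepA, cdec]
  constructor
  · rintro (⟨x', w', h1, h2⟩ | ⟨j', T', h1, h2⟩ | ⟨y, w', h1, h2⟩ | ⟨r, w', h1, h2⟩)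
    · simp [bQ, hashQ] at h1
    · simp only [hashQ, List.cons.injEq, true_and] at h1
      obtain ⟨h3, h4⟩ := un_inj h1
      have h5 := seqBits_inj h4
      subst h3 h5
      exact h2
    · simp [hashQ, wQ] at h1
    · simp [hashQ, kQ] at h1
  · intro h
    exact Or.inr (Or.inl ⟨j, T, rfl, h⟩)

theorem orc_wQ {p : Par Φ} (hp : p.WF) (y w : Str) :
    orc Mach p (wQ y w) = true ↔ yesN p.par y ∧ w = p.par.om y := by
  rw [orc_eq hp, stepA, cdec]
  constructor
  · rintro (⟨x', w', h1, h2⟩ | ⟨j', T', h1, h2⟩ | ⟨y', w', h1, h2⟩ | ⟨r, w', h1, h2⟩)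
    · simp [bQ, wQ] at h1
    · simp [hashQ, wQ] at h1
    · simp only [wQ, List.cons.injEq, true_and] at h1
      obtain ⟨h3, h4⟩ := pairStr_inj' h1
      subst h3 h4
      exact h2
    · simp [wQ, kQ] at h1
  · intro h
    exact Or.inr (Or.inr (Or.inl ⟨y, w, rfl, h⟩))

theorem orc_kQ {p : Par Φ} (hp : p.WF) (r w : Str) :
    orc Mach p (kQ r w) = true ↔ yesK Mach (aorc Mach p) r w := by
  rw [orc_eq hp, stepA, cdec]
  constructor
  · rintro (⟨x', w', h1, h2⟩ | ⟨j', T', h1, h2⟩ | ⟨y', w', h1, h2⟩ | ⟨r', w', h1, h2⟩)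
    · simp [bQ, kQ] at h1
    · simp [hashQ, kQ] at h1
    · simp [wQ, kQ] at h1
    · simp only [kQ, List.cons.injEq, true_and] at h1
      obtain ⟨h3, h4⟩ := pairStr_inj' h1
      subst h3 h4
      exact h2
  · intro h
    exact Or.inr (Or.inr (Or.inr ⟨r, w, rfl, h⟩))

/-- the other queries are answered by no -/
theorem orc_other {p : Par Φ} (hp : p.WF) {q : Str} (h1 : ∀ x w, q ≠ bQ x w)
    (h2 : ∀ j T, q ≠ hashQ j T) (h3 : ∀ y w, q ≠ wQ y w) (h4 : ∀ r w, q ≠ kQ r w) :
    orc Mach p q = false := by
  rw [Bool.eq_false_iff, Ne, orc_eq hp, stepA, cdec]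
  rintro (⟨x', w', h, _⟩ | ⟨j', T', h, _⟩ | ⟨y', w', h, _⟩ | ⟨r', w', h, _⟩)
  · exact h1 _ _ h
  · exact h2 _ _ h
  · exact h3 _ _ h
  · exact h4 _ _ h

theorem lang_true {p : Par Φ} (y : Str) :
    lang Mach p (true :: y) = true ↔ yesN p.par y := by
  rw [lang_eq, stepP, cdec]
  constructor
  · rintro (⟨y', h1, h2⟩ | ⟨M, y', h1, h2⟩)
    · simp only [List.cons.injEq, true_and] at h1
      subst h1
      exact h2
    · simp at h1
  · intro h
    exact Or.inl ⟨y, rfl, h⟩

theorem lang_false {p : Par Φ} (M : ℕ) (y : Str) :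
    lang Mach p (false :: un M y) = true ↔ ORK.FK Mach (aorc Mach p) M y = true := by
  rw [lang_eq, stepP, cdec]
  constructor
  · rintro (⟨y', h1, h2⟩ | ⟨M', y', h1, h2⟩)
    · simp at h1
    · simp only [List.cons.injEq, true_and] at h1
      obtain ⟨h3, h4⟩ := un_inj h1
      subst h3 h4
      exact h2
  · intro h
    exact Or.inr ⟨M, y, rfl, h⟩

/-! ### the distillation -/

/-- the distillation -/
noncomputable def dist (Mach : ℕ → OProc) (p : Par Φ) (T : List Str) : Str :=
  true :: nm p.par (lang Mach p) T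

theorem dist_length {p : Par Φ} (hp : p.WF) (T : List Str) :
    (dist Mach p T).length = maxlen T + 3 := by
  unfold dist nm
  rw [List.length_cons, List.length_cons, hp.wf.g_len]

theorem dist_correct {p : Par Φ} (T : List Str) :
    lang Mach p (dist Mach p T) = true ↔ ∃ x ∈ T, lang Mach p x = true := by
  unfold dist nm
  rw [lang_true, yesN_cons]
  have h : xor (xor (st (lang Mach p) T) (p.par.pad (p.par.g T))) (p.par.pad (p.par.g T)) =
      st (lang Mach p) T := by
    cases st (lang Mach p) T <;> cases p.par.pad (p.par.g T) <;> rfl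
  rw [h, st, cdec]

end OAlg
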