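import Pool.Agent.Work.MP_609cce_lc_alg.Tree
import Pool.Agent.Work.MP_609cce_lc_alg.Loc
import Pool.Agent.Work.MP_609cce_lc_eth.EClass

/-!
# The worlds of a stage and their game: definitions
-/

namespace OAlg

open ORDist hiding stepA stepR stepA_congr stepR_congr orc lang
open OEth hiding orc lang par
open Orc Finset
open Classical

noncomputable instance (Φ : Fields) (s : Str) : Fintype (Φ.K s) := Fintype.ofFinite _

/-- the cubes over all the fields -/
structure Cubes (Φ : Fields) where
  /-- the cube of dimension `n` over the field with the code `s` -/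
  Q : ∀ (s : Str) (n : ℕ), Cube (Fin n → Bool) (Fin n → Φ.K s) (Φ.K s)
  del_eq : ∀ s n, (Q s n).del = del
  mem_van : ∀ (s : Str) (n : ℕ) (f : (Fin n → Φ.K s) → Φ.K s), f ∈ (Q s n).Van ↔ Van f

section

variable (n N : ℕ)

/-- the cubes of the window -/
abbrev IC := {z : Str × ℕ // z.1.length < N ∧ n ≤ z.2 ∧ z.2 < N}

instance : Finite (IC n N) := by
  have := finite_lt N
  refine Finite.of_injective
    (fun x : IC n N => ((⟨x.1.1, x.2.1⟩, ⟨x.1.2, x.2.2.2⟩) : {w : Str // w.length < N} × Fin N)) ?_
  intro x y h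
  simp only [Prod.mk.injEq, Subtype.mk.injEq, Fin.mk.injEq] at h
  exact Subtype.ext (Prod.ext h.1 h.2)

noncomputable instance : Fintype (IC n N) := Fintype.ofFinite _

variable {n N} (Φ : Fields)

/-- the points of the cube -/
abbrev CW (c : IC n N) := Fin c.1.2 → Bool
/-- all points -/
abbrev CU (c : IC n N) := Fin c.1.2 → Φ.K c.1.1
/-- the values -/
abbrev CM (c : IC n N) := Φ.K c.1.1

/-- the worlds of the window -/
abbrev WW (Φ : Fields) (n N : ℕ) := Wo (IX n) (IY n N) (IT n N) (IP n N) (C := IC n N) (CU Φ) (CM Φ)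

variable {Φ}

/-- the parameters of a world -/
noncomputable def par (p : Par Φ) (θ : WW Φ n N) : Par Φ where
  par := OEth.par p.par θ.1 θ.2.1
  V := fun s m => if h : s.length < N ∧ n ≤ m ∧ m < N then θ.2.2 ⟨(s, m), h⟩ else p.V s m

/-- the visible bits -/
noncomputable def visA (Mach : ℕ → OProc) (p : Par Φ) (θ : WW Φ n N) (t : IT n N) : Bool :=
  xor (st (lang Mach (par p θ)) t.1) ((par p θ).par.pad (θ.1 (cg t)))

/-- the oracle on the queries which matter -/
noncomputable def BA (Mach : ℕ → OProc) (p : Par Φ) (θ : WW Φ n N) (q : Str) : Bool :=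
  if Sh N q then orc Mach (par p θ) q else false

/-- the game of a stage -/
noncomputable def agW (K : Cubes Φ) (Mach : ℕ → OProc) (p : Par Φ) (n N : ℕ) :
    AG (IX n) (IY n N) (IT n N) (IP n N) Str (IC n N) CW (CU Φ) (CM Φ) where
  vis := visA Mach p
  B := BA Mach p
  cls := clsW n N
  cube := fun c => K.Q c.1.1 c.1.2
  bit := fun θ _ w => orc Mach (par p θ) (List.ofFn w)
  lev := fun c => c.1.2
  wt := fun c => c.1.2 + 1

end

end OAlg
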