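import Pool.Agent.Work.MP_609cce_lc_alg.Ext
import Pool.Agent.Work.MP_609cce_lc_alg.WDefs

/-!
# The cubes over all the fields
-/

namespace OAlg

open ORDist

section

variable {K : Type} [Field K] {n : ℕ}

open Classical in
/-- the points of the cube which are decided by the points of `S` -/
noncomputable def badF (S : Finset (Fin n → K)) : Finset (Fin n → Bool) :=
  Finset.univ.filter fun b => ∀ m, KB.evL S m = 0 → m b = 0

theorem mem_badF {S : Finset (Fin n → K)} {b : Fin n → Bool} :
    b ∈ badF S ↔ ∀ m, KB.evL S m = 0 → m b = 0 := by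
  classical
  unfold badF
  rw [Finset.mem_filter]
  exact ⟨fun h => h.2, fun h => ⟨Finset.mem_univ _, h⟩⟩

theorem badF_mono {S T : Finset (Fin n → K)} (h : S ⊆ T) : badF S ⊆ badF T := by
  intro b hb
  rw [mem_badF] at hb ⊢
  refine fun m hm => hb m ?_
  funext y
  exact congrFun hm ⟨y.1, h y.2⟩

theorem card_badF (S : Finset (Fin n → K)) : (badF S).card ≤ S.card := by
  classical
  let ι : (badF S → K) →ₗ[K] ((Fin n → Bool) → K) :=
    { toFun := fun m b => if h : b ∈ badF S then m ⟨b, h⟩ else 0
      map_add' := fun m m' => by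
        funext b
        by_cases h : b ∈ badF S <;> simp [h]
      map_smul' := fun a m => by
        funext b
        by_cases h : b ∈ badF S <;> simp [h] }
  have hinj : Function.Injective ((KB.evL S).comp ι) := by
    rw [← LinearMap.ker_eq_bot, LinearMap.ker_eq_bot']
    intro m hm
    funext b
    have h1 := mem_badF.1 b.2 (ι m) hm
    have h2 : ι m b.1 = m b := by
      show (if h : b.1 ∈ badF S then m ⟨b.1, h⟩ else 0) = m b
      rw [dif_pos b.2]
    rw [← h2, h1]
    rfl
  have h := LinearMap.finrank_le_finrank_of_injective hinj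
  rwa [Module.finrank_fintype_fun_eq_card, Module.finrank_fintype_fun_eq_card,
    Fintype.card_coe, Fintype.card_coe] at h

theorem exists_pp {S : Finset (Fin n → K)} {b : Fin n → Bool} (hb : b ∉ badF S) :
    ∃ p : (Fin n → K) → K, (∀ y ∈ S, p y = 0) ∧ Van fun z => del b z - p z := by
  rw [mem_badF] at hb
  push Not at hb
  obtain ⟨m, hm, hmb⟩ := hb
  refine ⟨fun z => (m b)⁻¹ * ∑ b', m b' * (del b z * del b' z), fun y hy => ?_, ?_, fun b' => ?_⟩
  · have h1 : ∑ b', m b' * del b' y = 0 := congrFun hm ⟨y, hy⟩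
    have h2 : ∑ b', m b' * (del b y * del b' y) = del b y * ∑ b', m b' * del b' y := by
      rw [Finset.mul_sum]
      exact Finset.sum_congr rfl fun b' _ => by ring
    show (m b)⁻¹ * ∑ b', m b' * (del b y * del b' y) = 0
    rw [h2, h1, mul_zero, mul_zero]
  · choose c hc using fun b' : Fin n → Bool => KB.del_mul_qval (K := K) b b'
    obtain ⟨c0, hc0⟩ := KB.del_qval (K := K) b
    refine ⟨fun e => c0 e + (-(m b)⁻¹) * (∑ b', m b' * c b' e), ?_⟩
    funext z
    rw [← KB.qval_add, ← KB.qval_smul,
      ← KB.qval_sum Finset.univ fun b' e => m b' * c b' e, ← hc0]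
    have h1 : ∀ b', qval (fun e => m b' * c b' e) z = m b' * (del b z * del b' z) := by
      intro b'
      rw [← KB.qval_smul, ← hc b']
    simp only [h1]
    ring
  · show del b (pt b') - (m b)⁻¹ * ∑ b'', m b'' * (del b (pt b') * del b'' (pt b')) = 0
    rw [Finset.sum_eq_single b']
    · rw [KB.del_pt, KB.del_pt, if_pos rfl]
      by_cases h : b = b'
      · subst h
        rw [if_pos rfl, mul_one, mul_one, inv_mul_cancel₀ hmb, sub_self]
      · rw [if_neg h]
        ring
    · intro b'' _ h
      rw [KB.del_pt b'' b', if_neg h]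
      ring
    · intro h
      exact absurd (Finset.mem_univ b') h

theorem Van.add' {f g : (Fin n → K) → K} (hf : Van f) (hg : Van g) : Van (f + g) := by
  obtain ⟨⟨c, rfl⟩, h1⟩ := hf
  obtain ⟨⟨d, rfl⟩, h2⟩ := hg
  refine ⟨⟨fun e => c e + d e, funext fun z => KB.qval_add c d z⟩, fun b => ?_⟩
  rw [Pi.add_apply, h1, h2, add_zero]

theorem Van.neg' {f : (Fin n → K) → K} (hf : Van f) : Van (-f) := by
  obtain ⟨⟨c, rfl⟩, h1⟩ := hf
  refine ⟨⟨fun e => (-1) * c e, funext fun z => ?_⟩, fun b => ?_⟩
  · rw [← KB.qval_smul, Pi.neg_apply, neg_one_mul]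
  · rw [Pi.neg_apply, h1, neg_zero]

open Classical in
/-- the cube of dimension `n` over the field `K` -/
noncomputable def fcube (K : Type) [Field K] (n : ℕ) : Cube (Fin n → Bool) (Fin n → K) K where
  Van :=
    { carrier := {f | Van f}
      add_mem' := fun hf hg => hf.add' hg
      zero_mem' := KB.van_zero n
      neg_mem' := fun hf => hf.neg' }
  del := del
  B := badF
  pp S b := if h : b ∈ badF S then 0 else (exists_pp h).choose
  B_card := card_badF
  B_mono _ _ h := badF_mono h
  pp_zero S b hb y hy := by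
    rw [dif_neg hb]
    exact (exists_pp hb).choose_spec.1 y hy
  pp_van S b hb := by
    rw [dif_neg hb]
    exact (exists_pp hb).choose_spec.2

end

theorem exists_cubes (Φ : Fields) : Nonempty (Cubes Φ) :=
  ⟨{ Q := fun s n => fcube (Φ.K s) n
     del_eq := fun _ _ => rfl
     mem_van := fun _ _ _ => Iff.rfl }⟩

theorem isExt_fx {Φ : Fields} {p : OAlg.Par Φ} (hp : p.WF) (A : Str → Bool) :
    IsExt Φ A (fx p A) := KB.isExt_of_van A hp.van

end OAlg
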