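import Pool.Agent.Work.MP_609cce_lc.OrcData

/-!
# Oracles and their extensions of low degree: definitions
-/

namespace OAlg

open ORDist

/-- finite fields indexed by strings, with arbitrary codings of their elements: `dc s w` is the
element with the code `w`, and `cd s a` is the form in which `a` is given as an answer -/
structure Fields where
  /-- the field with the code `s` -/
  K : Str → Type
  /-- it is a field -/
  fld : ∀ s, Field (K s)
  /-- it is finite -/
  fin : ∀ s, Finite (K s)
  /-- decoding of elements -/
  dc : ∀ s, Str → K s
  /-- coding of elements -/
  cd : ∀ s, K s → Str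

attribute [instance] Fields.fld Fields.fin

/-- the value at `z` of the polynomial with the coefficients `c`, whose degree in each of the `n`
variables is at most `2` -/
def qval {F : Type} [Field F] {n : ℕ} (c : (Fin n → Fin 3) → F) (z : Fin n → F) : F :=
  ∑ e, c e * ∏ k, z k ^ (e k : ℕ)

/-- the point of the cube -/
def pt {F : Type} [Field F] {n : ℕ} (b : Fin n → Bool) (k : Fin n) : F := if b k then 1 else 0

/-- functions of any number of variables over all the fields -/
abbrev ExtF (Φ : Fields) := ∀ (s : Str) (n : ℕ), (Fin n → Φ.K s) → Φ.K s

/-- `f` is an extension of the oracle `A`, of degree at most `2` in each variable, over all the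
fields -/
def IsExt (Φ : Fields) (A : Str → Bool) (f : ExtF Φ) : Prop :=
  ∀ (s : Str) (n : ℕ), (∃ c, f s n = qval c) ∧
    ∀ b : Fin n → Bool, f s n (pt b) = if A (List.ofFn b) then 1 else 0

/-- the query about the bit `j` of the value of the extension over the field with the code `s` at
the point whose coordinates have the codes `ws` -/
def algQ (s : Str) (j : ℕ) (ws : List Str) : Str := pairStr (s, un j (seqBits ws))

/-- the oracle `A` together with its extensions -/
noncomputable def extO (Φ : Fields) (A : Str → Bool) (f : ExtF Φ) (q : Str) : Bool :=
  @decide ((∃ q', q = false :: q' ∧ A q' = true) ∨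
    ∃ s j ws, q = true :: algQ s j ws ∧
      (Φ.cd s (f s ws.length fun k => Φ.dc s (ws.get k))).getD j false = true)
    (Classical.propDecidable _)

end OAlg
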