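import Pool.Agent.Work.MP_609cce_lc_alg2.LangUP
import Pool.Agent.Work.MP_609cce_lc.OrcPT
import Pool.Agent.Work.MP_609cce_lc.OrcHard
import Pool.Agent.Work.MP_609cce_lc.OrcDist
import Pool.Agent.Work.MP_a17a63_lc.SHelper

/-!
# The polynomial time facts: the distillation, the complete language, the test language

The distillation, the verifier of the complete language and the verifiers of the test language use
the oracle itself; the complete language is hard for NP relative to the oracle with its extensions.
-/

namespace OAlg

open ORDist hiding stepA stepR stepA_congr stepR_congr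
open OEth PTime

variable {Φ : Fields} {Mach : ℕ → OProc}

/-! ### the distillation -/

theorem answers_distM {p : Par Φ} (hp : p.WF) (T : List Str) : ∀ j : ℕ,
    j ≤ (pairStr (nm p.par (lang Mach p) T, [])).length →
    answers (orc Mach p) distM (seqBits T) j =
      (pairStr (nm p.par (lang Mach p) T, [])).take j := by
  intro j
  induction j with
  | zero => intro _; simp [answers]
  | succ j ih =>
    intro hj
    have h1 := distM_ask (seqBits T) (nm p.par (lang Mach p) T) (j := j) (by omega)
    have h2 := orc_hash (Mach := Mach) hp j T
    rw [answers, ih (by omega), h1]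
    have h3 : orc Mach p (false :: true :: un j (seqBits T)) =
        (pairStr (nm p.par (lang Mach p) T, [])).getD j false := h2
    rw [h3, List.getD_eq_getElem _ _ (by omega), List.take_append_getElem]

/-- the distillation is computed in polynomial time with the oracle -/
theorem dist_polyTime {p : Par Φ} (hp : p.WF) :
    PolyTimeO (orc Mach p) seqBits (dist Mach p) := by
  refine ⟨distM, polyTime_of_pt pt_distM, 2 * Polynomial.X + 5, fun T => ?_⟩
  have hl : (pairStr (nm p.par (lang Mach p) T, [])).length = 2 * (maxlen T + 2) + 1 := by
    have h1 := dist_length (Mach := Mach) hp T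
    unfold dist at h1
    rw [List.length_cons] at h1
    rw [pairStr_length']
    simp only [List.length_nil]
    omega
  have hm := maxlen_le_seqBits T
  refine ⟨(pairStr (nm p.par (lang Mach p) T, [])).length, ?_, ?_, ?_⟩
  · simp only [Polynomial.eval_add, Polynomial.eval_mul, Polynomial.eval_X,
      Polynomial.eval_ofNat]
    omega
  · intro j hj
    rw [answers_distM hp T j hj.le, distM_ask _ _ hj]
  · rw [answers_distM hp T _ le_rfl, List.take_length, distM_end]
    rfl

/-! ### the complete language -/

/-- the complete language is hard for PSPACE and NP relative to the oracle with its extensions,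
under reductions computable in polynomial time without oracle -/
theorem hardP (hMach : ∀ M : OProc, PolyTime pairStr actStr M → ∃ e, Mach e = M)
    {p : Par Φ} {L : Set Str} (hL : InPSPACEO (aorc Mach p) L ∨ InNPO (aorc Mach p) L) :
    ∃ f : Str → Str, PolyTime (fun x => x) (fun x => x) f ∧
      ∀ x, x ∈ L ↔ lang Mach p (f x) = true := by
  have h : ∃ (t : Polynomial ℕ) (y : Str → Str), PT y ∧
      ∀ x, x ∈ L ↔ ORK.FK Mach (aorc Mach p) (t.eval x.length) (y x) = true := by
    rcases hL with hL | hL
    · exact ORK.ps_red hMach hL
    · exact ORK.np_red hMach hL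
  obtain ⟨t, y, hy, h⟩ := h
  have hf : PT (fun x : Str => false :: un (t.eval x.length) (y x)) :=
    (PT.const false).cons (Orc_pt_un (PT.polyEval t PT.id.length) hy)
  refine ⟨_, PT.polyTime_raw (ea := fun x => x) hf fun _ => rfl, fun x => ?_⟩
  rw [h x, lang_false]

/-- the complete language is hard for NP relative to the oracle with its extensions -/
theorem hard (hMach : ∀ M : OProc, PolyTime pairStr actStr M → ∃ e, Mach e = M)
    {p : Par Φ} (_hp : p.WF) {L : Set Str} (hL : InNPO (aorc Mach p) L) :
    ∃ f : Str → Str, PolyTime (fun x => x) (fun x => x) f ∧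
      ∀ x, x ∈ L ↔ lang Mach p (f x) = true := hardP hMach (Or.inr hL)

/-- the complete language is in NP relative to the oracle without its extensions -/
theorem lang_inNPO {p : Par Φ} (hp : p.WF) :
    InNPO (orc Mach p) {x | lang Mach p x = true} := by
  obtain ⟨V, q, h1, h2, _⟩ := lang_inUPO (Mach := Mach) hp
  exact ⟨V, q, h1, h2⟩

/-! ### the test language -/

/-- the test language: the first bit of the hidden string -/
def test (p : Par Φ) : Set Str := {x | (p.par.base x).headD false = true}

theorem test_aux {p : Par Φ} (hp : p.WF) (σ : Bool) :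
    InUPO (orc Mach p) {x | (p.par.base x).headD false = σ} := by
  have hg : PT (fun z : Str × Str => bif σ then z.2.headD false else !z.2.headD false) :=
    PT.cond (PT.const σ) (PT.snd.headD (PT.const false)) (PT.snd.headD (PT.const false)).not
  have hf : PT (fun z : Str × Str => bQ z.1 z.2) :=
    (PT.const false).cons ((PT.const false).cons pt_pairStr)
  refine ⟨fun z => (bif σ then z.2.headD false else !z.2.headD false) && orc Mach p (bQ z.1 z.2),
    Polynomial.X + 1, polyTimeO_one hg hf, fun x => ?_, fun x y y' _ _ h h' => ?_⟩
  · rw [Set.mem_ofPred_eq]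
    constructor
    · intro h
      refine ⟨p.par.base x, ?_, ?_⟩
      · rw [hp.wf.base_len]
        simp
      · rw [Bool.and_eq_true]
        refine ⟨?_, (orc_bQ hp _ _).2 rfl⟩
        simp only [h]
        cases σ <;> rfl
    · rintro ⟨w, _, h⟩
      rw [Bool.and_eq_true] at h
      obtain ⟨h1, h2⟩ := h
      rw [orc_bQ hp] at h2
      simp only at h2
      rw [← h2]
      cases σ
      · simpa using h1
      · simpa using h1
  · rw [Bool.and_eq_true] at h h'
    have h1 := (orc_bQ hp _ _).1 h.2
    have h2 := (orc_bQ hp _ _).1 h'.2
    simp only at h1 h2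
    rw [h1, h2]

theorem test_inUPO {p : Par Φ} (hp : p.WF) : InUPO (orc Mach p) (test p) := test_aux hp true

theorem test_compl_inUPO {p : Par Φ} (hp : p.WF) : InUPO (orc Mach p) (test p)ᶜ := by
  have h : (test p)ᶜ = {x | (p.par.base x).headD false = false} := by
    ext x
    rw [test, Set.mem_compl_iff, Set.mem_ofPred_eq, Set.mem_ofPred_eq, Bool.not_eq_true]
  rw [h]
  exact test_aux hp false

end OAlg
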