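import Pool.Agent.Work.MP_609cce_lc_alg.Loc

/-!
# Polynomials of degree at most two in each variable and the cube lemma
-/

namespace OAlg.KB

open ORDist

variable {Φ : Fields}

/-! ### extensions -/

/-- a product of polynomials of degree at most `2` in the single variables -/
theorem prod_qval {K : Type} [Field K] {n : ℕ} (c : Fin n → Fin 3 → K) :
    (fun z : Fin n → K => ∏ k, ∑ e : Fin 3, c k e * z k ^ (e : ℕ)) =
      qval fun e => ∏ k, c k (e k) := by
  funext z
  unfold qval
  rw [Finset.prod_univ_sum, Fintype.piFinset_univ]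
  exact Finset.sum_congr rfl fun e _ => Finset.prod_mul_distrib

theorem del_qval {K : Type} [Field K] {n : ℕ} (b : Fin n → Bool) :
    ∃ c, (del b : (Fin n → K) → K) = qval c := by
  refine ⟨_, Eq.trans ?_ (prod_qval fun k e => if b k then (if e = 1 then 1 else 0) else
    (if e = 0 then 1 else if e = 1 then -1 else 0))⟩
  funext z
  unfold del
  refine Finset.prod_congr rfl fun k _ => ?_
  rw [Fin.sum_univ_three]
  cases b k
  · simp
    ring
  · simp

theorem del_mul_qval {K : Type} [Field K] {n : ℕ} (b b' : Fin n → Bool) :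
    ∃ c, (fun z : Fin n → K => del b z * del b' z) = qval c := by
  refine ⟨_, Eq.trans ?_ (prod_qval fun k e => if b k then
    (if b' k then (if e = 2 then 1 else 0) else (if e = 1 then 1 else if e = 2 then -1 else 0))
    else (if b' k then (if e = 1 then 1 else if e = 2 then -1 else 0) else
      (if e = 0 then 1 else if e = 1 then -2 else 1)))⟩
  funext z
  unfold del
  rw [← Finset.prod_mul_distrib]
  refine Finset.prod_congr rfl fun k _ => ?_
  rw [Fin.sum_univ_three]
  cases b k <;> cases b' k <;> simp <;> ring

theorem qval_add {K : Type} [Field K] {n : ℕ} (c c' : (Fin n → Fin 3) → K) (z : Fin n → K) :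
    qval c z + qval c' z = qval (fun e => c e + c' e) z := by
  unfold qval
  rw [← Finset.sum_add_distrib]
  exact Finset.sum_congr rfl fun e _ => by ring

theorem qval_smul {K : Type} [Field K] {n : ℕ} (a : K) (c : (Fin n → Fin 3) → K) (z : Fin n → K) :
    a * qval c z = qval (fun e => a * c e) z := by
  unfold qval
  rw [Finset.mul_sum]
  exact Finset.sum_congr rfl fun e _ => by ring

theorem qval_sum {K ι : Type} [Field K] {n : ℕ} (s : Finset ι) (c : ι → (Fin n → Fin 3) → K)
    (z : Fin n → K) : ∑ i ∈ s, qval (c i) z = qval (fun e => ∑ i ∈ s, c i e) z := by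
  unfold qval
  rw [Finset.sum_comm]
  exact Finset.sum_congr rfl fun e _ => by rw [Finset.sum_mul]

theorem mle_qval (A : Str → Bool) (s : Str) (n : ℕ) : ∃ c, mle Φ A s n = qval c := by
  choose c hc using fun b : Fin n → Bool => del_qval (K := Φ.K s) b
  refine ⟨fun e => ∑ b : Fin n → Bool, if A (List.ofFn b) then c b e else 0, ?_⟩
  funext z
  unfold mle
  rw [← qval_sum Finset.univ fun b e => if A (List.ofFn b) then c b e else 0]
  refine Finset.sum_congr rfl fun b _ => ?_
  cases A (List.ofFn b)
  · simp [qval]
  · simp [hc b]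

theorem del_pt {K : Type} [Field K] {n : ℕ} (b b' : Fin n → Bool) :
    del b (pt b' : Fin n → K) = if b = b' then 1 else 0 := by
  unfold del pt
  by_cases h : b = b'
  · subst h
    rw [if_pos rfl]
    refine Finset.prod_eq_one fun k _ => ?_
    cases b k <;> simp
  · rw [if_neg h]
    obtain ⟨k, hk⟩ := Function.ne_iff.1 h
    refine Finset.prod_eq_zero (Finset.mem_univ k) ?_
    cases h1 : b k <;> cases h2 : b' k <;> simp_all

theorem mle_pt (A : Str → Bool) (s : Str) {n : ℕ} (b : Fin n → Bool) :
    mle Φ A s n (pt b) = if A (List.ofFn b) then 1 else 0 := by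
  unfold mle
  rw [Finset.sum_eq_single b]
  · rw [del_pt, if_pos rfl]
  · intro b' _ hb
    rw [del_pt, if_neg hb, ite_self]
  · intro h
    exact absurd (Finset.mem_univ b) h

/-- the extensions are extensions -/
theorem isExt_of_van (A : Str → Bool) {V : ExtF Φ} (hV : ∀ s n, Van (V s n)) :
    IsExt Φ A fun s n z => mle Φ A s n z + V s n z := by
  intro s n
  obtain ⟨c, hc⟩ := mle_qval (Φ := Φ) A s n
  obtain ⟨⟨c', hc'⟩, h0⟩ := hV s n
  refine ⟨⟨fun e => c e + c' e, ?_⟩, fun b => ?_⟩
  · funext z
    simp only [hc, hc', qval_add]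
  · simp only [h0, mle_pt, add_zero]

theorem van_zero {K : Type} [Field K] (n : ℕ) : Van (fun _ : Fin n → K => 0) :=
  ⟨⟨fun _ => 0, by funext z; simp [qval]⟩, fun _ => rfl⟩

/-! ### the cube lemma -/

/-- the combination of the multilinear functions of the points of the cube -/
noncomputable def evL {K : Type} [Field K] {n : ℕ} (S : Finset (Fin n → K)) :
    ((Fin n → Bool) → K) →ₗ[K] (S → K) where
  toFun m y := ∑ b, m b * del b y.1
  map_add' m m' := by
    funext y
    simp only [Pi.add_apply, add_mul, Finset.sum_add_distrib]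
  map_smul' a m := by
    funext y
    simp only [Pi.smul_apply, smul_eq_mul, RingHom.id_apply, Finset.mul_sum, mul_assoc]

open Classical in
/-- **Cube lemma.** Given a set `S` of points, all but at most `|S|` points `b` of the cube have a
function of degree at most `2` in each variable which vanishes on `S`, is `1` at `b` and is `0` at
the other points of the cube. -/
theorem cube_lemma {K : Type} [Field K] {n : ℕ} (S : Finset (Fin n → K)) :
    ∃ Bd : Finset (Fin n → Bool), Bd.card ≤ S.card ∧ ∀ b ∉ Bd, ∃ p : (Fin n → K) → K,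
      (∀ y ∈ S, p y = 0) ∧ Van fun z => p z - del b z := by
  refine ⟨Finset.univ.filter fun b => ∀ m, evL S m = 0 → m b = 0, ?_, fun b hb => ?_⟩
  · set Bd : Finset (Fin n → Bool) := Finset.univ.filter fun b => ∀ m, evL S m = 0 → m b = 0
      with hBd
    let ι : (Bd → K) →ₗ[K] ((Fin n → Bool) → K) :=
      { toFun := fun m b => if h : b ∈ Bd then m ⟨b, h⟩ else 0
        map_add' := fun m m' => by
          funext b
          by_cases h : b ∈ Bd <;> simp [h]
        map_smul' := fun a m => by
          funext b
          by_cases h : b ∈ Bd <;> simp [h] }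
    have hinj : Function.Injective ((evL S).comp ι) := by
      rw [← LinearMap.ker_eq_bot, LinearMap.ker_eq_bot']
      intro m hm
      funext b
      have h1 := (Finset.mem_filter.1 b.2).2 (ι m) hm
      have h2 : ι m b.1 = m b := by
        show (if h : b.1 ∈ Bd then m ⟨b.1, h⟩ else 0) = m b
        rw [dif_pos b.2]
      rw [← h2, h1]
      rfl
    have h := LinearMap.finrank_le_finrank_of_injective hinj
    rwa [Module.finrank_fintype_fun_eq_card, Module.finrank_fintype_fun_eq_card,
      Fintype.card_coe, Fintype.card_coe] at h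
  · rw [Finset.mem_filter] at hb
    push Not at hb
    obtain ⟨m, hm, hmb⟩ := hb (Finset.mem_univ _)
    refine ⟨fun z => (m b)⁻¹ * ∑ b', m b' * (del b z * del b' z), fun y hy => ?_, ?_, fun b' => ?_⟩
    · have h1 : ∑ b', m b' * del b' y = 0 := congrFun hm ⟨y, hy⟩
      have h2 : ∑ b', m b' * (del b y * del b' y) = del b y * ∑ b', m b' * del b' y := by
        rw [Finset.mul_sum]
        exact Finset.sum_congr rfl fun b' _ => by ring
      show (m b)⁻¹ * ∑ b', m b' * (del b y * del b' y) = 0
      rw [h2, h1, mul_zero, mul_zero]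
    · choose c hc using fun b' : Fin n → Bool => del_mul_qval (K := K) b b'
      obtain ⟨c0, hc0⟩ := del_qval (K := K) b
      refine ⟨fun e => (m b)⁻¹ * (∑ b', m b' * c b' e) + (-1) * c0 e, ?_⟩
      funext z
      rw [← qval_add, ← qval_smul, ← qval_smul, ← qval_sum Finset.univ fun b' e => m b' * c b' e,
        ← hc0]
      have h1 : ∀ b', qval (fun e => m b' * c b' e) z = m b' * (del b z * del b' z) := by
        intro b'
        rw [← qval_smul, ← hc b']
      simp only [h1]
      ring
    · show (m b)⁻¹ * ∑ b'', m b'' * (del b (pt b') * del b'' (pt b')) - del b (pt b') = 0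
      rw [Finset.sum_eq_single b']
      · rw [del_pt, del_pt, if_pos rfl]
        by_cases h : b = b'
        · subst h
          rw [if_pos rfl, mul_one, mul_one, inv_mul_cancel₀ hmb, sub_self]
        · rw [if_neg h]
          ring
      · intro b'' _ h
        rw [del_pt b'' b', if_neg h]
        ring
      · intro h
        exact absurd (Finset.mem_univ b') h

end OAlg.KB
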