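import Pool.Agent.Work.MP_609cce_lc_alg.WDefs

/-!
# The worlds of a stage, with extensions: the properties of the game
-/

namespace OAlg

open ORDist hiding stepA stepR stepA_congr stepR_congr orc lang
open OEth hiding Par orc lang par Agr Zf orc_eq lang_eq orc_local lang_local local_aux orc_bQ
  orc_hash orc_wQ orc_kQ orc_other lang_true lang_false lang_nil dist dist_length dist_correct
  par_wf par_agr
open Orc Finset
open Classical

set_option linter.unusedSectionVars false

section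

variable {n N : ℕ} {Φ : Fields}

/-- the random parts of a world besides the hidden coordinates -/
abbrev Om (Φ : Fields) (n N : ℕ) := (IP n N → Bool) × (∀ c : IC n N, CU Φ c → CM Φ c)

variable {p : Par Φ} {η : WC n N → Str} {ω : Om Φ n N}

theorem par_V' (c : IC n N) : (par p (η, ω)).V c.1.1 c.1.2 = ω.2 c := by
  show (if h : c.1.1.length < N ∧ n ≤ c.1.2 ∧ c.1.2 < N then ω.2 ⟨(c.1.1, c.1.2), h⟩
    else p.V c.1.1 c.1.2) = _
  rw [dif_pos c.2]

theorem par_wf' (hp : p.WF) (hη : ∀ c, η c ∈ E0 c) (hV : ∀ c, Van (ω.2 c)) :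
    (par p (η, ω)).WF := by
  refine ⟨OEth.par_wf hp.wf hη, fun s k => ?_⟩
  show Van (if h : s.length < N ∧ n ≤ k ∧ k < N then ω.2 ⟨(s, k), h⟩ else p.V s k)
  split_ifs with h
  · exact hV ⟨(s, k), h⟩
  · exact hp.van s k

theorem par_agr {θ : WW Φ n N} : Agr p (par p θ) n := by
  refine ⟨OEth.par_agr, fun s k hk => ?_⟩
  show p.V s k = if h : s.length < N ∧ n ≤ k ∧ k < N then θ.2.2 ⟨(s, k), h⟩ else p.V s k
  rw [dif_neg (by omega)]

/-- the parameters of two worlds agree if the pads and the vanishing parts do -/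
theorem par_agr' {ω' : Om Φ n N} {m : ℕ} (h1 : ∀ γ : IP n N, γ.1.length < m → ω.1 γ = ω'.1 γ)
    (h2 : ∀ c : IC n N, c.1.2 < m → ω.2 c = ω'.2 c) :
    Agr (par p (η, ω)) (par p (η, ω')) m := by
  refine ⟨⟨fun x _ => rfl, fun T _ => rfl, fun γ hγ => ?_, fun y _ => rfl⟩, fun s k hk => ?_⟩
  · show (if h : n + 1 ≤ γ.length ∧ γ.length < N then ω.1 ⟨γ, h⟩ else p.par.pad γ) =
      if h : n + 1 ≤ γ.length ∧ γ.length < N then ω'.1 ⟨γ, h⟩ else p.par.pad γ
    split_ifs with h
    · exact h1 ⟨γ, h⟩ hγ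
    · rfl
  · show (if h : s.length < N ∧ n ≤ k ∧ k < N then ω.2 ⟨(s, k), h⟩ else p.V s k) =
      if h : s.length < N ∧ n ≤ k ∧ k < N then ω'.2 ⟨(s, k), h⟩ else p.V s k
    split_ifs with h
    · exact h2 ⟨(s, k), h⟩ hk
    · rfl

variable {K : Cubes Φ} {Mach : ℕ → OProc}

theorem VV_iff {V : ∀ c : IC n N, CU Φ c → CM Φ c} :
    (agW K Mach p n N).VV V ↔ ∀ c, Van (V c) :=
  forall_congr' fun c => K.mem_van c.1.1 c.1.2 (V c)

theorem par_wf {θ : WW Φ n N} (K : Cubes Φ) {Mach : ℕ → OProc} (hp : p.WF)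
    (hη : ∀ c, θ.1 c ∈ E0 c) (hV : (agW K Mach p n N).VV θ.2.2) : (par p θ).WF :=
  par_wf' hp hη (VV_iff.1 hV)

/-- the bits at the points of the cubes -/
noncomputable def bitA (Mach : ℕ → OProc) (p : Par Φ) (θ : WW Φ n N) (c : IC n N) (w : CW c) :
    Bool := orc Mach (par p θ) (List.ofFn w)

/-! ### the count -/

/-- the pad of the name of `t` -/
noncomputable def nu (hn : 1 ≤ n) (hη : ∀ c, η c ∈ E0 c) (t : IT n N) : IP n N :=
  ⟨η (cg t), name_mem hn hη t⟩

theorem nu_length (hn : 1 ≤ n) (hη : ∀ c, η c ∈ E0 c) (t : IT n N) :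
    (nu hn hη t).1.length = maxlen t.1 + 1 := mem_sF.1 (hη (cg t))

/-- the triangular map -/
noncomputable def Psi (Mach : ℕ → OProc) (p : Par Φ) (K : Cubes Φ) (hn : 1 ≤ n)
    (hη : ∀ c, η c ∈ E0 c) (S : Finset (IT n N)) (Sa : ∀ c : IC n N, Finset (CU Φ c)) (ω : Om Φ n N) :
    Om Φ n N :=
  (fun γ => if h : ∃ t ∈ S, nu hn hη t = γ then visA Mach p (η, ω) h.choose else ω.1 γ,
    fun c => ω.2 c + ∑ w, if w ∉ (K.Q c.1.1 c.1.2).B (Sa c) ∧ bitA Mach p (η, ω) c w = true then
      (K.Q c.1.1 c.1.2).del w - (K.Q c.1.1 c.1.2).pp (Sa c) w else 0)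

theorem Psi_nu {hn : 1 ≤ n} {hη : ∀ c, η c ∈ E0 c} {S : Finset (IT n N)}
    (hS : ∀ t ∈ S, ∀ t' ∈ S, η (cg t) = η (cg t') → t = t') (Sa : ∀ c : IC n N, Finset (CU Φ c))
    (ω : Om Φ n N) {t : IT n N} (ht : t ∈ S) :
    (Psi Mach p K hn hη S Sa ω).1 (nu hn hη t) = visA Mach p (η, ω) t := by
  have h : ∃ t' ∈ S, nu hn hη t' = nu hn hη t := ⟨t, ht, rfl⟩
  have h1 : h.choose = t := hS _ h.choose_spec.1 t ht (congrArg Subtype.val h.choose_spec.2)
  show (if h : ∃ t' ∈ S, nu hn hη t' = nu hn hη t then visA Mach p (η, ω) h.choose else _) = _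
  rw [dif_pos h, h1]

theorem Psi_inj (hp : p.WF) {hn : 1 ≤ n} {hη : ∀ c, η c ∈ E0 c} {S : Finset (IT n N)}
    (hS : ∀ t ∈ S, ∀ t' ∈ S, η (cg t) = η (cg t') → t = t') (Sa : ∀ c : IC n N, Finset (CU Φ c))
    {ω ω' : Om Φ n N} (hV : ∀ c, Van (ω.2 c)) (hV' : ∀ c, Van (ω'.2 c))
    (h : Psi Mach p K hn hη S Sa ω = Psi Mach p K hn hη S Sa ω') : ω = ω' := by
  have hw := par_wf' hp hη hV
  have hw' := par_wf' hp hη hV'
  have key : ∀ m, (∀ γ : IP n N, γ.1.length = m → ω.1 γ = ω'.1 γ) ∧
      ∀ c : IC n N, c.1.2 = m → ω.2 c = ω'.2 c := by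
    intro m
    induction m using Nat.strong_induction_on with
    | _ m ih =>
      have hag : ∀ k ≤ m, Agr (par p (η, ω)) (par p (η, ω')) k := fun k hk =>
        par_agr' (fun γ hγ => (ih γ.1.length (by omega)).1 γ rfl)
          fun c hc => (ih c.1.2 (by omega)).2 c rfl
      constructor
      · intro γ hγ
        have h1 := congrFun (congrArg Prod.fst h) γ
        by_cases hex : ∃ t ∈ S, nu hn hη t = γ
        · obtain ⟨t, ht, rfl⟩ := hex
          rw [Psi_nu hS Sa ω ht, Psi_nu hS Sa ω' ht] at h1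
          have hlen := nu_length hn hη t
          have hst : st (lang Mach (par p (η, ω))) t.1 = st (lang Mach (par p (η, ω'))) t.1 :=
            st_congr fun x hx => lang_local hw hw' (hag (maxlen t.1) (by omega)) (le_maxlen hx)
          have h3 : (par p (η, ω)).par.pad (η (cg t)) = ω.1 (nu hn hη t) := par_pad (nu hn hη t)
          have h4 : (par p (η, ω')).par.pad (η (cg t)) = ω'.1 (nu hn hη t) := par_pad (nu hn hη t)
          unfold visA at h1
          simp only at h1
          rw [hst, h3, h4] at h1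
          cases hs : st (lang Mach (par p (η, ω'))) t.1 <;> rw [hs] at h1 <;> simpa using h1
        · have e1 : (Psi Mach p K hn hη S Sa ω).1 γ = ω.1 γ := dif_neg hex
          have e2 : (Psi Mach p K hn hη S Sa ω').1 γ = ω'.1 γ := dif_neg hex
          rw [e1, e2] at h1
          exact h1
      · intro c hc
        have h1 := congrFun (congrArg Prod.snd h) c
        have h2 : ∀ w : CW c, bitA Mach p (η, ω) c w = bitA Mach p (η, ω') c w := fun w =>
          orc_local hw hw' (hag m le_rfl) (by rw [List.length_ofFn]; omega)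
        have e1 : (Psi Mach p K hn hη S Sa ω).2 c = ω.2 c + ∑ w,
            if w ∉ (K.Q c.1.1 c.1.2).B (Sa c) ∧ bitA Mach p (η, ω) c w = true then
              (K.Q c.1.1 c.1.2).del w - (K.Q c.1.1 c.1.2).pp (Sa c) w else 0 := rfl
        have e2 : (Psi Mach p K hn hη S Sa ω').2 c = ω'.2 c + ∑ w,
            if w ∉ (K.Q c.1.1 c.1.2).B (Sa c) ∧ bitA Mach p (η, ω') c w = true then
              (K.Q c.1.1 c.1.2).del w - (K.Q c.1.1 c.1.2).pp (Sa c) w else 0 := rfl
        rw [e1, e2] at h1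
        have e3 : (∑ w, if w ∉ (K.Q c.1.1 c.1.2).B (Sa c) ∧ bitA Mach p (η, ω) c w = true then
              (K.Q c.1.1 c.1.2).del w - (K.Q c.1.1 c.1.2).pp (Sa c) w else 0) =
            ∑ w, if w ∉ (K.Q c.1.1 c.1.2).B (Sa c) ∧ bitA Mach p (η, ω') c w = true then
              (K.Q c.1.1 c.1.2).del w - (K.Q c.1.1 c.1.2).pp (Sa c) w else 0 :=
          sum_congr rfl fun w _ => by rw [h2 w]
        rw [e3] at h1
        exact add_right_cancel h1
  refine Prod.ext (funext fun γ => (key _).1 γ rfl) (funext fun c => (key _).2 c rfl)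

/-- the images of the worlds -/
theorem Psi_gs {hn : 1 ≤ n} {hη : ∀ c, η c ∈ E0 c} {S : Finset (IT n N)}
    {Sa : ∀ c : IC n N, Finset (CU Φ c)} {va : ∀ c : IC n N, CU Φ c → CM Φ c}
    {aa : ∀ c : IC n N, CW c → Bool}
    {ω : Om Φ n N} (hV : ∀ c, ω.2 c ∈ (K.Q c.1.1 c.1.2).Van) (c : IC n N)
    (h1 : ∀ y ∈ Sa c, (agW K Mach p n N).f (η, ω) c y = va c y)
    (h2 : ∀ w ∈ (K.Q c.1.1 c.1.2).B (Sa c), bitA Mach p (η, ω) c w = aa c w) :
    (Psi Mach p K hn hη S Sa ω).2 c ∈ (K.Q c.1.1 c.1.2).gs (Sa c) (va c) (aa c) := by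
  rw [Cube.mem_gs]
  have e1 : (Psi Mach p K hn hη S Sa ω).2 c = ω.2 c + ∑ w,
      if w ∉ (K.Q c.1.1 c.1.2).B (Sa c) ∧ bitA Mach p (η, ω) c w = true then
        (K.Q c.1.1 c.1.2).del w - (K.Q c.1.1 c.1.2).pp (Sa c) w else 0 := rfl
  rw [e1]
  refine ⟨add_mem (hV c) (sum_mem fun w _ => ?_), fun y hy => ?_⟩
  · split_ifs with h
    · exact (K.Q c.1.1 c.1.2).pp_van _ _ h.1
    · exact zero_mem _
  · rw [← h1 y hy]
    show ω.2 c y + _ = ((∑ w, if bitA Mach p (η, ω) c w then (K.Q c.1.1 c.1.2).del w y else 0) +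
      ω.2 c y) - (K.Q c.1.1 c.1.2).low (Sa c) (aa c) y
    rw [Finset.sum_apply]
    have e2 : ∀ w, (if w ∉ (K.Q c.1.1 c.1.2).B (Sa c) ∧ bitA Mach p (η, ω) c w = true then
        (K.Q c.1.1 c.1.2).del w - (K.Q c.1.1 c.1.2).pp (Sa c) w else 0) y =
        (if bitA Mach p (η, ω) c w then (K.Q c.1.1 c.1.2).del w y else 0) -
          if w ∈ (K.Q c.1.1 c.1.2).B (Sa c) then (if aa c w then (K.Q c.1.1 c.1.2).del w y else 0) else 0 := by
      intro w
      by_cases hw : w ∈ (K.Q c.1.1 c.1.2).B (Sa c)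
      · rw [if_neg fun h => h.1 hw, if_pos hw, h2 w hw, Pi.zero_apply, sub_self]
      · rw [if_neg hw, sub_zero]
        by_cases hb : bitA Mach p (η, ω) c w = true
        · rw [if_pos ⟨hw, hb⟩, if_pos hb, Pi.sub_apply, (K.Q c.1.1 c.1.2).pp_zero _ _ hw y hy, sub_zero]
        · rw [if_neg fun h => hb h.2, if_neg hb, Pi.zero_apply]
    rw [sum_congr rfl fun w _ => e2 w, sum_sub_distrib]
    have e3 : (∑ w, if w ∈ (K.Q c.1.1 c.1.2).B (Sa c) then
        (if aa c w then (K.Q c.1.1 c.1.2).del w y else 0) else 0) = (K.Q c.1.1 c.1.2).low (Sa c) (aa c) y := by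
      unfold Cube.low
      rw [← sum_filter]
      congr 1
      ext w
      simp
    rw [e3]
    abel

/-- the number of worlds with given visible bits and values -/
theorem count_le (hp : p.WF) (hn : 1 ≤ n) (hη : ∀ c, η c ∈ E0 c)
    (S : Finset (IT n N)) (hS : ∀ t ∈ S, ∀ t' ∈ S, η (cg t) = η (cg t') → t = t')
    (v : IT n N → Bool) (Sa : ∀ c : IC n N, Finset (CU Φ c))
    (va : ∀ c : IC n N, CU Φ c → CM Φ c) (aa : ∀ c : IC n N, CW c → Bool) :
    (univ.filter fun ω : Om Φ n N => (agW K Mach p n N).VV ω.2 ∧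
      (∀ t ∈ S, visA Mach p (η, ω) t = v t) ∧
      (∀ c, ∀ y ∈ Sa c, (agW K Mach p n N).f (η, ω) c y = va c y) ∧
      ∀ c : IC n N, ∀ w ∈ (K.Q c.1.1 c.1.2).B (Sa c), bitA Mach p (η, ω) c w = aa c w).card * 2 ^ S.card ≤
      2 ^ Fintype.card (IP n N) * ∏ c, ((K.Q c.1.1 c.1.2).gs (Sa c) (va c) (aa c)).card := by
  let V : Finset (IP n N) := S.image (nu hn hη)
  have hV : V.card = S.card := card_image_of_injOn fun t ht t' ht' h =>
    hS t ht t' ht' (congrArg Subtype.val h)
  let val : IP n N → Bool := fun γ => if h : ∃ t ∈ S, nu hn hη t = γ then v h.choose else false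
  have h1 : (univ.filter fun ω : Om Φ n N => (agW K Mach p n N).VV ω.2 ∧
      (∀ t ∈ S, visA Mach p (η, ω) t = v t) ∧
      (∀ c, ∀ y ∈ Sa c, (agW K Mach p n N).f (η, ω) c y = va c y) ∧
      ∀ c : IC n N, ∀ w ∈ (K.Q c.1.1 c.1.2).B (Sa c), bitA Mach p (η, ω) c w = aa c w).card ≤
      ((Fintype.piFinset fun γ : IP n N => if γ ∈ V then {val γ} else (univ : Finset Bool)) ×ˢ
        Fintype.piFinset fun c : IC n N => (K.Q c.1.1 c.1.2).gs (Sa c) (va c) (aa c)).card := by
    refine card_le_card_of_injOn (Psi Mach p K hn hη S Sa) (fun ω hω => ?_)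
      fun ω hω ω' hω' h => ?_
    · rw [mem_coe, mem_filter] at hω
      obtain ⟨-, g1, g2, g3, g4⟩ := hω
      rw [mem_coe, mem_product, Fintype.mem_piFinset, Fintype.mem_piFinset]
      refine ⟨fun γ => ?_, fun c => Psi_gs g1 c (g3 c) (g4 c)⟩
      by_cases hγ : γ ∈ V
      · rw [if_pos hγ, mem_singleton]
        obtain ⟨t, ht, rfl⟩ := mem_image.1 hγ
        rw [Psi_nu hS Sa ω ht, g2 t ht]
        have h : ∃ t' ∈ S, nu hn hη t' = nu hn hη t := ⟨t, ht, rfl⟩
        have h1 : h.choose = t := hS _ h.choose_spec.1 t ht (congrArg Subtype.val h.choose_spec.2)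
        simp only [val, dif_pos h]
        rw [h1]
      · rw [if_neg hγ]
        exact mem_univ _
    · rw [mem_coe, mem_filter] at hω hω'
      exact Psi_inj hp hS Sa (VV_iff.1 hω.2.1)
        (VV_iff.1 hω'.2.1) h
  have h2 : (Fintype.piFinset fun γ : IP n N =>
      if γ ∈ V then {val γ} else (univ : Finset Bool)).card * 2 ^ V.card =
        2 ^ Fintype.card (IP n N) := by
    rw [Fintype.card_piFinset]
    have h3 : ∀ γ : IP n N, (if γ ∈ V then {val γ} else (univ : Finset Bool)).card =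
        if γ ∈ V then 1 else 2 := by
      intro γ
      split_ifs <;> simp
    simp only [h3]
    rw [prod_ite, prod_const_one, one_mul, prod_const, ← pow_add]
    congr 1
    have h5 : (univ.filter fun γ : IP n N => ¬ γ ∈ V) = Vᶜ := by
      ext γ
      simp
    rw [h5, card_compl]
    have h6 := card_le_univ V
    omega
  rw [card_product, Fintype.card_piFinset (fun c : IC n N => (K.Q c.1.1 c.1.2).gs (Sa c) (va c) (aa c))]
    at h1
  rw [← hV, ← h2, mul_right_comm]
  exact Nat.mul_le_mul_right _ h1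

/-! ### the properties of the game -/

theorem agW_ok (K : Cubes Φ) (Mach : ℕ → OProc) (hp : p.WF) (hn : 1 ≤ n) :
    (agW K Mach p n N).OK E0 (2 ^ n) where
  eb := fun _ => rfl
  eu := fun x => by
    show 2 ^ n ≤ (sF n).card
    rw [card_sF]
  eo := fun y => by
    show 2 ^ n ≤ (sF y.1.length).card
    rw [card_sF]
    exact Nat.pow_le_pow_right (by norm_num) y.2.1
  eg := fun t => by
    show 2 ^ n ≤ (sF (maxlen t.1 + 1)).card
    rw [card_sF]
    exact Nat.pow_le_pow_right (by norm_num) (by have := t.2.1; omega)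
  fix := by
    intro q hq
    by_cases hs : Sh N q
    · refine ⟨orc Mach p q, fun θ hη hV => ?_⟩
      show (if Sh N q then orc Mach (par p θ) q else false) = _
      rw [if_pos hs]
      obtain ⟨h1, h2, h3⟩ := clsW_fix hq hs
      have hw : (par p θ).WF := par_wf K hp hη hV
      by_cases hb : ∃ x w, q = bQ x w
      · obtain ⟨x, w, rfl⟩ := hb
        rw [Bool.eq_iff_iff, orc_bQ hw, orc_bQ hp]
        by_cases hx : x.length = n
        · cases w with
          | nil =>
            have e1 := hw.wf.base_len x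
            have e2 := hp.wf.base_len x
            constructor
            · intro h
              rw [← h] at e1
              simp at e1
            · intro h
              rw [← h] at e2
              simp at e2
          | cons c u => exact absurd rfl (h1 ⟨x, hx⟩ c u)
        · have : (par p θ).par.base x = p.par.base x := by
            show (if h : x.length = n then _ else _) = _
            rw [dif_neg hx]
          rw [this]
      by_cases hh : ∃ j T, q = hashQ j T
      · obtain ⟨j, T, rfl⟩ := hh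
        rw [orc_hash hw, orc_hash hp]
        have hlen : (hashQ j T).length = j + (seqBits T).length + 3 := by
          simp only [hashQ, List.length_cons, un_length]
        have hT : maxlen T < n := by
          by_contra hcon
          exact h3 ⟨T, not_lt.1 hcon, by have := hs.1; omega⟩ j rfl
        have e1 : (par p θ).par.g T = p.par.g T := by
          show (if h : n ≤ maxlen T ∧ (seqBits T).length < N then _ else _) = _
          rw [dif_neg (by omega)]
        have e2 : (par p θ).par.pad (p.par.g T) = p.par.pad (p.par.g T) := by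
          show (if h : n + 1 ≤ (p.par.g T).length ∧ (p.par.g T).length < N then _ else _) = _
          rw [dif_neg (by rw [hp.wf.g_len]; omega)]
        have e3 : st (lang Mach (par p θ)) T = st (lang Mach p) T :=
          st_congr fun x hx => (lang_local hp hw par_agr
            (by have := le_maxlen hx; omega)).symm
        unfold nm
        rw [e1, e2, e3]
      by_cases hy : ∃ y w, q = wQ y w
      · obtain ⟨y, w, rfl⟩ := hy
        rw [Bool.eq_iff_iff, orc_wQ hw, orc_wQ hp]
        have hlen : (wQ y w).length = 2 * y.length + w.length + 3 := by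
          simp only [wQ, List.length_cons, pairStr_length']
        have hyn : y.length < n := by
          by_contra hcon
          exact h2 ⟨y, not_lt.1 hcon, by have := hs.1; omega⟩ w rfl
        have e1 : (par p θ).par.om y = p.par.om y := by
          show (if h : n ≤ y.length ∧ y.length < N then _ else _) = _
          rw [dif_neg (by omega)]
        have e2 := yesN_congr (p := (par p θ).par) (p' := p.par) (y := y) par_agr.par.symm
          hyn.le
        rw [e1, e2]
      · have hk : ∀ r w, q ≠ kQ r w := fun r w e => hs.2 ⟨r, w, e⟩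
        rw [orc_other hw (fun x w e => hb ⟨x, w, e⟩) (fun j T e => hh ⟨j, T, e⟩)
          (fun y w e => hy ⟨y, w, e⟩) hk, orc_other hp (fun x w e => hb ⟨x, w, e⟩)
          (fun j T e => hh ⟨j, T, e⟩) (fun y w e => hy ⟨y, w, e⟩) hk]
    · refine ⟨false, fun θ hη hV => ?_⟩
      show (if Sh N q then orc Mach (par p θ) q else false) = _
      rw [if_neg hs]
  plain := by
    intro q x c u hq θ hη hV
    obtain ⟨hs, rfl⟩ := clsW_plain hq
    show (if Sh N _ then orc Mach (par p θ) (bQ x.1 (c :: u)) else false) = true ↔ _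
    have e : (par p θ).par.base x.1 = θ.1 (cb x) ++ θ.1 (cu x) := par_base x
    rw [if_pos hs, orc_bQ (par_wf K hp hη hV), e]
    have h1 : θ.1 (cb x) ∈ ({[false], [true]} : Finset Str) := hη (cb x)
    rw [mem_insert, mem_singleton] at h1
    rcases h1 with h1 | h1 <;> rw [h1] <;> simp [eq_comm]
  wit := by
    intro q y w hq θ hη hV h
    obtain ⟨hs, rfl⟩ := clsW_wit hq
    have h' : (if Sh N (wQ y.1 w) then orc Mach (par p θ) (wQ y.1 w) else false) = true := h
    have e : (par p θ).par.om y.1 = θ.1 (co y) := par_om y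
    rw [if_pos hs, orc_wQ (par_wf K hp hη hV), e] at h'
    exact h'.2.symm
  inj := by
    intro q q' y w hq hq'
    rw [(clsW_wit hq).2, (clsW_wit hq').2]
  hash := by
    intro q t f hq θ hη hV
    obtain ⟨hs, j, rfl, rfl⟩ := clsW_hash hq
    show (if Sh N _ then orc Mach (par p θ) (hashQ j t.1) else false) = _
    have e : (par p θ).par.g t.1 = θ.1 (cg t) := par_g t
    rw [if_pos hs, orc_hash (par_wf K hp hη hV)]
    unfold nm
    rw [e]
    rfl
  count := by
    intro η hη S hS v Sa va aa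
    exact le_trans (Nat.mul_le_mul_right _ (card_filter_inst _ _ _ _ _))
      (count_le hp hn hη S hS v Sa va aa)

end

end OAlg
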