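import Pool.Agent.Work.MP_609cce_lc_alg.MainA
import Pool.Agent.Work.MP_609cce_lc_alg.World
import Pool.Agent.Work.MP_609cce_lc_alg.Cube

/-!
# The distillation relative to an oracle with extensions: final form (first version)
-/

namespace OAlg

open ORDist hiding stepA stepR stepA_congr stepR_congr orc lang

theorem alg_main (Φ : Fields) : ∃ (A : Str → Bool) (f : ExtF Φ), IsExt Φ A f ∧
    (∃ L : Set Str, InUPO A L ∧ InUPO A Lᶜ ∧ ¬ InPPolyO (extO Φ A f) L ∧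
      ∀ M : OProc, Computable M → ∀ n₀ : ℕ, ∃ n ≥ n₀, ∀ a : Str, a.length ≤ 2 ^ (n / 5) →
        ∃ x : Str, x.length = n ∧ ¬ ∃ v : Bool,
          RunsTo (extO Φ A f) M (pairStr (x, a)) (2 ^ (n / 5)) v ∧ (x ∈ L ↔ v = true)) ∧
    ∃ R : Set Str, InNPO A R ∧
      (∀ L, InNPO (extO Φ A f) L → ∃ g : Str → Str, PolyTime (fun x => x) (fun x => x) g ∧
        ∀ x, x ∈ L ↔ g x ∈ R) ∧
      ∃ D : List Str → Str, PolyTimeO A seqBits D ∧
        (∀ (n : ℕ) (xs : List Str), (∀ x ∈ xs, x.length ≤ n) → (D xs).length ≤ n + 3) ∧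
        ∀ xs, D xs ∈ R ↔ ∃ x ∈ xs, x ∈ R :=
  alg_main_aux (Classical.choice (exists_cubes Φ)) fun Mach _ hp n N hn =>
    agW_ok (N := N) _ Mach hp hn

end OAlg
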