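import Pool.Agent.Work.MP_609cce_lc_eth.EGame

/-!
# The guessing game with extensions: states and splittings
-/

namespace OAlg

open OEth Orc Finset
open Classical

set_option linter.unusedSectionVars false

/-- what is used of the quadratic functions on a cube: `W` are the points of the cube, `U` all
points, `M` the values, `del w` the function which is `1` at `w` and `0` at the other points of the
cube. The points of `B S` are those whose values are fixed by the values at the points of `S`. -/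
structure Cube (W U M : Type) [AddCommGroup M] where
  /-- the functions which vanish on the cube -/
  Van : AddSubgroup (U → M)
  /-- the functions of the points of the cube -/
  del : W → U → M
  /-- the bad points -/
  B : Finset U → Finset W
  /-- a function which is equal to `del w` on the cube and vanishes on `S` -/
  pp : Finset U → W → U → M
  B_card : ∀ S, (B S).card ≤ S.card
  B_mono : ∀ S S', S ⊆ S' → B S ⊆ B S'
  pp_zero : ∀ S w, w ∉ B S → ∀ y ∈ S, pp S w y = 0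
  pp_van : ∀ S w, w ∉ B S → del w - pp S w ∈ Van

section cube

variable {W U M : Type} [AddCommGroup M] [Fintype U] [Fintype M]

/-- the contribution of the known bits -/
noncomputable def Cube.low (Q : Cube W U M) (S : Finset U) (a : W → Bool) (y : U) : M :=
  ∑ w ∈ Q.B S, if a w then Q.del w y else 0

/-- the vanishing functions which give the values `v` on `S` if the bits of the bad points are `a`
and the other bits are `0` -/
noncomputable def Cube.gs (Q : Cube W U M) (S : Finset U) (v : U → M) (a : W → Bool) :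
    Finset (U → M) :=
  univ.filter fun V => V ∈ Q.Van ∧ ∀ y ∈ S, V y = v y - Q.low S a y

theorem Cube.mem_gs {Q : Cube W U M} {S : Finset U} {v : U → M} {a : W → Bool} {V : U → M} :
    V ∈ Q.gs S v a ↔ V ∈ Q.Van ∧ ∀ y ∈ S, V y = v y - Q.low S a y := by
  unfold Cube.gs
  rw [mem_filter]
  exact and_iff_right (mem_univ _)

theorem Cube.low_congr {Q : Cube W U M} {S : Finset U} {a a' : W → Bool}
    (h : ∀ w ∈ Q.B S, a w = a' w) (y : U) : Q.low S a y = Q.low S a' y := by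
  unfold Cube.low
  exact sum_congr rfl fun w hw => by rw [h w hw]

theorem Cube.gs_congr {Q : Cube W U M} {S : Finset U} {v v' : U → M} {a a' : W → Bool}
    (hv : ∀ y ∈ S, v y = v' y) (h : ∀ w ∈ Q.B S, a w = a' w) : Q.gs S v a = Q.gs S v' a' := by
  ext V
  rw [Cube.mem_gs, Cube.mem_gs]
  refine and_congr_right fun _ => forall₂_congr fun y hy => ?_
  rw [hv y hy, Cube.low_congr h]

end cube

/-! ### the game -/

section game

variable {X Y T P Q C : Type} {W U M : C → Type} [∀ c, AddCommGroup (M c)]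
  [Fintype X] [Fintype Y] [Fintype T] [Fintype P] [Fintype C]
  [∀ c, Fintype (W c)] [∀ c, Fintype (U c)] [∀ c, Fintype (M c)]

/-- a world: the values of the hidden coordinates, the pads, the vanishing parts -/
abbrev Wo (X Y T P : Type) {C : Type} (U M : C → Type) :=
  (Co X Y T → List Bool) × (P → Bool) × (∀ c, U c → M c)

/-- a game with extensions -/
structure AG (X Y T P Q C : Type) (W U M : C → Type) [∀ c, AddCommGroup (M c)] where
  /-- the visible bits -/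
  vis : Wo X Y T P U M → T → Bool
  /-- the oracle -/
  B : Wo X Y T P U M → Q → Bool
  /-- the class of a query -/
  cls : Q → Cls X Y T
  /-- the cubes -/
  cube : ∀ c, Cube (W c) (U c) (M c)
  /-- the bits at the points of the cubes -/
  bit : Wo X Y T P U M → ∀ c, W c → Bool
  /-- the level of a cube -/
  lev : C → ℕ
  /-- the cost of a query in a cube -/
  wt : C → ℕ

/-- the value of the extension -/
noncomputable def AG.f (G : AG X Y T P Q C W U M) (θ : Wo X Y T P U M) (c : C) (y : U c) : M c :=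
  (∑ w, if G.bit θ c w then (G.cube c).del w y else 0) + θ.2.2 c y

/-- all vanishing parts vanish on their cubes -/
def AG.VV (G : AG X Y T P Q C W U M) (V : ∀ c, U c → M c) : Prop := ∀ c, V c ∈ (G.cube c).Van

/-- the properties of the game -/
structure AG.OK (G : AG X Y T P Q C W U M)
    (E0 : Co X Y T → Finset (List Bool)) (H : ℕ) : Prop where
  eb : ∀ x, E0 (cb x) = {[false], [true]}
  eu : ∀ x, H ≤ (E0 (cu x)).card
  eo : ∀ y, H ≤ (E0 (co y)).card
  eg : ∀ t, H ≤ (E0 (cg t)).card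
  fix : ∀ q, G.cls q = .fix → ∃ a, ∀ θ : Wo X Y T P U M, (∀ c, θ.1 c ∈ E0 c) → G.VV θ.2.2 →
    G.B θ q = a
  plain : ∀ q x c u, G.cls q = .plain x c u → ∀ θ : Wo X Y T P U M, (∀ c, θ.1 c ∈ E0 c) →
    G.VV θ.2.2 → (G.B θ q = true ↔ θ.1 (cb x) = [c] ∧ θ.1 (cu x) = u)
  wit : ∀ q y w, G.cls q = .wit y w → ∀ θ : Wo X Y T P U M, (∀ c, θ.1 c ∈ E0 c) →
    G.VV θ.2.2 → G.B θ q = true → θ.1 (co y) = w
  inj : ∀ q q' y w, G.cls q = .wit y w → G.cls q' = .wit y w → q = q'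
  hash : ∀ q t f, G.cls q = .hash t f → ∀ θ : Wo X Y T P U M, (∀ c, θ.1 c ∈ E0 c) →
    G.VV θ.2.2 → G.B θ q = f (θ.1 (cg t)) (G.vis θ t)
  count : ∀ η : Co X Y T → List Bool, (∀ c, η c ∈ E0 c) → ∀ S : Finset T,
    (∀ t ∈ S, ∀ t' ∈ S, η (cg t) = η (cg t') → t = t') → ∀ (v : T → Bool)
    (Sa : ∀ c, Finset (U c)) (va : ∀ c, U c → M c) (aa : ∀ c, W c → Bool),
    (univ.filter fun ω : (P → Bool) × (∀ c, U c → M c) => G.VV ω.2 ∧
      (∀ t ∈ S, G.vis (η, ω) t = v t) ∧ (∀ c, ∀ y ∈ Sa c, G.f (η, ω) c y = va c y) ∧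
      ∀ c, ∀ w ∈ (G.cube c).B (Sa c), G.bit (η, ω) c w = aa c w).card * 2 ^ S.card ≤
      2 ^ Fintype.card P * ∏ c, ((G.cube c).gs (Sa c) (va c) (aa c)).card

/-- the states of the game -/
structure Stt (X Y T Q : Type) {C : Type} (W U M : C → Type) where
  /-- the possible values of the hidden coordinates -/
  E : Co X Y T → Finset (List Bool)
  /-- the sequences whose visible bit is known -/
  S : Finset T
  /-- the visible bits -/
  v : T → Bool
  /-- known answers -/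
  κ : Q → Option Bool
  /-- the points at which the extension is known -/
  Sa : ∀ c, Finset (U c)
  /-- the values of the extension -/
  va : ∀ c, U c → M c
  /-- the bits of the bad points -/
  aa : ∀ c, W c → Bool

/-- the worlds of a state -/
def InW (G : AG X Y T P Q C W U M) (σ : Stt X Y T Q W U M) (θ : Wo X Y T P U M) : Prop :=
  (∀ c, θ.1 c ∈ σ.E c) ∧ G.VV θ.2.2 ∧ (∀ t ∈ σ.S, G.vis θ t = σ.v t) ∧
    (∀ q a, σ.κ q = some a → G.B θ q = a) ∧ ∀ c, ∀ y ∈ σ.Sa c, G.f θ c y = σ.va c y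

/-- the game without extensions, only used for the classes of the queries -/
def AG.toG (G : AG X Y T P Q C W U M) : Game X Y T P Q := ⟨fun _ _ _ => false, fun _ _ _ => false,
  G.cls⟩

/-- the valid states after at most `k` queries -/
structure Valid (G : AG X Y T P Q C W U M) (E0 : Co X Y T → Finset (List Bool)) (H k : ℕ)
    (σ : Stt X Y T Q W U M) : Prop where
  st : St G.toG E0 H k σ.E σ.S σ.κ
  bits : ∀ c, ∀ w ∈ (G.cube c).B (σ.Sa c), ∀ θ, InW G σ θ → G.bit θ c w = σ.aa c w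

/-- the factor of the cubes -/
noncomputable def gam (G : AG X Y T P Q C W U M) (σ : Stt X Y T Q W U M) : ℝ :=
  ∏ c, (((G.cube c).gs (σ.Sa c) (σ.va c) (σ.aa c)).card : ℝ)

/-- the potential -/
noncomputable def phi (G : AG X Y T P Q C W U M) (xs : List X) (σ : Stt X Y T Q W U M) : ℝ :=
  mass σ.E σ.S * pot σ.E xs * gam G σ

/-- the credit of the cubes of level less than `L` -/
noncomputable def cr (G : AG X Y T P Q C W U M) (L : ℕ) (σ : Stt X Y T Q W U M) : ℕ :=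
  ∑ c, if G.lev c < L then G.wt c * ((σ.Sa c).card - ((G.cube c).B (σ.Sa c)).card) else 0

theorem gam_nonneg (G : AG X Y T P Q C W U M) (σ : Stt X Y T Q W U M) : 0 ≤ gam G σ :=
  prod_nonneg fun _ _ => Nat.cast_nonneg _

theorem phi_nonneg (G : AG X Y T P Q C W U M) (xs : List X) (σ : Stt X Y T Q W U M) :
    0 ≤ phi G xs σ := mul_nonneg (mul_nonneg (mass_nonneg _ _) (pot_nonneg _ _)) (gam_nonneg _ _)

/-- the state `σ` can be split at the cost `d`, by queries in cubes of level less than `L` only,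
into states with the property `Pr` -/
def Spl (G : AG X Y T P Q C W U M) (E0 : Co X Y T → Finset (List Bool)) (H : ℕ) (δ : ℝ)
    (xs : List X) (L d k : ℕ) (σ : Stt X Y T Q W U M) (Pr : Stt X Y T Q W U M → Prop) : Prop :=
  ∃ (ι : Type) (_ : Fintype ι) (τ : ι → Stt X Y T Q W U M) (kk : ι → ℕ),
    (∀ θ, InW G σ θ → ∃ i, InW G (τ i) θ) ∧
    (∀ i, (∀ θ, InW G (τ i) θ → InW G σ θ) ∧ Valid G E0 H (kk i) (τ i) ∧
      kk i + cr G L (τ i) ≤ k + cr G L σ + d ∧
      (∀ c, L ≤ G.lev c → (τ i).Sa c = σ.Sa c ∧ (τ i).va c = σ.va c ∧ (τ i).aa c = σ.aa c) ∧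
      Pr (τ i)) ∧
    ∑ i, phi G xs (τ i) * (1 + δ) ^ cr G L (τ i) ≤ (1 + δ) ^ d * (phi G xs σ * (1 + δ) ^ cr G L σ)

variable {G : AG X Y T P Q C W U M} {E0 : Co X Y T → Finset (List Bool)} {H : ℕ} {δ : ℝ}
  {xs : List X}

/-- nothing to do -/
theorem Spl.refl (hδ : 0 ≤ δ) {L k : ℕ} {σ : Stt X Y T Q W U M} (hσ : Valid G E0 H k σ)
    {Pr : Stt X Y T Q W U M → Prop} (h : Pr σ) (d : ℕ) : Spl G E0 H δ xs L d k σ Pr := by
  refine ⟨Unit, inferInstance, fun _ => σ, fun _ => k, fun θ hθ => ⟨(), hθ⟩, fun _ =>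
    ⟨fun θ hθ => hθ, hσ, Nat.le_add_right _ _, fun c _ => ⟨rfl, rfl, rfl⟩, h⟩, ?_⟩
  rw [Fintype.sum_unique]
  have h1 : (1 : ℝ) ≤ (1 + δ) ^ d := one_le_pow₀ (by linarith)
  have h2 := mul_nonneg (phi_nonneg G xs σ) (by positivity : (0 : ℝ) ≤ (1 + δ) ^ cr G L σ)
  exact le_mul_of_one_le_left h2 h1

/-- composition -/
theorem Spl.comp (hδ : 0 ≤ δ) {L d d' k : ℕ} {σ : Stt X Y T Q W U M}
    {Pr Pr' : Stt X Y T Q W U M → Prop} (h : Spl G E0 H δ xs L d k σ Pr)
    (h' : ∀ (τ : Stt X Y T Q W U M) (k' : ℕ), (∀ θ, InW G τ θ → InW G σ θ) → Valid G E0 H k' τ →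
      k' + cr G L τ ≤ k + cr G L σ + d →
      (∀ c, L ≤ G.lev c → τ.Sa c = σ.Sa c ∧ τ.va c = σ.va c ∧ τ.aa c = σ.aa c) → Pr τ →
      Spl G E0 H δ xs L d' k' τ Pr') :
    Spl G E0 H δ xs L (d + d') k σ Pr' := by
  obtain ⟨ι, hι, τ, kk, h1, h2, h3⟩ := h
  have h4 := fun i => h' (τ i) (kk i) (h2 i).1 (h2 i).2.1 (h2 i).2.2.1 (h2 i).2.2.2.1
    (h2 i).2.2.2.2
  choose ι' hι' τ' kk' g1 g2 g3 using h4
  refine ⟨Σ i, ι' i, inferInstance, fun j => τ' j.1 j.2, fun j => kk' j.1 j.2, ?_, ?_, ?_⟩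
  · intro θ hθ
    obtain ⟨i, hi⟩ := h1 θ hθ
    obtain ⟨j, hj⟩ := g1 i θ hi
    exact ⟨⟨i, j⟩, hj⟩
  · rintro ⟨i, j⟩
    obtain ⟨a1, a2, a3, a4, a5⟩ := g2 i j
    obtain ⟨b1, b2, b3, b4, b5⟩ := h2 i
    refine ⟨fun θ hθ => b1 θ (a1 θ hθ), a2, ?_, fun c hc => ?_, a5⟩
    · simp only
      omega
    · obtain ⟨e1, e2, e3⟩ := a4 c hc
      obtain ⟨e4, e5, e6⟩ := b4 c hc
      exact ⟨e1.trans e4, e2.trans e5, e3.trans e6⟩
  · rw [Fintype.sum_sigma]
    calc ∑ i, ∑ j, phi G xs (τ' i j) * (1 + δ) ^ cr G L (τ' i j)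
        ≤ ∑ i, (1 + δ) ^ d' * (phi G xs (τ i) * (1 + δ) ^ cr G L (τ i)) :=
          sum_le_sum fun i _ => g3 i
      _ = (1 + δ) ^ d' * ∑ i, phi G xs (τ i) * (1 + δ) ^ cr G L (τ i) := by rw [mul_sum]
      _ ≤ (1 + δ) ^ d' * ((1 + δ) ^ d * (phi G xs σ * (1 + δ) ^ cr G L σ)) :=
          mul_le_mul_of_nonneg_left h3 (by positivity)
      _ = _ := by rw [pow_add]; ring

/-- a weaker property -/
theorem Spl.imp {L d k : ℕ} {σ : Stt X Y T Q W U M}
    {Pr Pr' : Stt X Y T Q W U M → Prop} (h : Spl G E0 H δ xs L d k σ Pr)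
    (hP : ∀ τ : Stt X Y T Q W U M, (∀ θ, InW G τ θ → InW G σ θ) → Pr τ → Pr' τ) :
    Spl G E0 H δ xs L d k σ Pr' := by
  obtain ⟨ι, hι, τ, kk, h1, h2, h3⟩ := h
  exact ⟨ι, hι, τ, kk, h1, fun i => ⟨(h2 i).1, (h2 i).2.1, (h2 i).2.2.1, (h2 i).2.2.2.1,
    hP _ (h2 i).1 (h2 i).2.2.2.2⟩, h3⟩

/-- a larger cost -/
theorem Spl.mono (hδ : 0 ≤ δ) {L d d' k : ℕ} {σ : Stt X Y T Q W U M}
    {Pr : Stt X Y T Q W U M → Prop} (h : Spl G E0 H δ xs L d k σ Pr) (hd : d ≤ d') :
    Spl G E0 H δ xs L d' k σ Pr := by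
  obtain ⟨ι, hι, τ, kk, h1, h2, h3⟩ := h
  refine ⟨ι, hι, τ, kk, h1, fun i => ⟨(h2 i).1, (h2 i).2.1, ?_, (h2 i).2.2.2⟩, h3.trans ?_⟩
  · have := (h2 i).2.2.1
    omega
  · refine mul_le_mul_of_nonneg_right (pow_le_pow_right₀ (by linarith) hd) ?_
    exact mul_nonneg (phi_nonneg _ _ _) (by positivity)

/-- the credit of the cubes of the levels from `L` to `L' - 1` -/
theorem cr_add (G : AG X Y T P Q C W U M) {L L' : ℕ} (hL : L ≤ L') (σ : Stt X Y T Q W U M) :
    cr G L' σ = cr G L σ + ∑ c, if L ≤ G.lev c ∧ G.lev c < L' then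
      G.wt c * ((σ.Sa c).card - ((G.cube c).B (σ.Sa c)).card) else 0 := by
  unfold cr
  rw [← sum_add_distrib]
  refine sum_congr rfl fun c _ => ?_
  by_cases h1 : G.lev c < L
  · rw [if_pos (by omega), if_pos h1, if_neg (by omega), add_zero]
  · by_cases h2 : G.lev c < L'
    · rw [if_pos h2, if_neg h1, if_pos (by omega), zero_add]
    · rw [if_neg h2, if_neg h1, if_neg (by omega)]

/-- more levels -/
theorem Spl.lift {L L' d k : ℕ} (hL : L ≤ L') {σ : Stt X Y T Q W U M} (hδ : 0 ≤ δ)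
    {Pr : Stt X Y T Q W U M → Prop} (h : Spl G E0 H δ xs L d k σ Pr) :
    Spl G E0 H δ xs L' d k σ Pr := by
  obtain ⟨ι, hι, τ, kk, h1, h2, h3⟩ := h
  set z : ℕ := ∑ c, if L ≤ G.lev c ∧ G.lev c < L' then
      G.wt c * ((σ.Sa c).card - ((G.cube c).B (σ.Sa c)).card) else 0 with hz
  have hz1 : cr G L' σ = cr G L σ + z := cr_add G hL σ
  have hz2 : ∀ i, cr G L' (τ i) = cr G L (τ i) + z := by
    intro i
    rw [cr_add G hL (τ i), hz]
    congr 1
    refine sum_congr rfl fun c _ => ?_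
    by_cases hc : L ≤ G.lev c ∧ G.lev c < L'
    · rw [if_pos hc, if_pos hc, ((h2 i).2.2.2.1 c hc.1).1]
    · rw [if_neg hc, if_neg hc]
  refine ⟨ι, hι, τ, kk, h1, fun i => ⟨(h2 i).1, (h2 i).2.1, ?_, fun c hc =>
    (h2 i).2.2.2.1 c (hL.trans hc), (h2 i).2.2.2.2⟩, ?_⟩
  · have := (h2 i).2.2.1
    rw [hz2, hz1]
    omega
  · simp only [hz2, hz1, pow_add]
    calc ∑ i, phi G xs (τ i) * ((1 + δ) ^ cr G L (τ i) * (1 + δ) ^ z)
        = (∑ i, phi G xs (τ i) * (1 + δ) ^ cr G L (τ i)) * (1 + δ) ^ z := by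
          rw [sum_mul]
          exact sum_congr rfl fun i _ => by ring
      _ ≤ ((1 + δ) ^ d * (phi G xs σ * (1 + δ) ^ cr G L σ)) * (1 + δ) ^ z :=
          mul_le_mul_of_nonneg_right h3 (by positivity)
      _ = _ := by ring

end game

end OAlg
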