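import Pool.Agent.Work.MP_609cce_lc_alg.Loc
import Pool.Agent.Work.MP_609cce_lc_key.KMain

/-!
# Oracles with one hidden key of every length and with extensions: definitions, locality, UP
-/

namespace OAlg.KB

open ORDist ORD ORK O2PP PTime

variable {Φ : Fields} {F : (Str → Bool) → ℕ → Str → Bool}

/-- `B` together with its extensions, which have the vanishing parts `V` -/
noncomputable def alB (V : ExtF Φ) (B : Str → Bool) : Str → Bool :=
  extO Φ B fun s n z => mle Φ B s n z + V s n z

theorem extO_congr' {A A' : Str → Bool} {f f' : ExtF Φ} {q : Str}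
    (hA : ∀ q' : Str, q'.length < q.length → A q' = A' q')
    (hf : ∀ (s : Str) (n : ℕ), s.length + n < q.length → f s n = f' s n) :
    extO Φ A f q = extO Φ A' f' q := by
  unfold extO
  refine decide_eq_decide.2 (or_congr ?_ ?_)
  · refine exists_congr fun q' => and_congr_right fun h => ?_
    rw [hA q' (by rw [h, List.length_cons]; omega)]
  · refine exists_congr fun s => exists_congr fun j => exists_congr fun ws =>
      and_congr_right fun h => ?_
    have h1 := length_le_seqBits ws
    have h2 := algQ_length s j ws
    rw [hf s ws.length (by rw [h, List.length_cons]; omega)]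

theorem alB_congr {V V' : ExtF Φ} {B B' : Str → Bool} {q : Str}
    (hV : ∀ (s : Str) (n : ℕ), s.length + n < q.length → V s n = V' s n)
    (hB : ∀ q' : Str, q'.length < q.length → B q' = B' q') : alB V B q = alB V' B' q := by
  refine extO_congr' hB fun s n hn => ?_
  funext z
  rw [hV s n hn, mle_congr fun q' hq' => hB q' (by omega)]

/-- the parameters: at the level `M` the key of length `M` and the vanishing parts of the
extensions over the field with the code `s` in `n` variables, where `|s| + n = M` -/
abbrev PB (Φ : Fields) := ℕ → Str × ExtF Φ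

/-- the keys -/
def ky (x : PB Φ) (M : ℕ) : Str := (x M).1

/-- the vanishing parts -/
def vp (x : PB Φ) : ExtF Φ := fun s n => (x (s.length + n)).2 s n

/-- well-formed parameters of level `M` -/
def OkB (M : ℕ) (w : Str × ExtF Φ) : Prop := w.1.length = M ∧ ∀ s n, Van (w.2 s n)

/-- the oracle with the parameters `x` -/
noncomputable def borc (F : (Str → Bool) → ℕ → Str → Bool) (x : PB Φ) : Str → Bool :=
  fixO fun B q => keyStep F (ky x) (alB (vp x) B) q

/-- the oracle with its extensions -/
noncomputable def balg (F : (Str → Bool) → ℕ → Str → Bool) (x : PB Φ) : Str → Bool :=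
  alB (vp x) (borc F x)

theorem borc_eq (hF : Loc F) (x : PB Φ) (q : Str) :
    borc F x q = keyStep F (ky x) (balg F x) q := by
  refine fixO_eq (fun B B' s h => keyStep_congr hF _ _ _ s fun t ht => ?_) q
  exact alB_congr (fun _ _ _ => rfl) fun q' hq' => h q' (by omega)

theorem borc_key (hF : Loc F) (x : PB Φ) (w : Str) :
    borc F x (false :: w) = decide (w = ky x w.length) := borc_eq hF x _

theorem borc_table (hF : Loc F) {x : PB Φ} (hx : ∀ M, (ky x M).length = M) (M : ℕ) (y : Str) :
    borc F x (true :: pairStr (ky x M, y)) = F (balg F x) M y := by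
  rw [borc_eq hF]
  simp only [keyStep, unpairS_pairStr, hx, decide_true, Bool.true_and]
  rw [decide_eq_true, Bool.and_true]
  rw [List.length_cons, pairStr_len, hx]
  omega

theorem borc_of_ne (hF : Loc F) {x : PB Φ} {s : Str} (h : wq s ≠ ky x (wq s).length) :
    borc F x s = false := by
  rw [borc_eq hF]
  match s with
  | [] => rfl
  | false :: w =>
    simp only [wq] at h
    simp only [keyStep]
    exact decide_eq_false h
  | true :: z =>
    simp only [wq] at h
    simp only [keyStep]
    rw [decide_eq_false h, Bool.false_and]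

/-- one step depends on the key which the query is about and on the shorter strings -/
theorem keyStep_congr2 (hF : Loc F) {κ κ' : ℕ → Str} {B B' : Str → Bool} {s : Str}
    (hκ : κ (wq s).length = κ' (wq s).length)
    (h : ∀ t : Str, t.length < (wq s).length → B t = B' t) :
    keyStep F κ B s = keyStep F κ' B' s := by
  match s with
  | [] => rfl
  | false :: w =>
    simp only [wq] at hκ
    simp only [keyStep, hκ]
  | true :: z =>
    simp only [wq] at hκ h
    simp only [keyStep]
    rw [hκ, hF B B' _ _ h]

theorem wq_length_lt : ∀ {s : Str}, s ≠ [] → (wq s).length < s.length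
  | [], h => absurd rfl h
  | false :: w, _ => by simp [wq]
  | true :: z, _ => Nat.lt_succ_of_le (unpairS_fst_length z)

/-- locality -/
theorem b_local (hF : Loc F) {x x' : PB Φ} {n : ℕ} (h : ∀ M < n, x M = x' M) :
    ∀ k ≤ n, ∀ q : Str, q.length = k → borc F x q = borc F x' q ∧ balg F x q = balg F x' q := by
  intro k
  induction k using Nat.strong_induction_on with
  | _ k ih =>
    intro hk q hq
    have h1 : balg F x q = balg F x' q := by
      refine alB_congr (fun s m hm => ?_) fun q' hq' => (ih _ (by omega) (by omega) q' rfl).1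
      unfold vp
      rw [h _ (by omega)]
    refine ⟨?_, h1⟩
    rw [borc_eq hF, borc_eq hF]
    by_cases hq0 : q = []
    · subst hq0
      rfl
    · have h2 := wq_length_lt hq0
      refine keyStep_congr2 hF ?_ fun t ht => (ih _ (by omega) (by omega) t rfl).2
      unfold ky
      rw [h _ (by omega)]

theorem borc_local (hF : Loc F) {x x' : PB Φ} {n : ℕ} (h : ∀ M < n, x M = x' M) {q : Str}
    (hq : q.length ≤ n) : borc F x q = borc F x' q := (b_local hF h _ hq q rfl).1

theorem balg_local (hF : Loc F) {x x' : PB Φ} {n : ℕ} (h : ∀ M < n, x M = x' M) {q : Str}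
    (hq : q.length ≤ n) : balg F x q = balg F x' q := (b_local hF h _ hq q rfl).2

theorem balg_false (x : PB Φ) (q : Str) : balg F x (false :: q) = borc F x q := by
  unfold balg alB
  exact extO_false _ _ _

/-! ### membership in UP and in NP -/

theorem key_uniqueB (hF : Loc F) {x : PB Φ} {M : ℕ} {w : Str} (hw : w.length = M)
    (h : borc F x (false :: w) = true) : w = ky x M := by
  rw [borc_key hF, decide_eq_true_eq, hw] at h
  exact h

/-- the languages given by the functional are in UP -/
theorem upoB_of_F (hF : Loc F) {x : PB Φ} (hx : ∀ M, (ky x M).length = M) (t : Polynomial ℕ)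
    {y : Str → Str} (hy : PT y) (σ : Bool) {L : Set Str}
    (hL : ∀ z, z ∈ L ↔ F (balg F x) (t.eval z.length) (y z) = σ) : InUPO (borc F x) L := by
  refine ⟨VU (borc F x) t y σ, t, polyTimeO_VU _ t hy σ, fun z => ?_, ?_⟩
  · rw [hL z]
    constructor
    · intro h
      refine ⟨ky x (t.eval z.length), (hx _).le, ?_⟩
      unfold VU
      simp only
      rw [hx, borc_key hF, hx, borc_table hF hx, h]
      cases σ <;> simp
    · rintro ⟨w, _, h⟩
      unfold VU at h
      simp only [Bool.and_eq_true, decide_eq_true_eq] at h
      obtain ⟨h1, h2, h3⟩ := h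
      have h4 := key_uniqueB hF h1 h2
      subst h4
      rw [borc_table hF hx] at h3
      cases σ
      · simpa using h3
      · simpa using h3
  · intro z w w' _ _ h h'
    unfold VU at h h'
    simp only [Bool.and_eq_true, decide_eq_true_eq] at h h'
    rw [key_uniqueB hF h.1 h.2.1, key_uniqueB hF h'.1 h'.2.1]

theorem upoB_both (hF : Loc F) {x : PB Φ} (hx : ∀ M, (ky x M).length = M) {t : Polynomial ℕ}
    {y : Str → Str} (hy : PT y) {L : Set Str}
    (hL : ∀ z, z ∈ L ↔ F (balg F x) (t.eval z.length) (y z) = true) :
    InUPO (borc F x) L ∧ InUPO (borc F x) Lᶜ := by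
  refine ⟨upoB_of_F hF hx t hy true hL, upoB_of_F hF hx t hy false fun z => ?_⟩
  rw [Set.mem_compl_iff, hL z, Bool.not_eq_true]

theorem langB_inNPO (hF : Loc F) {x : PB Φ} (hx : ∀ M, (ky x M).length = M) :
    InNPO (borc F x) (langK (ky x)) := by
  have hx1 : PT (fun s : Str => unpairS (unpairS s).1) := PT.unpairS (PT.unpairS PT.id).fst'
  have hw : PT (fun s : Str => (unpairS s).2) := (PT.unpairS PT.id).snd'
  refine ⟨fun z => decide (z.2.length = (unpairS z.1).1.length) && (borc F x (false :: z.2) &&
      decide ((unpairS z.1).2 = z.2.take (unpairS z.1).2.length)), Polynomial.X, ?_, fun z => ?_⟩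
  · refine polyTimeO_list (qs := fun s => [false :: (unpairS s).2])
      (out := fun r => [decide ((unpairS r.1).2.length = (unpairS (unpairS r.1).1).1.length) &&
        (r.2.getD 0 false && decide ((unpairS (unpairS r.1).1).2 =
          (unpairS r.1).2.take (unpairS (unpairS r.1).1).2.length))]) ?_ ?_ ?_
    · exact ((PT.const false).cons hw).cons (PT.const [])
    · have h1 : PT (fun r : Str × Str => unpairS (unpairS r.1).1) := hx1.comp PT.fst
      have h2 : PT (fun r : Str × Str => (unpairS r.1).2) := hw.comp PT.fst
      exact ((PT.natEq h2.length h1.fst'.length).and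
        ((PT.snd.getD (PT.const 0) (PT.const false)).and
          (PT.eq h1.snd' (h2.take h1.snd'.length)))).cons (PT.const [])
    · rintro ⟨z, w⟩
      simp only [unpairS_pairStr, List.map_cons, List.map_nil]
      rfl
  · rw [Polynomial.eval_X]
    show (unpairS z).2 <+: ky x (unpairS z).1.length ↔ _
    rw [List.prefix_iff_eq_take]
    simp only [Bool.and_eq_true, decide_eq_true_eq]
    constructor
    · intro h
      refine ⟨ky x (unpairS z).1.length, ?_, hx _, ?_, h⟩
      · rw [hx]
        exact unpairS_fst_length z
      · rw [borc_key hF, hx]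
        simp
    · rintro ⟨w, _, h1, h2, h3⟩
      rw [key_uniqueB hF h1 h2] at h3
      exact h3

/-- a function in polynomial time with the oracle `B` is in polynomial time with an oracle which
contains `B` -/
theorem polyTimeO_ext {B B' : Str → Bool} (h : ∀ q, B' (false :: q) = B q) {α : Type}
    {ea : α → Str} {f : α → Str} (hf : PolyTimeO B ea f) : PolyTimeO B' ea f := by
  obtain ⟨M, hM, p, hp⟩ := hf
  have hM' := pt_of_polyTime hM
  let M' : OProc := fun z => ((M z).1, bif (M z).1 then false :: (M z).2 else (M z).2)
  have hans : ∀ (x : Str) (k : ℕ), (∀ j < k, (M (x, answers B M x j)).1 = true) →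
      answers B' M' x k = answers B M x k := by
    intro x k
    induction k with
    | zero => intro _; rfl
    | succ k ih =>
      intro hk
      have h1 := ih fun j hj => hk j (by omega)
      have h2 := hk k (by omega)
      rw [answers, answers, h1]
      have h3 : (M' (x, answers B M x k)).2 = false :: (M (x, answers B M x k)).2 := by
        simp only [M', h2, cond_true]
      rw [h3, h]
  refine ⟨M', ?_, p, fun a => ?_⟩
  · exact polyTime_of_pt (hM'.fst'.pair (PT.cond hM'.fst' ((PT.const false).cons hM'.snd')
      hM'.snd'))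
  · obtain ⟨k, hk, h1, h2⟩ := hp a
    refine ⟨k, hk, fun j hj => ?_, ?_⟩
    · rw [hans _ _ fun i hi => h1 i (by omega)]
      exact h1 j hj
    · rw [hans _ _ h1]
      simp only [M', h2, cond_false]

/-- the language `R` is hard for NP relative to `B`, under reductions in polynomial time with the
oracle `B'` -/
def NPHardX (B B' : Str → Bool) (R : Set Str) : Prop :=
  ∀ L : Set Str, InNPO B L → ∃ f : Str → Str, PolyTimeO B' (fun x => x) f ∧ ∀ x, x ∈ L ↔ f x ∈ R

theorem inNPO_ext {B B' : Str → Bool} (h : ∀ q, B' (false :: q) = B q) {L : Set Str}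
    (hL : InNPO B L) : InNPO B' L := by
  obtain ⟨V, p, h1, h2⟩ := hL
  exact ⟨V, p, polyTimeO_ext h h1, h2⟩

end OAlg.KB
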