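import Pool.Agent.Work.MP_609cce_lc_alg.KB
import Pool.Agent.Work.MP_609cce_lc_alg.Ext

/-!
# The stage lemma for oracles with keys and extensions
-/

namespace OAlg.KB

open ORDist ORD ORK O2PP PTime

variable {Φ : Fields} {F : (Str → Bool) → ℕ → Str → Bool}

/-! ### functions which vanish on the cube -/

theorem van_smul {K : Type} [Field K] {n : ℕ} (a : K) {f : (Fin n → K) → K} (hf : Van f) :
    Van fun z => a * f z := by
  obtain ⟨⟨c, rfl⟩, h⟩ := hf
  refine ⟨⟨fun e => a * c e, ?_⟩, fun b => by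
    show a * qval c (pt b) = 0
    rw [h b, mul_zero]⟩
  funext z
  unfold qval
  rw [Finset.mul_sum]
  exact Finset.sum_congr rfl fun e _ => by ring

theorem van_sum {K ι : Type} [Field K] {n : ℕ} (s : Finset ι) (f : ι → (Fin n → K) → K)
    (hf : ∀ i ∈ s, Van (f i)) : Van fun z => ∑ i ∈ s, f i z := by
  classical
  refine ⟨?_, fun b => Finset.sum_eq_zero fun i hi => (hf i hi).2 b⟩
  have h := fun i => (show ∃ c : (Fin n → Fin 3) → K, i ∈ s → f i = qval c by
    by_cases hi : i ∈ s
    · obtain ⟨c, hc⟩ := (hf i hi).1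
      exact ⟨c, fun _ => hc⟩
    · exact ⟨fun _ => 0, fun h => absurd h hi⟩)
  choose c hc using h
  refine ⟨fun e => ∑ i ∈ s, c i e, ?_⟩
  funext z
  unfold qval
  rw [Finset.sum_congr rfl fun i hi => by rw [hc i hi]]
  unfold qval
  rw [Finset.sum_comm]
  exact Finset.sum_congr rfl fun e _ => by rw [Finset.sum_mul]

/-! ### parameters defined by recursion on the level -/

/-- definition of parameters by recursion on the level -/
noncomputable def recPB (G : ℕ → PB Φ → Str × ExtF Φ) (M : ℕ) : Str × ExtF Φ :=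
  G M (fun M' => if _h : M' < M then recPB G M' else ([], fun _ _ _ => 0))
termination_by M

theorem recPB_eq {G : ℕ → PB Φ → Str × ExtF Φ}
    (hG : ∀ (M : ℕ) (x x' : PB Φ), (∀ M' < M, x M' = x' M') → G M x = G M x') (M : ℕ) :
    recPB G M = G M (recPB G) := by
  rw [recPB]
  refine hG M _ _ fun M' hM' => ?_
  rw [dif_pos hM']

/-! ### the points of a list of queries -/

open Classical in
/-- the points of the cube `(s, n)` at which the queries of the list are -/
noncomputable def ptsQ (Q : List Str) (s : Str) (n : ℕ) : Finset (Fin n → Φ.K s) :=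
  (Set.toFinite {y : Fin n → Φ.K s | ∃ j ws, true :: algQ s j ws ∈ Q ∧ ws.length = n ∧
    y = fun k : Fin n => Φ.dc s (ws.getD k [])}).toFinset

theorem mem_ptsQ {Q : List Str} {s : Str} {n : ℕ} {y : Fin n → Φ.K s} :
    y ∈ ptsQ Q s n ↔ ∃ j ws, true :: algQ s j ws ∈ Q ∧ ws.length = n ∧
      y = fun k : Fin n => Φ.dc s (ws.getD k []) := by
  classical
  unfold ptsQ
  rw [Set.Finite.mem_toFinset]
  rfl

theorem ptsQ_card (Q : List Str) (s : Str) (n : ℕ) : (ptsQ (Φ := Φ) Q s n).card ≤ Q.length := by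
  classical
  have h : ∀ y ∈ ptsQ (Φ := Φ) Q s n, ∃ q ∈ Q.toFinset, ∃ j ws, q = true :: algQ s j ws ∧
      ws.length = n ∧ y = fun k : Fin n => Φ.dc s (ws.getD k []) := by
    intro y hy
    obtain ⟨j, ws, h1, h2, h3⟩ := mem_ptsQ.1 hy
    exact ⟨_, List.mem_toFinset.2 h1, j, ws, rfl, h2, h3⟩
  choose! g hg1 hg2 using h
  refine (Finset.card_le_card_of_injOn g hg1 ?_).trans Q.toFinset_card_le
  intro y hy y' hy' hyy
  obtain ⟨j, ws, h1, h2, h3⟩ := hg2 y hy
  obtain ⟨j', ws', h1', h2', h3'⟩ := hg2 y' hy'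
  rw [h1, h1'] at hyy
  simp only [List.cons.injEq, true_and] at hyy
  obtain ⟨_, _, h4⟩ := algQ_inj hyy
  rw [h3, h3', h4]

open Classical in
/-- the bad points of the cube `(s, n)` -/
noncomputable def badQ (Φ : Fields) (Q : List Str) (s : Str) (n : ℕ) : Finset (Fin n → Bool) :=
  Classical.choose (cube_lemma (ptsQ (Φ := Φ) Q s n))

theorem badQ_card (Q : List Str) (s : Str) (n : ℕ) : (badQ Φ Q s n).card ≤ Q.length :=
  (Classical.choose_spec (cube_lemma (ptsQ (Φ := Φ) Q s n))).1.trans (ptsQ_card Q s n)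

/-- the functions of the cube lemma -/
noncomputable def ppQ (Q : List Str) (s : Str) (n : ℕ) (b : Fin n → Bool) :
    (Fin n → Φ.K s) → Φ.K s :=
  open Classical in
  if h : b ∉ badQ Φ Q s n then
    Classical.choose ((Classical.choose_spec (cube_lemma (ptsQ (Φ := Φ) Q s n))).2 b h) else 0

theorem ppQ_zero {Q : List Str} {s : Str} {n : ℕ} {b : Fin n → Bool} (h : b ∉ badQ Φ Q s n)
    {y : Fin n → Φ.K s} (hy : y ∈ ptsQ Q s n) : ppQ Q s n b y = 0 := by
  unfold ppQ
  rw [dif_pos h]
  exact (Classical.choose_spec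
    ((Classical.choose_spec (cube_lemma (ptsQ (Φ := Φ) Q s n))).2 b h)).1 y hy

theorem ppQ_van {Q : List Str} {s : Str} {n : ℕ} {b : Fin n → Bool} (h : b ∉ badQ Φ Q s n) :
    Van fun z => ppQ (Φ := Φ) Q s n b z - del b z := by
  unfold ppQ
  rw [dif_pos h]
  exact (Classical.choose_spec
    ((Classical.choose_spec (cube_lemma (ptsQ (Φ := Φ) Q s n))).2 b h)).2

/-- the strings whose values must not change: the queries and the bad points of their cubes -/
noncomputable def keepQ (Φ : Fields) (Q : List Str) : List Str :=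
  open Classical in
  Q.flatMap fun q => q.tail :: if h : ∃ t : Str × ℕ × List Str, q = true :: algQ t.1 t.2.1 t.2.2
    then (badQ Φ Q h.choose.1 h.choose.2.2.length).toList.map List.ofFn else []

theorem keepQ_base {Q : List Str} {q : Str} (h : false :: q ∈ Q) : q ∈ keepQ Φ Q := by
  unfold keepQ
  exact List.mem_flatMap.2 ⟨_, h, List.mem_cons_self ..⟩

theorem keepQ_bad {Q : List Str} {s : Str} {j : ℕ} {ws : List Str}
    (h : true :: algQ s j ws ∈ Q) {b : Fin ws.length → Bool} (hb : b ∈ badQ Φ Q s ws.length) :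
    List.ofFn b ∈ keepQ Φ Q := by
  classical
  unfold keepQ
  refine List.mem_flatMap.2 ⟨_, h, List.mem_cons_of_mem _ ?_⟩
  have hex : ∃ t : Str × ℕ × List Str, true :: algQ s j ws = true :: algQ t.1 t.2.1 t.2.2 :=
    ⟨(s, j, ws), rfl⟩
  have h0 : hex.choose = (s, j, ws) := by
    have h1 := (List.cons.inj hex.choose_spec).2
    obtain ⟨h2, h3, h4⟩ := algQ_inj h1
    exact Prod.ext h2.symm (Prod.ext h3.symm h4.symm)
  rw [dif_pos hex, h0]
  exact List.mem_map_of_mem (Finset.mem_toList.2 hb)

theorem keepQ_length (Q : List Str) :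
    (keepQ Φ Q).length ≤ Q.length * (Q.length + 1) := by
  classical
  unfold keepQ
  rw [List.length_flatMap]
  have h := List.sum_le_card_nsmul (Q.map fun q => (q.tail ::
    if h : ∃ t : Str × ℕ × List Str, q = true :: algQ t.1 t.2.1 t.2.2 then
    (badQ Φ Q h.choose.1 h.choose.2.2.length).toList.map List.ofFn
      else []).length) (Q.length + 1) (by
      intro m hm
      obtain ⟨q, _, rfl⟩ := List.mem_map.1 hm
      rw [List.length_cons]
      refine Nat.succ_le_succ ?_
      split_ifs with h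
      · rw [List.length_map, Finset.length_toList]
        exact badQ_card _ _ _
      · exact Nat.zero_le _)
  rw [List.length_map, smul_eq_mul] at h
  exact h

/-! ### the changed parameters -/

/-- a bit as an element of a field -/
def bf {K : Type} [Field K] (a : Bool) : K := if a then 1 else 0

/-- the new parameters of level `M`: the keys `κ`, and vanishing parts which compensate the
difference between the new oracle and `B0` at the points of `Q` -/
noncomputable def Gn (F : (Str → Bool) → ℕ → Str → Bool) (x0 : PB Φ) (κ : ℕ → Str) (N2 : ℕ)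
    (Q : List Str) (B0 : Str → Bool) (M : ℕ) (x : PB Φ) : Str × ExtF Φ :=
  open Classical in
  if M < N2 then x0 M else (κ M, fun s n z => if s.length + n = M then
    ∑ b : Fin n → Bool, if b ∈ badQ Φ Q s n then 0 else
      (bf (borc F x (List.ofFn b)) - bf (B0 (List.ofFn b))) * (ppQ Q s n b z - del b z) else 0)

theorem Gn_congr (hF : Loc F) (x0 : PB Φ) (κ : ℕ → Str) (N2 : ℕ) (Q : List Str)
    (B0 : Str → Bool) (M : ℕ) (x x' : PB Φ) (h : ∀ M' < M, x M' = x' M') :
    Gn F x0 κ N2 Q B0 M x = Gn F x0 κ N2 Q B0 M x' := by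
  classical
  unfold Gn
  by_cases hM : M < N2
  · rw [if_pos hM, if_pos hM]
  · rw [if_neg hM, if_neg hM]
    refine Prod.ext rfl ?_
    funext s n z
    simp only
    by_cases h1 : s.length + n = M
    · rw [if_pos h1, if_pos h1]
      refine Finset.sum_congr rfl fun b _ => ?_
      rw [borc_local hF h (q := List.ofFn b) (by rw [List.length_ofFn]; omega)]
    · rw [if_neg h1, if_neg h1]

theorem Gn_ok {x0 : PB Φ} (hx0 : ∀ M, OkB M (x0 M)) {κ : ℕ → Str} (hκ : ∀ M, (κ M).length = M)
    (N2 : ℕ) (Q : List Str) (B0 : Str → Bool) (M : ℕ) (x : PB Φ) :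
    OkB M (Gn F x0 κ N2 Q B0 M x) := by
  classical
  unfold Gn
  by_cases hM : M < N2
  · rw [if_pos hM]
    exact hx0 M
  · rw [if_neg hM]
    refine ⟨hκ M, fun s n => ?_⟩
    simp only
    by_cases h1 : s.length + n = M
    · simp only [if_pos h1]
      refine van_sum _ _ fun b _ => ?_
      by_cases h2 : b ∈ badQ Φ Q s n
      · simp only [if_pos h2]
        exact van_zero _
      · simp only [if_neg h2]
        exact van_smul _ (ppQ_van h2)
    · simp only [if_neg h1]
      exact van_zero _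

/-- the values of the base oracle do not change where the key parts are not the new keys -/
theorem borc_agree (hF : Loc F) {x x' : PB Φ} {N2 : ℕ} (h : ∀ M < N2, x M = x' M) {t : Str}
    (h1 : N2 ≤ (wq t).length → wq t ≠ ky x (wq t).length)
    (h2 : N2 ≤ (wq t).length → wq t ≠ ky x' (wq t).length) : borc F x t = borc F x' t := by
  by_cases hb : N2 ≤ (wq t).length
  · rw [borc_of_ne hF (h1 hb), borc_of_ne hF (h2 hb)]
  · rw [borc_eq hF, borc_eq hF]
    refine keyStep_congr2 hF ?_ fun s hs => balg_local hF h (by omega)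
    unfold ky
    rw [h _ (by omega)]

/-- **The answers to the queries do not change.** -/
theorem balg_keep (hF : Loc F) {x x0 : PB Φ} {κ : ℕ → Str} {N2 : ℕ} (hN2 : 1 ≤ N2)
    {Q : List Str}
    (hx0 : ∀ M, N2 ≤ M → x0 M = ([], fun _ _ _ => 0))
    (hx : ∀ M, x M = Gn F x0 κ N2 Q (borc F x0) M x)
    (hκ : ∀ M, N2 ≤ M → κ M ∉ (keepQ Φ Q).map wq) : ∀ q ∈ Q, balg F x q = balg F x0 q := by
  classical
  have hlow : ∀ M < N2, x M = x0 M := by
    intro M hM
    rw [hx M]
    unfold Gn
    rw [if_pos hM]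
  have hky : ∀ M, N2 ≤ M → ky x M = κ M := by
    intro M hM
    unfold ky
    rw [hx M]
    unfold Gn
    rw [if_neg (by omega)]
  have hkeep : ∀ t ∈ keepQ Φ Q, borc F x t = borc F x0 t := by
    intro t ht
    refine borc_agree hF hlow (fun h1 h2 => ?_) fun h1 h2 => ?_
    · rw [hky _ h1] at h2
      exact hκ _ h1 (h2 ▸ List.mem_map_of_mem ht)
    · unfold ky at h2
      rw [hx0 _ h1] at h2
      simp only at h2
      rw [h2, List.length_nil] at h1
      omega
  intro q hq
  by_cases hb : ∃ q', q = false :: q'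
  · obtain ⟨q', rfl⟩ := hb
    rw [balg_false, balg_false]
    exact hkeep _ (keepQ_base hq)
  by_cases ha : ∃ s j ws, q = true :: algQ s j ws
  · obtain ⟨s, j, ws, rfl⟩ := ha
    unfold balg alB
    rw [extO_alg, extO_alg]
    suffices h : mle Φ (borc F x) s ws.length (fun k => Φ.dc s (ws.get k)) +
        vp x s ws.length (fun k => Φ.dc s (ws.get k)) =
        mle Φ (borc F x0) s ws.length (fun k => Φ.dc s (ws.get k)) +
        vp x0 s ws.length (fun k => Φ.dc s (ws.get k)) by rw [h]
    set n := ws.length with hn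
    set y : Fin n → Φ.K s := fun k => Φ.dc s (ws.get k) with hy
    have hyS : y ∈ ptsQ Q s n := by
      refine mem_ptsQ.2 ⟨j, ws, hq, rfl, ?_⟩
      funext k
      simp only [hy]
      rw [List.getD_eq_getElem _ _ k.2]
      rfl
    by_cases hlev : s.length + n < N2
    · have h1 : mle Φ (borc F x) s n = mle Φ (borc F x0) s n := mle_congr (fun q' hq' =>
        borc_local hF hlow (by omega)) s
      unfold vp
      rw [h1, hlow _ hlev]
    · have h1 : vp x s n y = ∑ b : Fin n → Bool, if b ∈ badQ Φ Q s n then 0 else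
          (bf (borc F x (List.ofFn b)) - bf (borc F x0 (List.ofFn b))) *
            (ppQ Q s n b y - del b y) := by
        unfold vp
        rw [hx (s.length + n)]
        unfold Gn
        rw [if_neg hlev]
        simp only [if_pos trivial]
      have h2 : vp x0 s n y = 0 := by
        unfold vp
        rw [hx0 _ (by omega)]
      rw [h1, h2, add_zero]
      unfold mle
      rw [← sub_eq_zero, add_sub_right_comm, ← Finset.sum_sub_distrib, ← Finset.sum_add_distrib]
      refine Finset.sum_eq_zero fun b _ => ?_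
      by_cases hbad : b ∈ badQ Φ Q s n
      · rw [if_pos hbad, hkeep _ (keepQ_bad hq hbad)]
        ring
      · rw [if_neg hbad, ppQ_zero hbad hyS]
        unfold bf
        cases borc F x (List.ofFn b) <;> cases borc F x0 (List.ofFn b) <;> simp
  · unfold balg alB
    rw [extO_other _ _ (fun q' h => hb ⟨q', h⟩) fun s j ws h => ha ⟨s, j, ws, h⟩,
      extO_other _ _ (fun q' h => hb ⟨q', h⟩) fun s j ws h => ha ⟨s, j, ws, h⟩]

/-- **Stage lemma.** -/
theorem stageB (hF : Loc F) (Mf MD : OProc) (pf pD q p : Polynomial ℕ) (n₀ : ℕ)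
    (x : PB Φ) (b : ℕ) (hx : ∀ M, OkB M (x M)) :
    ∃ (x₁ : PB Φ) (b₁ : ℕ), (∀ M, OkB M (x₁ M)) ∧ b ≤ b₁ ∧ (∀ M < b, x₁ M = x M) ∧
      ∀ x' : PB Φ, (∀ M, OkB M (x' M)) → (∀ M < b₁, x' M = x₁ M) →
        Req (balg F x') (langK (ky x')) Mf MD pf pD q p n₀ := by
  classical
  let Zp : Polynomial ℕ := 6 * Polynomial.X + 2
  let np : Polynomial ℕ := q.comp Zp + Polynomial.X
  let Pp : Polynomial ℕ := p.comp np
  let Tp : Polynomial ℕ := Pp * pf.comp Zp + pD.comp (Pp * (2 * q.comp Zp + 1))
  obtain ⟨N, hN, hbig⟩ := poly_lt_two_pow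
    (Pp * Pp + Pp * (2 * Tp) * (Pp * (2 * Tp) + 1)) (max b n₀ + 1)
  set Z : ℕ := 6 * N + 2 with hZ
  set n : ℕ := q.eval Z + N with hn
  set P : ℕ := p.eval n with hP
  set T : ℕ := P * pf.eval Z + pD.eval (P * (2 * q.eval Z + 1)) with hT
  have hbig' : P * P + P * (2 * T) * (P * (2 * T) + 1) < 2 ^ N := by
    have e1 : Zp.eval N = Z := by simp [Zp, hZ]
    have e2 : np.eval N = n := by simp [np, e1, hn]
    have e3 : Pp.eval N = P := by simp [Pp, e2, hP]
    have e4 : Tp.eval N = T := by simp [Tp, e1, e3, hT]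
    simpa [e3, e4] using hbig
  -- the blank oracle
  let x0 : PB Φ := fun M => if M < 2 * N then x M else ([], fun _ _ _ => 0)
  let B0 : Str → Bool := balg F x0
  let g : ∀ m : ℕ, (Fin m → Option (Fin (2 ^ N))) → Str := fun m c =>
    dK B0 MD pD ((List.ofFn fun i => inst N (c i)).map (fK B0 Mf pf q))
  obtain ⟨i, hi⟩ := exists_good (I := Fin (2 ^ N)) (P := P) g (by
    rw [Fintype.card_fin]
    omega)
  have hex : ∀ m : ℕ, ∃ c c' : Fin m → Option (Fin (2 ^ N)), 1 ≤ m → m ≤ P →
      (∃ j, c j = some i) ∧ (∀ j, c' j ≠ some i) ∧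
      (g m c = g m c' ∨ m ≤ (g m c).length ∨ m ≤ (g m c').length) := by
    intro m
    by_cases hm : 1 ≤ m ∧ m ≤ P
    · have h1 := hi m hm.1 hm.2
      unfold Bad at h1
      push Not at h1
      obtain ⟨c, c', h2, h3, h4⟩ := h1
      refine ⟨c, c', fun _ _ => ⟨h2, h3, ?_⟩⟩
      by_cases h5 : g m c = g m c'
      · exact Or.inl h5
      · by_cases h6 : (g m c).length < m
        · exact Or.inr (Or.inr (h4 h5 h6))
        · exact Or.inr (Or.inl (by omega))
    · exact ⟨fun _ => none, fun _ => none, fun h1 h2 => absurd ⟨h1, h2⟩ hm⟩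
  choose c c' hc using hex
  let zs : ℕ → List Str := fun m => List.ofFn fun j => inst N (c m j)
  let zs' : ℕ → List Str := fun m => List.ofFn fun j => inst N (c' m j)
  have hzs : ∀ m, ∀ z ∈ zs m, z.length ≤ Z := by
    intro m z hz
    obtain ⟨j, rfl⟩ := (List.mem_ofFn' _ _).1 hz
    exact inst_length N _
  have hzs' : ∀ m, ∀ z ∈ zs' m, z.length ≤ Z := by
    intro m z hz
    obtain ⟨j, rfl⟩ := (List.mem_ofFn' _ _).1 hz
    exact inst_length N _
  let Q : List Str := (List.range P).flatMap fun j =>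
    allQ B0 Mf MD pf pD q (zs (j + 1)) ++ allQ B0 Mf MD pf pD q (zs' (j + 1))
  have hQlen : Q.length ≤ P * (2 * T) := by
    have h1 : ∀ j ∈ List.range P, ((allQ B0 Mf MD pf pD q (zs (j + 1)) ++
        allQ B0 Mf MD pf pD q (zs' (j + 1))).length) ≤ 2 * T := by
      intro j hj
      rw [List.mem_range] at hj
      rw [List.length_append]
      have h2 := allQ_length (B := B0) (Mf := Mf) (MD := MD) (pf := pf) (pD := pD) (q := q)
        (hzs (j + 1))
      have h3 := allQ_length (B := B0) (Mf := Mf) (MD := MD) (pf := pf) (pD := pD) (q := q)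
        (hzs' (j + 1))
      have h4 : (zs (j + 1)).length = j + 1 := List.length_ofFn
      have h5 : (zs' (j + 1)).length = j + 1 := List.length_ofFn
      rw [h4] at h2
      rw [h5] at h3
      have h6 : (j + 1) * pf.eval Z + pD.eval ((j + 1) * (2 * q.eval Z + 1)) ≤ T :=
        Nat.add_le_add (Nat.mul_le_mul_right _ hj)
          (eval_mono pD (Nat.mul_le_mul_right _ hj))
      omega
    have h2 := List.sum_le_card_nsmul ((List.range P).map fun j =>
      (allQ B0 Mf MD pf pD q (zs (j + 1)) ++ allQ B0 Mf MD pf pD q (zs' (j + 1))).length)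
      (2 * T) (by
        intro m hm
        obtain ⟨j, hj, rfl⟩ := List.mem_map.1 hm
        exact h1 j hj)
    rw [List.length_map, List.length_range, smul_eq_mul] at h2
    rw [show Q.length = _ from List.length_flatMap ..]
    exact h2
  let W : List Str := (keepQ Φ Q).map wq
  have hW : W.length < 2 ^ N := by
    rw [List.length_map]
    have h1 := keepQ_length (Φ := Φ) Q
    have h2 : Q.length * (Q.length + 1) ≤ P * (2 * T) * (P * (2 * T) + 1) :=
      Nat.mul_le_mul hQlen (Nat.succ_le_succ hQlen)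
    omega
  have hpre : ∀ M : ℕ, ∃ u : Str, u.length = N ∧
      (if M = 2 * N then bstr N i.1 else List.replicate (M - N) true) ++ u ∉ W :=
    fun M => exists_fresh W hW _
  choose u hu1 hu2 using hpre
  let κ₁ : ℕ → Str := fun M => if M < 2 * N then List.replicate M true else
    (if M = 2 * N then bstr N i.1 else List.replicate (M - N) true) ++ u M
  have hκ₁ : ∀ M, (κ₁ M).length = M := by
    intro M
    simp only [κ₁]
    split_ifs with h1 h2
    · exact List.length_replicate
    · rw [List.length_append, bstr_length, hu1]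
      omega
    · rw [List.length_append, List.length_replicate, hu1]
      omega
  let x₁ : PB Φ := recPB (Gn F x κ₁ (2 * N) Q (borc F x0))
  have hx₁ : ∀ M, x₁ M = Gn F x κ₁ (2 * N) Q (borc F x0) M x₁ :=
    recPB_eq (Gn_congr hF x κ₁ (2 * N) Q (borc F x0))
  have hx₁0 : ∀ M, x₁ M = Gn F x0 κ₁ (2 * N) Q (borc F x0) M x₁ := by
    intro M
    rw [hx₁ M]
    unfold Gn
    by_cases hM : M < 2 * N
    · rw [if_pos hM, if_pos hM]
      simp only [x0, if_pos hM]
    · rw [if_neg hM, if_neg hM]
  have hkeep := balg_keep (κ := κ₁) hF (by have := le_max_left b n₀; omega)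
    (fun M hM => by simp only [x0]; rw [if_neg (by omega)]) hx₁0 (fun M hM => by
      simp only [κ₁]
      rw [if_neg (by omega)]
      exact hu2 M)
  obtain ⟨b2, hb2⟩ : ∃ b2, ∀ w ∈ Q, w.length < b2 :=
    ⟨(Q.map List.length).sum + 1, fun w hw => Nat.lt_succ_of_le
      (List.single_le_sum (fun _ _ => Nat.zero_le _) _ (List.mem_map_of_mem hw))⟩
  refine ⟨x₁, max b2 (2 * N + 1), fun M => ?_, ?_, ?_, ?_⟩
  · rw [hx₁ M]
    exact Gn_ok hx hκ₁ _ _ _ _ _
  · have := le_max_right b2 (2 * N + 1)
    have := le_max_left b n₀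
    omega
  · intro M hM
    have := le_max_left b n₀
    rw [hx₁ M]
    unfold Gn
    rw [if_pos (by omega)]
  · intro x' hx' hag
    have hQ : ∀ s ∈ Q, B0 s = balg F x' s := by
      intro s hs
      show balg F x0 s = balg F x' s
      rw [← hkeep s hs]
      refine (balg_local hF (n := s.length) (fun M hM => ?_) le_rfl).symm
      have h2 := hb2 _ hs
      have h3 := le_max_left b2 (2 * N + 1)
      exact hag M (by omega)
    have hkey : ky x' (2 * N) = bstr N i.1 ++ u (2 * N) := by
      have h3 := le_max_right b2 (2 * N + 1)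
      unfold ky
      rw [hag _ (by omega), hx₁]
      unfold Gn
      rw [if_neg (by omega)]
      simp only [κ₁]
      rw [if_neg (by omega), if_pos trivial]
    have hmemL := inst_mem (κ := ky x') (hx' (2 * N)).1 hkey
    refine ⟨n, by have := le_max_right b n₀; omega, fun m hm1 hmP => ?_⟩
    obtain ⟨h1, h2, h3⟩ := hc m hm1 hmP
    have hmP' : m ≤ P := hmP
    have hsub : ∀ s ∈ allQ B0 Mf MD pf pD q (zs m), B0 s = balg F x' s := by
      intro s hs
      refine hQ s (List.mem_flatMap.2 ⟨m - 1, List.mem_range.2 (by omega), ?_⟩)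
      rw [Nat.sub_add_cancel hm1]
      exact List.mem_append_left _ hs
    have hsub' : ∀ s ∈ allQ B0 Mf MD pf pD q (zs' m), B0 s = balg F x' s := by
      intro s hs
      refine hQ s (List.mem_flatMap.2 ⟨m - 1, List.mem_range.2 (by omega), ?_⟩)
      rw [Nat.sub_add_cancel hm1]
      exact List.mem_append_right _ hs
    obtain ⟨_, _, h6⟩ := run_congr hsub
    obtain ⟨_, _, h7⟩ := run_congr hsub'
    refine ⟨zs m, zs' m, List.length_ofFn, List.length_ofFn, ?_, ?_, ?_, ?_, ?_⟩
    · obtain ⟨j, hj⟩ := h1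
      exact ⟨inst N (c m j), (List.mem_ofFn' _ _).2 ⟨j, rfl⟩, (hmemL _).2 hj⟩
    · intro z hz hzL
      obtain ⟨j, rfl⟩ := (List.mem_ofFn' _ _).1 hz
      exact h2 j ((hmemL _).1 hzL)
    · intro z hz
      exact (List.length_take_le _ _).trans ((eval_mono q (hzs m z hz)).trans (by simp only; omega))
    · intro z hz
      exact (List.length_take_le _ _).trans ((eval_mono q (hzs' m z hz)).trans (by simp only; omega))
    · rw [← h6, ← h7]
      exact h3

end OAlg.KB
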