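import Pool.Agent.Work.MP_609cce_lc_alg.RunT
import Pool.Agent.Work.MP_609cce_lc_alg.Bound
import Pool.Agent.Work.MP_609cce_lc_alg.Base
import Pool.Agent.Work.MP_609cce_lc_eth.EStage

/-!
# One stage: all advice strings are defeated at once
-/

namespace OAlg

open ORDist hiding stepA stepR stepA_congr stepR_congr orc lang
open OEth hiding orc lang par orc_local stage
open Orc Finset
open Classical

variable {Φ : Fields}

/-- the initial state -/
noncomputable def st0 (Φ : Fields) (n N : ℕ) :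
    Stt (IX n) (IY n N) (IT n N) Str (C := IC n N) CW (CU Φ) (CM Φ) where
  E := E0
  S := ∅
  v := fun _ => false
  κ := fun _ => none
  Sa := fun _ => ∅
  va := fun _ _ => 0
  aa := fun _ _ => false

/-- **One stage.** -/
theorem stage_aux (K : Cubes Φ) (Mach : ℕ → OProc) {p : Par Φ} (hp : p.WF) (M : OProc)
    {n : ℕ} (hokA : ∀ N, (agW K Mach p n N).OK E0 (2 ^ n))
    (α t : ℕ) (h1 : α + 4 ≤ 2 ^ n) (h2 : (α + 4) * t * ((α + 4) * t + 2) ≤ 2 ^ n)
    (h3 : 2 * ((α + 4) * t) ≤ 2 ^ n) :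
    ∃ (p' : Par Φ) (b : ℕ), p'.WF ∧ n < b ∧ Agr p p' n ∧
      ∀ p'' : Par Φ, p''.WF → Agr p' p'' b → ∀ a : Str, a.length ≤ α →
        ∃ x : Str, x.length = n ∧
          sim (aorc Mach p'') M (pairStr (x, a)) t [] ≠ (p''.par.base x).headD false := by
  obtain ⟨l, hl, hlm⟩ := exists_inputs n (α + 4) h1
  set N : ℕ := n + t + 1 with hN
  set D : ℕ := (α + 4) * t with hD
  set H : ℕ := 2 ^ n with hH
  have hH0 : (0 : ℝ) < H := by
    rw [hH]
    positivity
  set δ : ℝ := ((D : ℝ) + 2) / H with hδ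
  have hδ0 : 0 ≤ δ := by positivity
  have hD1 : ∀ a : ℕ, H ≤ a + D → 1 ≤ δ * a := by
    intro a ha
    have h4 : (H : ℝ) ≤ 2 * a := by
      have : H ≤ 2 * a := by omega
      exact_mod_cast this
    rw [hδ, div_mul_eq_mul_div, le_div_iff₀ hH0]
    have h5 : (0 : ℝ) ≤ D := Nat.cast_nonneg D
    have h6 : (0 : ℝ) ≤ a := Nat.cast_nonneg a
    nlinarith [mul_nonneg h5 h6]
  have hD2 : (D : ℝ) ≤ δ * H := by
    rw [hδ, div_mul_cancel₀ _ hH0.ne']
    linarith
  have hpow : (1 + δ) ^ D ≤ 4 := by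
    refine one_add_pow_le hδ0 ?_
    rw [hδ, div_mul_eq_mul_div, div_le_one hH0]
    have : (D + 2) * D ≤ H := by rw [mul_comm]; exact h2
    exact_mod_cast this
  set G := agW K Mach p n N with hG
  have hok : G.OK E0 H := hokA N
  have hres : Res G E0 := res_agW K Mach hp
  have hbase : ∀ xs : List (IX n), xs.Nodup → BaseSplit G E0 H D δ xs :=
    fun xs hxs => base_split hok hδ0 hD1 hD2 hxs
  -- the trees of the runs
  have hrun : ∀ (a : Str) (x : IX n), ∃ tr : ATree Str (IC n N) (CU Φ) (CM Φ), Bd G N tr t ∧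
      ∀ θ : WW Φ n N, (∀ c, θ.1 c ∈ E0 c) → G.VV θ.2.2 →
        tr.eval G θ = sim (aorc Mach (par p θ)) M (pairStr (x.1, a)) t [] :=
    fun a x => exists_run K Mach hp M (pairStr (x.1, a)) (by omega)
  choose tr htr1 htr2 using hrun
  let L : Str → List (IX n × ATree Str (IC n N) (CU Φ) (CM Φ)) := fun a =>
    l.map fun x => (x, tr a x)
  have hL1 : ∀ a, (L a).map Prod.fst = l := by
    intro a
    simp only [L, List.map_map]
    conv_rhs => rw [← List.map_id l]
    rfl
  have hL2 : ∀ a, (L a).length = α + 4 := by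
    intro a
    simp only [L, List.length_map, hlm]
  -- the initial state
  have hV0 : Valid G E0 H 0 (st0 Φ n N) := by
    refine ⟨⟨fun c => Subset.refl _, (card_empty).le, fun x => Or.inl rfl, fun x => Or.inl ?_,
      fun y => Or.inl ?_, fun t => Or.inl ⟨?_, notMem_empty t⟩,
      fun t ht => absurd ht (notMem_empty t)⟩, fun c w hw => ?_⟩
    · exact (hok.eu x).trans (Nat.le_add_right _ _)
    · exact (hok.eo y).trans (Nat.le_add_right _ _)
    · exact hok.eg t
    · have h4 := (G.cube c).B_card ∅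
      rw [card_empty, Nat.le_zero, card_eq_zero] at h4
      have h5 : w ∈ (G.cube c).B ∅ := hw
      rw [h4] at h5
      exact absurd h5 (notMem_empty w)
  have hcr0 : ∀ L, cr G L (st0 Φ n N) = 0 := by
    intro L
    unfold cr
    refine sum_eq_zero fun c _ => ?_
    split_ifs
    · have : (((st0 Φ n N).Sa c).card - ((G.cube c).B ((st0 Φ n N).Sa c)).card) = 0 := by
        show (∅ : Finset (CU Φ c)).card - _ = 0
        rw [card_empty, Nat.zero_sub]
      rw [this, Nat.mul_zero]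
    · rfl
  -- all worlds
  let Ω : Finset (WW Φ n N) := (Fintype.piFinset E0) ×ˢ ((univ : Finset (IP n N → Bool)) ×ˢ
    Fintype.piFinset fun c => (G.cube c).gs ((st0 Φ n N).Sa c) ((st0 Φ n N).va c)
      ((st0 Φ n N).aa c))
  have hΩ : ∀ θ, θ ∈ Ω ↔ (∀ c, θ.1 c ∈ E0 c) ∧ G.VV θ.2.2 := by
    intro θ
    simp only [Ω, mem_product, Fintype.mem_piFinset, mem_univ, true_and]
    refine and_congr_right fun _ => forall_congr' fun c => ?_
    rw [Cube.mem_gs]
    exact ⟨fun h => h.1, fun h => ⟨h, fun y hy => absurd hy (notMem_empty y)⟩⟩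
  have hΩW : ∀ θ ∈ Ω, InW G (st0 Φ n N) θ := by
    intro θ hθ
    obtain ⟨h4, h5⟩ := (hΩ θ).1 hθ
    exact ⟨h4, h5, fun t ht => absurd ht (notMem_empty t), fun q a h => by
      simp [st0] at h, fun c y hy => absurd hy (notMem_empty y)⟩
  set Θ : ℝ := 2 ^ Fintype.card (IP n N) * phi G [] (st0 Φ n N) with hΘ
  have htot : (Ω.card : ℝ) = Θ := by
    simp only [Ω]
    rw [card_product, card_product, Fintype.card_piFinset, Fintype.card_piFinset, card_univ,
      Fintype.card_fun, Fintype.card_bool, hΘ]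
    unfold phi mass pot gam
    show _ = 2 ^ Fintype.card (IP n N) * ((∏ c, ((E0 c).card : ℝ)) / 2 ^ (∅ : Finset _).card *
      _ * _)
    rw [card_empty, pow_zero, div_one, List.map_nil, List.prod_nil, mul_one]
    push_cast
    ring
  have hΘ0 : 0 < Θ := by
    rw [← htot]
    have hne : Ω.Nonempty := by
      have h4 : ∀ c : WC n N, (E0 c).Nonempty := by
        intro c
        refine card_pos.1 ?_
        rcases c with (x | x) | (y | t)
        · show 0 < ({[false], [true]} : Finset Str).card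
          simp
        · show 0 < (sF n).card
          rw [card_sF]; positivity
        · show 0 < (sF y.1.length).card
          rw [card_sF]; positivity
        · show 0 < (sF (maxlen t.1 + 1)).card
          rw [card_sF]; positivity
      choose η hη using h4
      refine ⟨(η, (fun _ => false), fun c => 0), (hΩ _).2 ⟨hη, fun c => ?_⟩⟩
      exact (G.cube c).Van.zero_mem
    exact_mod_cast card_pos.2 hne
  have hpot : ∀ l : List (IX n), phi G l (st0 Φ n N) =
      phi G [] (st0 Φ n N) * (1 / 2) ^ l.length := by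
    intro l
    have h5 : pot (E0 : WC n N → Finset Str) l = (1 / 2) ^ l.length := by
      induction l with
      | nil => simp [pot]
      | cons x l ih =>
        unfold pot at ih ⊢
        rw [List.map_cons, List.prod_cons, ih, List.length_cons, pow_succ, hok.eb x]
        norm_num
        ring
    unfold phi
    show mass E0 ∅ * pot E0 l * _ = mass E0 ∅ * pot E0 [] * _ * _
    rw [h5]
    simp only [pot, List.map_nil, List.prod_nil]
    ring
  let good : Str → WW Φ n N → Prop := fun a θ =>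
    ∀ z ∈ L a, z.2.eval G θ = (θ.1 (cb z.1)).headD false
  have hbad : ∀ a, ((Ω.filter (good a)).card : ℝ) ≤ Θ * ((1 / 2) ^ (α + 4) * 4) := by
    intro a
    have h4 := list_bound (L := N) (t := t) hok hδ0 hbase hres (L a) (by rw [hL1]; exact hl)
      (fun z hz => by
        obtain ⟨x, _, rfl⟩ := List.mem_map.1 hz
        exact htr1 a x) 0 (st0 Φ n N) hV0 (by rw [hcr0, hL2]; omega) (Ω.filter (good a))
      (fun θ hθ => ⟨hΩW θ (mem_filter.1 hθ).1, (mem_filter.1 hθ).2⟩)
    refine h4.trans ?_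
    rw [hL1, hpot, hlm, hcr0, hL2, Nat.zero_add]
    have h5 : (0 : ℝ) ≤ 2 ^ Fintype.card (IP n N) * phi G [] (st0 Φ n N) := hΘ0.le
    calc (2 : ℝ) ^ Fintype.card (IP n N) * (phi G [] (st0 Φ n N) * (1 / 2) ^ (α + 4) *
          (1 + δ) ^ ((α + 4) * t))
        = 2 ^ Fintype.card (IP n N) * phi G [] (st0 Φ n N) *
          ((1 / 2) ^ (α + 4) * (1 + δ) ^ D) := by rw [hD]; ring
      _ ≤ 2 ^ Fintype.card (IP n N) * phi G [] (st0 Φ n N) * ((1 / 2) ^ (α + 4) * 4) := by
          refine mul_le_mul_of_nonneg_left ?_ h5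
          exact mul_le_mul_of_nonneg_left hpow (by positivity)
      _ = _ := by rw [hΘ]
  -- a world in which all advice strings fail
  obtain ⟨θ, hθ1, hθ2⟩ : ∃ θ ∈ Ω, ∀ a ∈ advF α, ¬ good a θ := by
    by_contra hcon
    have h4 : Ω ⊆ (advF α).biUnion fun a => Ω.filter (good a) := by
      intro θ hθ
      by_contra hno
      exact hcon ⟨θ, hθ, fun a ha hR => hno (mem_biUnion.2 ⟨a, ha, mem_filter.2 ⟨hθ, hR⟩⟩)⟩
    have h5 : (Ω.card : ℝ) ≤ ∑ a ∈ advF α, Θ * ((1 / 2) ^ (α + 4) * 4) := by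
      have h6 : (Ω.card : ℝ) ≤ ∑ a ∈ advF α, ((Ω.filter (good a)).card : ℝ) := by
        exact_mod_cast (card_le_card h4).trans card_biUnion_le
      exact h6.trans (sum_le_sum fun a _ => hbad a)
    rw [sum_const, nsmul_eq_mul, htot] at h5
    have h6 : ((advF α).card : ℝ) ≤ 2 ^ (α + 1) := by exact_mod_cast card_advF α
    have h7 : ((advF α).card : ℝ) * (Θ * ((1 / 2) ^ (α + 4) * 4)) ≤
        2 ^ (α + 1) * (Θ * ((1 / 2) ^ (α + 4) * 4)) :=
      mul_le_mul_of_nonneg_right h6 (by positivity)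
    have h8 : (2 : ℝ) ^ (α + 1) * (Θ * ((1 / 2) ^ (α + 4) * 4)) = Θ / 2 := by
      rw [pow_add (2 : ℝ) α 1, pow_add (1 / 2 : ℝ) α 4]
      have h9 : (2 : ℝ) ^ α * (1 / 2) ^ α = 1 := by
        rw [← mul_pow]
        norm_num
      calc (2 : ℝ) ^ α * 2 ^ 1 * (Θ * ((1 / 2) ^ α * (1 / 2) ^ 4 * 4)) =
            (2 ^ α * (1 / 2) ^ α) * (Θ * (2 ^ 1 * (1 / 2) ^ 4 * 4)) := by ring
        _ = Θ / 2 := by rw [h9]; ring
    linarith
  -- the new parameters
  obtain ⟨hη, hV⟩ := (hΩ θ).1 hθ1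
  have hw : (par p θ).WF := par_wf_aux K hp hη hV
  refine ⟨par p θ, N + 1, hw, by omega, par_agr_aux p θ, fun p'' hp'' hag a ha => ?_⟩
  have h4 := hθ2 a (mem_advF.2 ha)
  obtain ⟨pr, hpr, hne⟩ : ∃ pr ∈ L a, ¬ (pr.2.eval G θ = (θ.1 (cb pr.1)).headD false) := by
    by_contra hno
    exact h4 fun pr hpr => by
      by_contra hne
      exact hno ⟨pr, hpr, hne⟩
  obtain ⟨x, hx, rfl⟩ := List.mem_map.1 hpr
  refine ⟨x.1, x.2, fun he => hne ?_⟩
  simp only
  rw [htr2 a x θ hη hV]
  have h5 : sim (aorc Mach (par p θ)) M (pairStr (x.1, a)) t [] =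
      sim (aorc Mach p'') M (pairStr (x.1, a)) t [] :=
    sim_congr M _ t [] fun q hq => aorc_local hw hp'' hag (by omega)
  rw [h5, he, ← hag.par.base x.1 (by have := x.2; omega)]
  show ((OEth.par p.par θ.1 θ.2.1).base x.1).headD false = _
  rw [par_base]
  have h6 : θ.1 (cb x) ∈ ({[false], [true]} : Finset Str) := hη (cb x)
  rw [mem_insert, mem_singleton] at h6
  rcases h6 with h6 | h6 <;> rw [h6] <;> rfl

end OAlg
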