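import Pool.Agent.Work.MP_609cce_lc_alg.Ext
import Pool.Agent.Work.MP_609cce_lc_alg.Stage
import Pool.Agent.Work.MP_609cce_lc_eth.ELimit

/-!
# The limit of the stages
-/

namespace OAlg

open ORDist hiding stepA stepR stepA_congr stepR_congr orc lang

variable {Φ : Fields}

/-- the final parameters -/
theorem exists_final_aux (K : Cubes Φ) (Mach : ℕ → OProc)
    (hok : ∀ (p : OAlg.Par Φ), p.WF → ∀ n N : ℕ, 1 ≤ n → (agW K Mach p n N).OK OEth.E0 (2 ^ n))
    {MM : Set OProc} (hMM : MM.Countable) :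
    ∃ p : OAlg.Par Φ, p.WF ∧ ∀ M ∈ MM, ∀ n0, ∃ n ≥ n0, ∀ a : Str, a.length ≤ 2 ^ (n / 5) →
      ∃ x : Str, x.length = n ∧
        sim (aorc Mach p) M (pairStr (x, a)) (2 ^ (n / 5)) [] ≠ (p.par.base x).headD false := by
  classical
  -- the initial parameters
  let q0 : OEth.Par := ⟨fun x => List.replicate (x.length + 1) false,
    fun T => List.replicate (maxlen T + 1) false, fun _ => false,
    fun y => List.replicate y.length false⟩
  have hq0 : q0.WF := ⟨fun x => List.length_replicate, fun T => List.length_replicate,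
    fun y => List.length_replicate⟩
  let p0 : OAlg.Par Φ := ⟨q0, fun _ _ _ => 0⟩
  have hp0 : p0.WF := ⟨hq0, fun _ _ => KB.van_zero _⟩
  have hcM : Countable MM := hMM.to_subtype
  rcases isEmpty_or_nonempty MM with hE | hne
  · exact ⟨p0, hp0, fun M hM => (hE.false ⟨M, hM⟩).elim⟩
  obtain ⟨E, hE⟩ := exists_surjective_nat (MM × ℕ)
  let S := {z : OAlg.Par Φ × ℕ // z.1.WF}
  have hstep : ∀ (i : ℕ) (z : S), ∃ z' : S, z.1.2 < z'.1.2 ∧ OAlg.Agr z.1.1 z'.1.1 z.1.2 ∧
      ∃ n ≥ (E i).2, ∀ p'' : OAlg.Par Φ, p''.WF → OAlg.Agr z'.1.1 p'' z'.1.2 →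
        ∀ a : Str, a.length ≤ 2 ^ (n / 5) → ∃ x : Str, x.length = n ∧
          sim (aorc Mach p'') (E i).1.1 (pairStr (x, a)) (2 ^ (n / 5)) [] ≠
            (p''.par.base x).headD false := by
    intro i z
    set n : ℕ := z.1.2 + (E i).2 + 25 with hn
    obtain ⟨h1, h2, h3⟩ := OEth.numbers (n := n) (by omega)
    obtain ⟨p', b, hp', hb, hag, hbad⟩ := stage_aux K Mach z.2 (E i).1.1 (n := n)
      (fun N => hok z.1.1 z.2 n N (by omega)) (2 ^ (n / 5)) (2 ^ (n / 5)) h1 h2 h3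
    exact ⟨⟨(p', b), hp'⟩, by show z.1.2 < b; omega, hag.mono (by omega), n, by omega, hbad⟩
  choose next hn1 hn2 hn3 using hstep
  let z0 : S := ⟨(p0, 0), hp0⟩
  let s : ℕ → S := fun i => Nat.rec z0 (fun i z => next i z) i
  have hs : ∀ i, s (i + 1) = next i (s i) := fun i => rfl
  have hb : ∀ i, (s i).1.2 < (s (i + 1)).1.2 := fun i => by rw [hs]; exact hn1 i (s i)
  have hbm : StrictMono fun i => (s i).1.2 := strictMono_nat_of_lt_succ hb
  have hbi : ∀ i, i ≤ (s i).1.2 := fun i => hbm.le_apply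
  have hag : ∀ i j, i ≤ j → OAlg.Agr (s i).1.1 (s j).1.1 (s i).1.2 := by
    intro i j hij
    induction j, hij using Nat.le_induction with
    | base => exact Agr.refl _ _
    | succ j hij ih =>
      refine ih.trans ?_
      rw [hs]
      exact (hn2 j (s j)).mono (hbm.monotone hij)
  have hag2 : ∀ i j k : ℕ, k ≤ (s i).1.2 → k ≤ (s j).1.2 →
      OAlg.Agr (s i).1.1 (s j).1.1 k := by
    intro i j k h1 h2
    rcases le_total i j with h | h
    · exact (hag i j h).mono h1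
    · exact ((hag j i h).mono h2).symm
  let p : OAlg.Par Φ := ⟨⟨fun x => (s (x.length + 1)).1.1.par.base x,
    fun T => (s (maxlen T + 1)).1.1.par.g T, fun γ => (s (γ.length + 1)).1.1.par.pad γ,
    fun y => (s (y.length + 1)).1.1.par.om y⟩, fun w m => (s (m + 1)).1.1.V w m⟩
  have hp : ∀ i, OAlg.Agr (s i).1.1 p (s i).1.2 := by
    intro i
    refine ⟨⟨fun w hw => ?_, fun T hT => ?_, fun γ hγ => ?_, fun y hy => ?_⟩, fun w m hm => ?_⟩
    · exact (hag2 i (w.length + 1) (w.length + 1) (by omega) (hbi _)).par.base w (by omega)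
    · exact (hag2 i (maxlen T + 1) (maxlen T + 1) (by omega) (hbi _)).par.g T (by omega)
    · exact (hag2 i (γ.length + 1) (γ.length + 1) (by omega) (hbi _)).par.pad γ (by omega)
    · exact (hag2 i (y.length + 1) (y.length + 1) (by omega) (hbi _)).par.om y (by omega)
    · exact (hag2 i (m + 1) (m + 1) (by omega) (hbi _)).V w m (by omega)
  have hwf : p.WF := ⟨⟨fun x => (s (x.length + 1)).2.wf.base_len x,
    fun T => (s (maxlen T + 1)).2.wf.g_len T, fun y => (s (y.length + 1)).2.wf.om_len y⟩,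
    fun w m => (s (m + 1)).2.van w m⟩
  refine ⟨p, hwf, fun M hM n0 => ?_⟩
  obtain ⟨i, hi⟩ := hE (⟨M, hM⟩, n0)
  obtain ⟨n, hn, hbad⟩ := hn3 i (s i)
  refine ⟨n, by rw [hi] at hn; exact hn, ?_⟩
  have h1 := hbad p hwf (by rw [← hs]; exact hp (i + 1))
  rw [hi] at h1
  exact h1

end OAlg
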