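import Pool.Agent.Work.MP_609cce_lc_alg.Limit
import Pool.Agent.Work.MP_609cce_lc_alg.EPT
import Pool.Agent.Work.MP_609cce_lc_eth.EMain

/-!
# Assembly
-/

namespace OAlg

open ORDist hiding stepA stepR stepA_congr stepR_congr orc lang
open PTime

theorem alg_main_aux {Φ : Fields} (K : Cubes Φ)
    (hok : ∀ (Mach : ℕ → OProc) (p : OAlg.Par Φ), p.WF → ∀ n N : ℕ, 1 ≤ n →
      (agW K Mach p n N).OK OEth.E0 (2 ^ n)) :
    ∃ (A : Str → Bool) (f : ExtF Φ), IsExt Φ A f ∧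
    (∃ L : Set Str, InUPO A L ∧ InUPO A Lᶜ ∧ ¬ InPPolyO (extO Φ A f) L ∧
      ∀ M : OProc, Computable M → ∀ n₀ : ℕ, ∃ n ≥ n₀, ∀ a : Str, a.length ≤ 2 ^ (n / 5) →
        ∃ x : Str, x.length = n ∧ ¬ ∃ v : Bool,
          RunsTo (extO Φ A f) M (pairStr (x, a)) (2 ^ (n / 5)) v ∧ (x ∈ L ↔ v = true)) ∧
    ∃ R : Set Str, InNPO A R ∧
      (∀ L, InNPO (extO Φ A f) L → ∃ g : Str → Str, PolyTime (fun x => x) (fun x => x) g ∧
        ∀ x, x ∈ L ↔ g x ∈ R) ∧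
      ∃ D : List Str → Str, PolyTimeO A seqBits D ∧
        (∀ (n : ℕ) (xs : List Str), (∀ x ∈ xs, x.length ≤ n) → (D xs).length ≤ n + 3) ∧
        ∀ xs, D xs ∈ R ↔ ∃ x ∈ xs, x ∈ R := by
  obtain ⟨Mach, hMach⟩ := exists_enum
  obtain ⟨p, hp, hfin⟩ := exists_final_aux K Mach (hok Mach)
    (MM := {M : OProc | PT M} ∪ {M : OProc | Computable M})
    ((countable_PT (α := Str × Str) (β := Bool × Str)).union OEth.countable_computable)
  refine ⟨orc Mach p, fx p (orc Mach p), KB.isExt_of_van _ hp.van,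
    ⟨test p, test_inUPO hp, test_compl_inUPO hp, ?_, fun M hM n₀ => ?_⟩,
    {x | lang Mach p x = true}, lang_inNPO hp, fun L hL => hard hMach hp hL,
    dist Mach p, dist_polyTime hp, fun n xs h => ?_, fun xs => dist_correct xs⟩
  · exact OEth.test_not_inPPolyO (base := p.par.base) fun M hM => hfin M (Or.inl hM)
  · obtain ⟨n, hn, hbad⟩ := hfin M (Or.inr hM) n₀
    refine ⟨n, hn, fun a ha => ?_⟩
    obtain ⟨x, hx, hne⟩ := hbad a ha
    refine ⟨x, hx, ?_⟩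
    rintro ⟨v, hv, hv2⟩
    apply hne
    refine (OEth.sim_of_runsTo hv).trans ?_
    rw [Bool.eq_iff_iff]
    exact hv2.symm
  · rw [dist_length hp]
    have := maxlen_le h
    omega

end OAlg
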