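import Pool.Agent.Work.MP_609cce_lc_alg.WDefs
import Pool.Agent.Work.MP_609cce_lc_eth.EMain
import Pool.Agent.Work.MP_609cce_lc_key.KMain

/-!
# Plan of the room ALG (statements only, with sorry; imported by nothing)
-/

namespace OAlgPlan

open ORDist hiding stepA stepR stepA_congr stepR_congr orc lang
open OEth hiding orc lang par
open Orc Finset OAlg
open Classical

/-! ### C (helper82), Cube.lean -/

theorem exists_cubes (Φ : Fields) : Nonempty (Cubes Φ) := sorry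

theorem isExt_fx {Φ : Fields} {p : OAlg.Par Φ} (hp : p.WF) (A : Str → Bool) :
    IsExt Φ A (fx p A) := sorry

/-! ### G2 (helper53), Base.lean -/

theorem base_split {X Y T P Q C : Type} {W U M : C → Type} [∀ c, AddCommGroup (M c)]
    [Fintype X] [Fintype Y] [Fintype T] [Fintype P] [Fintype C]
    [∀ c, Fintype (W c)] [∀ c, Fintype (U c)] [∀ c, Fintype (M c)]
    {G : AG X Y T P Q C W U M} {E0 : Co X Y T → Finset (List Bool)} {H D : ℕ} {δ : ℝ}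
    (hG : G.OK E0 H) (hδ : 0 ≤ δ) (hD1 : ∀ a : ℕ, H ≤ a + D → 1 ≤ δ * a)
    (hD2 : (D : ℝ) ≤ δ * H) {xs : List X} (hxs : xs.Nodup) : BaseSplit G E0 H D δ xs := sorry

/-! ### L (helper47), Bound.lean -/

theorem list_bound {X Y T P Q C : Type} {W U M : C → Type} [∀ c, AddCommGroup (M c)]
    [Fintype X] [Fintype Y] [Fintype T] [Fintype P] [Fintype C]
    [∀ c, Fintype (W c)] [∀ c, Fintype (U c)] [∀ c, Fintype (M c)]
    {G : AG X Y T P Q C W U M} {E0 : Co X Y T → Finset (List Bool)} {H D : ℕ} {δ : ℝ}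
    (hG : G.OK E0 H) (hδ : 0 ≤ δ) (hB : ∀ xs : List X, xs.Nodup → BaseSplit G E0 H D δ xs)
    (hR : Res G E0) (L t : ℕ) :
    ∀ l : List (X × ATree Q C U M), (l.map Prod.fst).Nodup → (∀ z ∈ l, Bd G L z.2 t) →
      ∀ (k : ℕ) (σ : Stt X Y T Q W U M), Valid G E0 H k σ → k + cr G L σ + l.length * t ≤ D →
      ∀ F : Finset (Wo X Y T P U M), (∀ θ ∈ F, InW G σ θ ∧
        ∀ z ∈ l, z.2.eval G θ = (θ.1 (cb z.1)).headD false) →
      (F.card : ℝ) ≤ 2 ^ Fintype.card P * (phi G (l.map Prod.fst) σ *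
        (1 + δ) ^ (cr G L σ + l.length * t)) := sorry

/-! ### W (helper68), World.lean -/

theorem par_wf {Φ : Fields} {n N : ℕ} {p : OAlg.Par Φ} {θ : WW Φ n N} (K : Cubes Φ)
    {Mach : ℕ → OProc} (hp : p.WF)
    (hη : ∀ c, θ.1 c ∈ E0 c) (hV : (agW K Mach p n N).VV θ.2.2) : (OAlg.par p θ).WF := sorry

theorem par_agr {Φ : Fields} {n N : ℕ} {p : OAlg.Par Φ} {θ : WW Φ n N} :
    OAlg.Agr p (OAlg.par p θ) n := sorry

theorem agW_ok {Φ : Fields} {n N : ℕ} {p : OAlg.Par Φ} (K : Cubes Φ)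
    (Mach : ℕ → OProc) (hp : p.WF) (hn : 1 ≤ n) :
    (agW K Mach p n N).OK E0 (2 ^ n) := sorry

/-! ### T (helper12), RunT.lean: atsim, aqtn as in OrcSim; `fx` of a world at a point of a cube of
the window is `AG.f`; at a cube of dimension `< n` the answer is the same in all worlds -/

theorem fx_eq_f {Φ : Fields} {n N : ℕ} {p : OAlg.Par Φ} (K : Cubes Φ) (Mach : ℕ → OProc)
    (θ : WW Φ n N) (c : IC n N) (y : CU Φ c) :
    fx (OAlg.par p θ) (OAlg.orc Mach (OAlg.par p θ)) c.1.1 c.1.2 y =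
      (agW K Mach p n N).f θ c y := sorry

theorem res_agW {Φ : Fields} {n N : ℕ} {p : OAlg.Par Φ} (K : Cubes Φ)
    (Mach : ℕ → OProc) (hp : p.WF) : Res (agW K Mach p n N) E0 := sorry

theorem exists_run {Φ : Fields} {n N : ℕ} {p : OAlg.Par Φ} (K : Cubes Φ)
    (Mach : ℕ → OProc) (hp : p.WF) (M : OProc) (inp : Str) {t : ℕ} (ht : t ≤ N) :
    ∃ tr : ATree Str (IC n N) (CU Φ) (CM Φ), Bd (agW K Mach p n N) N tr t ∧
      ∀ θ : WW Φ n N, (∀ c, θ.1 c ∈ E0 c) → (agW K Mach p n N).VV θ.2.2 →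
        tr.eval (agW K Mach p n N) θ = sim (aorc Mach (OAlg.par p θ)) M inp t [] := sorry

/-! ### S (helper28), Stage.lean -/

theorem stage {Φ : Fields} (Mach : ℕ → OProc) {p : OAlg.Par Φ} (hp : p.WF) (M : OProc)
    {n : ℕ} (hn : 1 ≤ n)
    (α t : ℕ) (h1 : α + 4 ≤ 2 ^ n) (h2 : (α + 4) * t * ((α + 4) * t + 2) ≤ 2 ^ n)
    (h3 : 2 * ((α + 4) * t) ≤ 2 ^ n) :
    ∃ (p' : OAlg.Par Φ) (b : ℕ), p'.WF ∧ n < b ∧ OAlg.Agr p p' n ∧
      ∀ p'' : OAlg.Par Φ, p''.WF → OAlg.Agr p' p'' b → ∀ a : Str, a.length ≤ α →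
        ∃ x : Str, x.length = n ∧
          sim (aorc Mach p'') M (pairStr (x, a)) t [] ≠ (p''.par.base x).headD false := sorry

/-! ### M (helper92), Limit.lean and MainA.lean -/

theorem exists_final {Φ : Fields} (Mach : ℕ → OProc) {MM : Set OProc} (hMM : MM.Countable) :
    ∃ p : OAlg.Par Φ, p.WF ∧ ∀ M ∈ MM, ∀ n0, ∃ n ≥ n0, ∀ a : Str, a.length ≤ 2 ^ (n / 5) →
      ∃ x : Str, x.length = n ∧
        sim (aorc Mach p) M (pairStr (x, a)) (2 ^ (n / 5)) [] ≠ (p.par.base x).headD false := sorry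

theorem alg_main (Φ : Fields) : ∃ (A : Str → Bool) (f : ExtF Φ), IsExt Φ A f ∧
    (∃ L : Set Str, InUPO A L ∧ InUPO A Lᶜ ∧ ¬ InPPolyO (extO Φ A f) L ∧
      ∀ M : OProc, Computable M → ∀ n₀ : ℕ, ∃ n ≥ n₀, ∀ a : Str, a.length ≤ 2 ^ (n / 5) →
        ∃ x : Str, x.length = n ∧ ¬ ∃ v : Bool,
          RunsTo (extO Φ A f) M (pairStr (x, a)) (2 ^ (n / 5)) v ∧ (x ∈ L ↔ v = true)) ∧
    ∃ R : Set Str, InNPO A R ∧
      (∀ L, InNPO (extO Φ A f) L → ∃ g : Str → Str, PolyTime (fun x => x) (fun x => x) g ∧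
        ∀ x, x ∈ L ↔ g x ∈ R) ∧
      ∃ D : List Str → Str, PolyTimeO A seqBits D ∧
        (∀ (n : ℕ) (xs : List Str), (∀ x ∈ xs, x.length ≤ n) → (D xs).length ≤ n + 3) ∧
        ∀ xs, D xs ∈ R ↔ ∃ x ∈ xs, x ∈ R := sorry

/-! ### B1, B2 (helper73) -/

theorem key_alg_main (Φ : Fields) : ∃ (B : Str → Bool) (f : ExtF Φ), IsExt Φ B f ∧
    (∀ L : Set (List Bool), InPSPACEO (extO Φ B f) L ∨ InNPO (extO Φ B f) L →
      InUPO B L ∧ InUPO B Lᶜ) ∧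
    (∃ L : Set (List Bool), InNPO B L ∧ ¬ InPO (extO Φ B f) L) ∧
    ∀ R : Set (List Bool), (∀ L : Set (List Bool), InNPO B L → ∃ g : List Bool → List Bool,
        PolyTimeO (extO Φ B f) (fun x => x) g ∧ ∀ x, x ∈ L ↔ g x ∈ R) →
      ∀ (R' : Set (List Bool)) (D : List (List Bool) → List Bool),
        PolyTimeO (extO Φ B f) seqBits D →
        ((∀ xs, xs ≠ [] → (D xs ∈ R' ↔ ∃ x ∈ xs, x ∈ R)) ∨
          ∀ xs, xs ≠ [] → (D xs ∈ R' ↔ ∀ x ∈ xs, x ∈ R)) →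
        ∀ (q : Polynomial ℕ) (n₀ : ℕ), ∃ n ≥ n₀, ∀ m, 1 ≤ m → m ≤ q.eval n →
          ∃ xs : List (List Bool), xs.length = m ∧ (∀ x ∈ xs, x.length ≤ n) ∧
            m ≤ (D xs).length := sorry

end OAlgPlan
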