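import Pool.Agent.Work.MP_609cce_lc_alg.WDefs

/-!
# Runs of procedures with the extended oracle as decision trees
-/

namespace OAlg

open ORDist hiding stepA stepR stepA_congr stepR_congr orc lang
open OEth hiding orc lang par
open Orc Finset
open Classical

/-! ### composition of trees -/

section tree

variable {X Y T P Q C : Type} {W U M : C → Type}

/-- continue with `k0` or `k1` at the leaves -/
def ATree.bind (t k0 k1 : ATree Q C U M) : ATree Q C U M :=
  match t with
  | .ret b => bif b then k1 else k0
  | .ask q t0 t1 => .ask q (t0.bind k0 k1) (t1.bind k0 k1)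
  | .alg c y k => .alg c y fun α => (k α).bind k0 k1

variable [∀ c, AddCommGroup (M c)] [Fintype X] [Fintype Y] [Fintype T] [Fintype P] [Fintype C]
  [∀ c, Fintype (W c)] [∀ c, Fintype (U c)] [∀ c, Fintype (M c)]

theorem ATree.eval_bind (G : AG X Y T P Q C W U M) (θ : Wo X Y T P U M)
    (t k0 k1 : ATree Q C U M) :
    (t.bind k0 k1).eval G θ = bif t.eval G θ then k1.eval G θ else k0.eval G θ := by
  induction t with
  | ret b => cases b <;> rfl
  | ask q t0 t1 ih0 ih1 =>
    simp only [ATree.bind, ATree.eval]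
    cases G.B θ q with
    | false => simpa using ih0
    | true => simpa using ih1
  | alg c y k ih =>
    simp only [ATree.bind, ATree.eval]
    exact ih _

theorem Bd.bind {G : AG X Y T P Q C W U M} {L : ℕ} {t k0 k1 : ATree Q C U M} {d d' : ℕ}
    (h : Bd G L t d) (h0 : Bd G L k0 d') (h1 : Bd G L k1 d') :
    Bd G L (t.bind k0 k1) (d + d') := by
  induction h with
  | ret b d =>
    cases b
    · exact h0.mono le_rfl _ (by omega)
    · exact h1.mono le_rfl _ (by omega)
  | ask q t0 t1 d _ _ ih0 ih1 =>
    have e : d + 1 + d' = d + d' + 1 := by omega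
    rw [e]
    exact Bd.ask q _ _ _ ih0 ih1
  | alg c y k d hc _ ih =>
    rw [Nat.add_assoc]
    exact Bd.alg c y _ _ hc ih

end tree

variable {Φ : Fields} {n N : ℕ}

/-- the trees of a stage -/
abbrev AT (Φ : Fields) (n N : ℕ) := ATree Str (IC n N) (CU Φ) (CM Φ)

/-! ### the clocked simulation -/

/-- the tree of the clocked simulation, `QT` being the trees of the queries -/
noncomputable def atsim (QT : Str → AT Φ n N) (M : OProc) (inp : Str) (t : ℕ) (a : Str) :
    AT Φ n N :=
  if (M (inp, a)).1 = true then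
    if _h : (M (inp, a)).2.length < t then
      (QT (M (inp, a)).2).bind (atsim QT M inp (t - (M (inp, a)).2.length - 1) (a ++ [false]))
        (atsim QT M inp (t - (M (inp, a)).2.length - 1) (a ++ [true]))
    else .ret false
  else .ret (decide ((M (inp, a)).2 = [true]))
termination_by t

variable {G : AG (IX n) (IY n N) (IT n N) (IP n N) Str (IC n N) CW (CU Φ) (CM Φ)}

theorem atsim_eval {QT : Str → AT Φ n N} {A : Str → Bool} {θ : WW Φ n N} (M : OProc)
    (inp : Str) :
    ∀ (t : ℕ) (a : Str), (∀ q : Str, q.length < t → (QT q).eval G θ = A q) →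
      (atsim QT M inp t a).eval G θ = sim A M inp t a := by
  intro t
  induction t using Nat.strong_induction_on with
  | _ t ih =>
    intro a h
    rw [atsim.eq_def QT M inp t a, sim.eq_def A M inp t a]
    split_ifs with h1 h2
    · rw [ATree.eval_bind, h _ h2]
      have h3 := fun b => ih (t - (M (inp, a)).2.length - 1) (by omega) (a ++ [b])
        fun q hq => h q (by omega)
      rw [h3, h3]
      cases A (M (inp, a)).2 <;> rfl
    · rfl
    · rfl

theorem atsim_bd {QT : Str → AT Φ n N} {L : ℕ} (M : OProc) (inp : Str) :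
    ∀ (t : ℕ) (a : Str), (∀ q : Str, q.length < t → Bd G L (QT q) (q.length + 1)) →
      Bd G L (atsim QT M inp t a) t := by
  intro t
  induction t using Nat.strong_induction_on with
  | _ t ih =>
    intro a h
    rw [atsim.eq_def QT M inp t a]
    split_ifs with h1 h2
    · have h3 := fun b => ih (t - (M (inp, a)).2.length - 1) (by omega) (a ++ [b])
        fun q hq => h q (by omega)
      exact ((h _ h2).bind (h3 false) (h3 true)).mono le_rfl _ (by omega)
    · exact Bd.ret _ _
    · exact Bd.ret _ _

/-! ### the worlds -/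

variable {p : Par Φ} {θ : WW Φ n N} {Mach : ℕ → OProc}

theorem par_V (p : Par Φ) (θ : WW Φ n N) (c : IC n N) :
    (par p θ).V c.1.1 c.1.2 = θ.2.2 c := by
  show (if h : c.1.1.length < N ∧ n ≤ c.1.2 ∧ c.1.2 < N then θ.2.2 ⟨(c.1.1, c.1.2), h⟩
    else p.V c.1.1 c.1.2) = _
  rw [dif_pos c.2]

theorem par_wf_aux (K : Cubes Φ) (hp : p.WF) (hη : ∀ c, θ.1 c ∈ E0 c)
    (hV : (agW K Mach p n N).VV θ.2.2) : (par p θ).WF := by
  refine ⟨OEth.par_wf hp.wf hη, fun s m => ?_⟩
  show Van (if h : s.length < N ∧ n ≤ m ∧ m < N then θ.2.2 ⟨(s, m), h⟩ else p.V s m)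
  split_ifs with h
  · exact (K.mem_van s m _).1 (hV ⟨(s, m), h⟩)
  · exact hp.van s m

theorem par_agr_aux (p : Par Φ) (θ : WW Φ n N) : Agr p (par p θ) n := by
  refine ⟨OEth.par_agr, fun s k hk => ?_⟩
  show _ = if h : s.length < N ∧ n ≤ k ∧ k < N then θ.2.2 ⟨(s, k), h⟩ else p.V s k
  rw [dif_neg (by omega)]

/-- the value of the extension in a world -/
theorem fx_eq_f (K : Cubes Φ) (Mach : ℕ → OProc) (θ : WW Φ n N) (c : IC n N) (y : CU Φ c) :
    fx (par p θ) (orc Mach (par p θ)) c.1.1 c.1.2 y = (agW K Mach p n N).f θ c y := by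
  unfold fx AG.f
  rw [par_V]
  congr 1
  unfold mle
  refine Finset.sum_congr rfl fun w _ => ?_
  show _ = if orc Mach (par p θ) (List.ofFn w) then (K.Q c.1.1 c.1.2).del w y else 0
  rw [K.del_eq]

/-- the answers about the small cubes do not depend on the world -/
theorem aorc_small (hp : p.WF) (hw : (par p θ).WF) {s : Str} {j : ℕ} {ws : List Str}
    (h : ws.length < n) :
    aorc Mach (par p θ) (true :: algQ s j ws) = aorc Mach p (true :: algQ s j ws) := by
  unfold aorc alO
  rw [extO_alg, extO_alg]
  have e : fx (par p θ) (orc Mach (par p θ)) s ws.length = fx p (orc Mach p) s ws.length := by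
    funext z
    unfold fx
    have e1 : mle Φ (orc Mach (par p θ)) s ws.length = mle Φ (orc Mach p) s ws.length :=
      mle_congr (fun q hq => (orc_local hp hw (par_agr_aux p θ) (by omega)).symm) s
    rw [← (par_agr_aux p θ).V s ws.length h, e1]
  rw [e]

/-! ### the trees of the queries -/

/-- the tree of a query about an extension -/
noncomputable def algT (Mach : ℕ → OProc) (p : Par Φ) (s : Str) (j : ℕ) (ws : List Str) :
    AT Φ n N :=
  if h : s.length < N ∧ n ≤ ws.length ∧ ws.length < N then
    .alg ⟨(s, ws.length), h⟩ (fun k => Φ.dc s (ws.get k)) fun α =>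
      .ret ((Φ.cd s α).getD j false)
  else .ret (aorc Mach p (true :: algQ s j ws))

theorem algT_eval (K : Cubes Φ) (hp : p.WF) (hw : (par p θ).WF) {s : Str} {j : ℕ}
    {ws : List Str} (hq : (true :: algQ s j ws).length < N) :
    (algT (n := n) (N := N) Mach p s j ws).eval (agW K Mach p n N) θ =
      aorc Mach (par p θ) (true :: algQ s j ws) := by
  have h1 := length_le_seqBits ws
  have h2 := algQ_length s j ws
  rw [List.length_cons] at hq
  unfold algT
  by_cases h : s.length < N ∧ n ≤ ws.length ∧ ws.length < N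
  · rw [dif_pos h]
    simp only [ATree.eval]
    rw [← fx_eq_f K Mach θ ⟨(s, ws.length), h⟩]
    unfold aorc alO
    rw [extO_alg]
  · rw [dif_neg h]
    exact (aorc_small hp hw (by omega)).symm

theorem algT_bd (K : Cubes Φ) {L : ℕ} {s : Str} {j : ℕ} {ws : List Str}
    (hq : (true :: algQ s j ws).length ≤ L) :
    Bd (agW K Mach p n N) L (algT (n := n) (N := N) Mach p s j ws)
      ((true :: algQ s j ws).length + 1) := by
  have h1 := length_le_seqBits ws
  have h2 := algQ_length s j ws
  rw [List.length_cons] at hq ⊢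
  unfold algT
  by_cases h : s.length < N ∧ n ≤ ws.length ∧ ws.length < N
  · rw [dif_pos h]
    refine (Bd.alg (G := agW K Mach p n N) ⟨(s, ws.length), h⟩ _ _ 0 ?_
      fun α => Bd.ret _ _).mono le_rfl _ ?_
    · show ws.length < L
      omega
    · show ws.length + 1 + 0 ≤ _
      omega
  · rw [dif_neg h]
    exact Bd.ret _ _

/-- the tree of a query of the extended oracle, `QB` being the trees of the queries of the
oracle -/
noncomputable def xT (Mach : ℕ → OProc) (p : Par Φ) (QB : Str → AT Φ n N) (q : Str) :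
    AT Φ n N :=
  if h : ∃ q', q = false :: q' then QB h.choose
  else if h : ∃ z : Str × ℕ × List Str, q = true :: algQ z.1 z.2.1 z.2.2 then
    algT Mach p h.choose.1 h.choose.2.1 h.choose.2.2
  else .ret false

theorem xT_eval (K : Cubes Φ) (hp : p.WF) (hw : (par p θ).WF) {QB : Str → AT Φ n N} {q : Str}
    (hq : q.length < N)
    (hQB : ∀ q' : Str, q'.length < q.length →
      (QB q').eval (agW K Mach p n N) θ = orc Mach (par p θ) q') :
    (xT Mach p QB q).eval (agW K Mach p n N) θ = aorc Mach (par p θ) q := by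
  unfold xT
  by_cases h : ∃ q', q = false :: q'
  · rw [dif_pos h]
    have h1 := h.choose_spec
    have h2 := congrArg List.length h1
    rw [List.length_cons] at h2
    rw [hQB _ (by omega)]
    conv_rhs => rw [h1]
    unfold aorc alO
    rw [extO_false]
  · rw [dif_neg h]
    by_cases h' : ∃ z : Str × ℕ × List Str, q = true :: algQ z.1 z.2.1 z.2.2
    · rw [dif_pos h']
      have h1 := h'.choose_spec
      rw [algT_eval K hp hw (by rw [← h1]; exact hq), ← h1]
    · rw [dif_neg h']
      simp only [ATree.eval]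
      unfold aorc alO
      exact (extO_other _ _ (fun q' e => h ⟨q', e⟩) fun s j ws e => h' ⟨(s, j, ws), e⟩).symm

theorem xT_bd (K : Cubes Φ) {L : ℕ} {QB : Str → AT Φ n N} {q : Str} (hq : q.length ≤ L)
    (hQB : ∀ q' : Str, q'.length < q.length →
      Bd (agW K Mach p n N) L (QB q') (q'.length + 1)) :
    Bd (agW K Mach p n N) L (xT Mach p QB q) (q.length + 1) := by
  unfold xT
  by_cases h : ∃ q', q = false :: q'
  · rw [dif_pos h]
    have h1 := h.choose_spec
    have h2 := congrArg List.length h1
    rw [List.length_cons] at h2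
    exact (hQB _ (by omega)).mono le_rfl _ (by omega)
  · rw [dif_neg h]
    by_cases h' : ∃ z : Str × ℕ × List Str, q = true :: algQ z.1 z.2.1 z.2.2
    · rw [dif_pos h']
      have h1 := h'.choose_spec
      have h2 := algT_bd (n := n) (N := N) (Mach := Mach) (p := p) K (L := L)
        (s := h'.choose.1) (j := h'.choose.2.1) (ws := h'.choose.2.2) (by rw [← h1]; exact hq)
      rwa [← h1] at h2
    · rw [dif_neg h']
      exact Bd.ret _ _

/-- the tree of a query of the oracle (correct for `|q| < m`) -/
noncomputable def aqtn (Mach : ℕ → OProc) (p : Par Φ) : ℕ → Str → AT Φ n N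
  | 0, _ => .ret false
  | m + 1, q => match kparse q with
    | some z => atsim (xT Mach p (aqtn Mach p m)) (Mach z.2.2.1)
        (pairStr (z.2.2.2.1, z.2.2.2.2)) z.2.1 []
    | none => @ite _ (KType q) (Classical.propDecidable _) (.ret false)
        (.ask q (.ret false) (.ret true))

theorem aqtn_some {m : ℕ} {q : Str} {z : ℕ × ℕ × ℕ × Str × Str} (h : kparse q = some z) :
    (aqtn Mach p (m + 1) q : AT Φ n N) = atsim (xT Mach p (aqtn Mach p m)) (Mach z.2.2.1)
        (pairStr (z.2.2.2.1, z.2.2.2.2)) z.2.1 [] := by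
  rw [aqtn, h]

theorem aqtn_none {m : ℕ} {q : Str} (h : kparse q = none) :
    (aqtn Mach p (m + 1) q : AT Φ n N) = @ite _ (KType q) (Classical.propDecidable _)
      (.ret false) (.ask q (.ret false) (.ret true)) := by
  rw [aqtn, h]

theorem aqtn_eval (K : Cubes Φ) (hp : p.WF) (hw : (par p θ).WF) :
    ∀ (m : ℕ) (q : Str), q.length < m → q.length < N →
      (aqtn Mach p m q).eval (agW K Mach p n N) θ = orc Mach (par p θ) q := by
  intro m
  induction m with
  | zero => intro q hq; exact absurd hq (Nat.not_lt_zero _)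
  | succ m ih =>
    intro q hq hN
    cases hk : kparse q with
    | some z =>
      have hz := kparse_some hk
      have hlt := hz.lt
      rw [aqtn_some hk, atsim_eval (A := aorc Mach (par p θ)) _ _ _ _ fun q' hq' =>
        xT_eval K hp hw (by omega) fun q'' hq'' => ih q'' (by omega) (by omega)]
      obtain ⟨s, t, e, x, w⟩ := z
      simp only at hz hlt ⊢
      rw [Bool.eq_iff_iff, hz.1, orc_kQ hw]
      constructor
      · intro h
        exact ⟨s, t, e, x, rfl, hz.2, h⟩
      · rintro ⟨s', t', e', x', h2, h3, h4⟩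
        obtain ⟨h5, h6, h7, h8⟩ := rK_inj h2
        simp only at h4 h5 h6 h7 h8 ⊢
        subst h5 h6 h7 h8
        exact h4
    | none =>
      have hn := kparse_none hk
      rw [aqtn_none hk]
      by_cases hK : KType q
      · rw [if_pos hK]
        obtain ⟨r, w, rfl⟩ := hK
        show false = orc Mach (par p θ) (kQ r w)
        symm
        rw [Bool.eq_false_iff, Ne, orc_kQ hw]
        rintro ⟨s, t, e, x, h2, h3, h4⟩
        exact hn (s, t, e, x, w) ⟨by rw [h2], h3⟩
      · rw [if_neg hK]
        simp only [ATree.eval]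
        have e : (agW K Mach p n N).B θ q = orc Mach (par p θ) q := by
          show (if Sh N q then orc Mach (par p θ) q else false) = _
          rw [if_pos (show Sh N q from ⟨hN, hK⟩)]
        rw [e]
        cases orc Mach (par p θ) q <;> rfl

theorem aqtn_bd (K : Cubes Φ) {L : ℕ} : ∀ (m : ℕ) (q : Str), q.length < m → q.length ≤ L →
    Bd (agW K Mach p n N) L (aqtn Mach p m q) (q.length + 1) := by
  intro m
  induction m with
  | zero => intro q hq; exact absurd hq (Nat.not_lt_zero _)
  | succ m ih =>
    intro q hq hL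
    cases hk : kparse q with
    | some z =>
      have hz := kparse_some hk
      have hlt := hz.lt
      rw [aqtn_some hk]
      refine (atsim_bd _ _ _ _ fun q' hq' => xT_bd K (by omega) fun q'' hq'' =>
        ih q'' (by omega) (by omega)).mono le_rfl _ (by omega)
    | none =>
      rw [aqtn_none hk]
      by_cases hK : KType q
      · rw [if_pos hK]
        exact Bd.ret _ _
      · rw [if_neg hK]
        exact Bd.ask q _ _ _ (Bd.ret _ _) (Bd.ret _ _)

/-- **The bits at the points of the cubes are computed by trees.** -/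
theorem res_agW (K : Cubes Φ) (Mach : ℕ → OProc) (hp : p.WF) :
    Res (agW K Mach p n N) E0 := by
  intro c w
  have hlen : (List.ofFn w).length = c.1.2 := List.length_ofFn
  refine ⟨aqtn Mach p (c.1.2 + 1) (List.ofFn w), ?_, fun θ hη hV => ?_⟩
  · have h := aqtn_bd (n := n) (N := N) (Mach := Mach) (p := p) K (L := c.1.2) (c.1.2 + 1)
      (List.ofFn w) (by omega) (by omega)
    rw [hlen] at h
    exact h
  · exact aqtn_eval K hp (par_wf_aux K hp hη hV) _ _ (by omega)
      (by have := c.2.2.2; omega)

/-- **The trees of the runs.** -/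
theorem exists_run (K : Cubes Φ) (Mach : ℕ → OProc) (hp : p.WF) (M : OProc) (inp : Str)
    {t : ℕ} (ht : t ≤ N) :
    ∃ tr : ATree Str (IC n N) (CU Φ) (CM Φ), Bd (agW K Mach p n N) N tr t ∧
      ∀ θ : WW Φ n N, (∀ c, θ.1 c ∈ E0 c) → (agW K Mach p n N).VV θ.2.2 →
        tr.eval (agW K Mach p n N) θ = sim (aorc Mach (par p θ)) M inp t [] := by
  refine ⟨atsim (xT Mach p (aqtn Mach p N)) M inp t [], ?_, fun θ hη hV => ?_⟩
  · exact atsim_bd _ _ _ _ fun q hq => xT_bd K (by omega) fun q' hq' =>
      aqtn_bd K N q' (by omega) (by omega)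
  · exact atsim_eval _ _ _ _ fun q hq => xT_eval K hp (par_wf_aux K hp hη hV) (by omega)
      fun q' hq' => aqtn_eval K hp (par_wf_aux K hp hη hV) N q' (by omega) (by omega)

end OAlg
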