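import Pool.Agent.Work.MP_609cce_lc_alg.Game

/-!
# The guessing game with extensions: extension queries and decision trees
-/

namespace OAlg

open OEth Orc Finset
open Classical

set_option linter.unusedSectionVars false

/-! ### counting vanishing functions -/

theorem gs_sum {W U M : Type} [AddCommGroup M] [Fintype U] [Fintype M] (Q : Cube W U M)
    {S : Finset U} {y : U} (hy : y ∉ S) (v : U → M) (a : W → Bool) :
    ∑ α : M, (Q.gs (insert y S) (Function.update v y α) a).card = (Q.gs S v a).card := by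
  set F : Finset (U → M) := univ.filter fun V => V ∈ Q.Van ∧
    ∀ z ∈ S, V z = v z - Q.low (insert y S) a z with hF
  have hmemF : ∀ V, V ∈ F ↔ V ∈ Q.Van ∧ ∀ z ∈ S, V z = v z - Q.low (insert y S) a z := by
    intro V
    rw [hF, mem_filter]
    exact and_iff_right (mem_univ _)
  have h1 : F.card = ∑ α : M, (Q.gs (insert y S) (Function.update v y α) a).card := by
    rw [card_eq_sum_card_fiberwise (f := fun V : U → M => V y + Q.low (insert y S) a y)
      (t := (univ : Finset M)) fun _ _ => mem_coe.2 (mem_univ _)]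
    refine sum_congr rfl fun α _ => congrArg card ?_
    ext V
    rw [mem_filter, hmemF, Cube.mem_gs]
    constructor
    · rintro ⟨⟨h2, h3⟩, h4⟩
      refine ⟨h2, fun z hz => ?_⟩
      by_cases h : z = y
      · subst h
        rw [Function.update_self, ← h4]
        abel
      · rw [Function.update_of_ne h]
        exact h3 z ((mem_insert.1 hz).resolve_left h)
    · rintro ⟨h2, h3⟩
      refine ⟨⟨h2, fun z hz => ?_⟩, ?_⟩
      · have h4 := h3 z (mem_insert_of_mem hz)
        have hne : z ≠ y := fun h => hy (h ▸ hz)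
        rwa [Function.update_of_ne hne] at h4
      · have h4 := h3 y (mem_insert_self _ _)
        rw [Function.update_self] at h4
        rw [h4]
        abel
  rw [← h1]
  set B' := Q.B (insert y S) with hB'
  have hBs : Q.B S ⊆ B' := Q.B_mono _ _ (subset_insert _ _)
  set g : U → M := ∑ w ∈ B' \ Q.B S, if a w then Q.del w - Q.pp S w else 0 with hg
  have hgV : g ∈ Q.Van := by
    refine Q.Van.sum_mem fun w hw => ?_
    split_ifs
    · exact Q.pp_van S w (mem_sdiff.1 hw).2
    · exact Q.Van.zero_mem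
  have hgz : ∀ z ∈ S, g z = Q.low (insert y S) a z - Q.low S a z := by
    intro z hz
    have e1 : g z = ∑ w ∈ B' \ Q.B S, if a w then Q.del w z else 0 := by
      rw [hg, Finset.sum_apply]
      refine sum_congr rfl fun w hw => ?_
      split_ifs
      · rw [Pi.sub_apply, Q.pp_zero S w (mem_sdiff.1 hw).2 z hz, sub_zero]
      · rfl
    have e2 : Q.low (insert y S) a z = (∑ w ∈ B' \ Q.B S, if a w then Q.del w z else 0) +
        Q.low S a z := by
      unfold Cube.low
      exact (sum_sdiff hBs).symm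
    rw [e1, e2]
    abel
  refine card_nbij' (fun V => V + g) (fun V => V - g) ?_ ?_ ?_ ?_
  · intro V hV
    obtain ⟨h2, h3⟩ := (hmemF V).1 hV
    refine Cube.mem_gs.2 ⟨Q.Van.add_mem h2 hgV, fun z hz => ?_⟩
    show V z + g z = _
    rw [h3 z hz, hgz z hz]
    abel
  · intro V hV
    obtain ⟨h2, h3⟩ := Cube.mem_gs.1 hV
    refine (hmemF _).2 ⟨Q.Van.sub_mem h2 hgV, fun z hz => ?_⟩
    show V z - g z = _
    rw [h3 z hz, hgz z hz]
    abel
  · intro V _
    simp
  · intro V _
    simp

/-! ### trees -/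

/-- decision trees with queries and extension queries -/
inductive ATree (Q C : Type) (U M : C → Type) : Type
  | ret (b : Bool) : ATree Q C U M
  | ask (q : Q) (t0 t1 : ATree Q C U M) : ATree Q C U M
  | alg (c : C) (y : U c) (k : M c → ATree Q C U M) : ATree Q C U M

section game

variable {X Y T P Q C : Type} {W U M : C → Type} [∀ c, AddCommGroup (M c)]
  [Fintype X] [Fintype Y] [Fintype T] [Fintype P] [Fintype C]
  [∀ c, Fintype (W c)] [∀ c, Fintype (U c)] [∀ c, Fintype (M c)]

/-- the result of the tree in a world -/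
noncomputable def ATree.eval (G : AG X Y T P Q C W U M) (θ : Wo X Y T P U M) :
    ATree Q C U M → Bool
  | .ret b => b
  | .ask q t0 t1 => bif G.B θ q then t1.eval G θ else t0.eval G θ
  | .alg c y k => (k (G.f θ c y)).eval G θ

/-- the tree has cost at most `d` and uses cubes of level less than `L` only -/
inductive Bd (G : AG X Y T P Q C W U M) (L : ℕ) : ATree Q C U M → ℕ → Prop
  | ret (b : Bool) (d : ℕ) : Bd G L (.ret b) d
  | ask (q : Q) (t0 t1 : ATree Q C U M) (d : ℕ) : Bd G L t0 d → Bd G L t1 d →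
      Bd G L (.ask q t0 t1) (d + 1)
  | alg (c : C) (y : U c) (k : M c → ATree Q C U M) (d : ℕ) : G.lev c < L →
      (∀ α, Bd G L (k α) d) → Bd G L (.alg c y k) (G.wt c + d)

theorem Bd.mono {G : AG X Y T P Q C W U M} {L L' : ℕ} (hL : L ≤ L') {t : ATree Q C U M} {d : ℕ}
    (h : Bd G L t d) : ∀ d', d ≤ d' → Bd G L' t d' := by
  induction h with
  | ret b d => exact fun d' _ => Bd.ret b d'
  | ask q t0 t1 d _ _ ih0 ih1 =>
    intro d' hd
    obtain ⟨e, rfl⟩ : ∃ e, d' = e + 1 := ⟨d' - 1, by omega⟩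
    exact Bd.ask q t0 t1 e (ih0 e (by omega)) (ih1 e (by omega))
  | alg c y k d hc _ ih =>
    intro d' hd
    obtain ⟨e, rfl⟩ : ∃ e, d' = G.wt c + e := ⟨d' - G.wt c, by omega⟩
    exact Bd.alg c y k e (by omega) fun α => ih α e (by omega)

/-- the bits at the points of the cubes are computed by trees -/
def Res (G : AG X Y T P Q C W U M) (E0 : Co X Y T → Finset (List Bool)) : Prop :=
  ∀ c (w : W c), ∃ t : ATree Q C U M, Bd G (G.lev c) t (G.wt c) ∧
    ∀ θ : Wo X Y T P U M, (∀ c, θ.1 c ∈ E0 c) → G.VV θ.2.2 → t.eval G θ = G.bit θ c w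

variable {G : AG X Y T P Q C W U M} {E0 : Co X Y T → Finset (List Bool)} {H : ℕ} {δ : ℝ}
  {xs : List X}

theorem Valid.mem0 {k : ℕ} {σ : Stt X Y T Q W U M} (hσ : Valid G E0 H k σ)
    {θ : Wo X Y T P U M} (hθ : InW G σ θ) (c : Co X Y T) : θ.1 c ∈ E0 c :=
  hσ.st.sub c (hθ.1 c)

/-- the state in which the value `α` at the point `y` has been seen -/
noncomputable def addA (σ : Stt X Y T Q W U M) (c : C) (y : U c) (α : M c)
    (a : W c → Bool) : Stt X Y T Q W U M where
  E := σ.E
  S := σ.S
  v := σ.v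
  κ := σ.κ
  Sa := Function.update σ.Sa c (insert y (σ.Sa c))
  va := Function.update σ.va c (Function.update (σ.va c) y α)
  aa := Function.update σ.aa c a

theorem inW_addA {σ : Stt X Y T Q W U M} {c : C} {y : U c} (hy : y ∉ σ.Sa c) {α : M c}
    {a : W c → Bool} {θ : Wo X Y T P U M} :
    InW G (addA σ c y α a) θ ↔ InW G σ θ ∧ G.f θ c y = α := by
  unfold InW addA
  simp only
  constructor
  · rintro ⟨h1, h2, h3, h4, h5⟩
    refine ⟨⟨h1, h2, h3, h4, fun c' y' hy' => ?_⟩, ?_⟩
    · by_cases hc : c' = c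
      · subst hc
        have h6 := h5 c' y' (by rw [Function.update_self]; exact mem_insert_of_mem hy')
        have hne : y' ≠ y := fun h => hy (h ▸ hy')
        rw [Function.update_self, Function.update_of_ne hne] at h6
        exact h6
      · have h6 := h5 c' y' (by rw [Function.update_of_ne hc]; exact hy')
        rwa [Function.update_of_ne hc] at h6
    · have h6 := h5 c y (by rw [Function.update_self]; exact mem_insert_self _ _)
      rwa [Function.update_self, Function.update_self] at h6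
  · rintro ⟨⟨h1, h2, h3, h4, h5⟩, h6⟩
    refine ⟨h1, h2, h3, h4, fun c' y' hy' => ?_⟩
    by_cases hc : c' = c
    · subst hc
      rw [Function.update_self] at hy' ⊢
      by_cases h : y' = y
      · subst h
        rw [Function.update_self]
        exact h6
      · rw [Function.update_of_ne h]
        exact h5 c' y' ((mem_insert.1 hy').resolve_left h)
    · rw [Function.update_of_ne hc] at hy' ⊢
      exact h5 c' y' hy'

theorem gam_addA {σ : Stt X Y T Q W U M} {c : C} {y : U c} (hy : y ∉ σ.Sa c)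
    {a : W c → Bool} (ha : ∀ w ∈ (G.cube c).B (σ.Sa c), a w = σ.aa c w) :
    ∑ α, gam G (addA σ c y α a) = gam G σ := by
  unfold gam
  have h1 : ∀ α, ∏ c', (((G.cube c').gs ((addA σ c y α a).Sa c') ((addA σ c y α a).va c')
      ((addA σ c y α a).aa c')).card : ℝ) =
      ((((G.cube c).gs (insert y (σ.Sa c)) (Function.update (σ.va c) y α) a).card : ℕ) : ℝ) *
      ∏ c' ∈ univ.erase c, (((G.cube c').gs (σ.Sa c') (σ.va c') (σ.aa c')).card : ℝ) := by
    intro α
    rw [← mul_prod_erase univ _ (mem_univ c)]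
    congr 1
    · unfold addA
      simp only [Function.update_self]
    · refine prod_congr rfl fun c' hc' => ?_
      have hne := ne_of_mem_erase hc'
      unfold addA
      simp only [Function.update_of_ne hne]
  rw [sum_congr rfl fun α _ => h1 α, ← sum_mul, ← Nat.cast_sum, gs_sum _ hy,
    Cube.gs_congr (v' := σ.va c) (a' := σ.aa c) (fun _ _ => rfl) ha,
    mul_prod_erase univ (fun c' => (((G.cube c').gs (σ.Sa c') (σ.va c') (σ.aa c')).card : ℝ))
      (mem_univ c)]

theorem phi_addA {σ : Stt X Y T Q W U M} {c : C} {y : U c} (hy : y ∉ σ.Sa c)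
    {a : W c → Bool} (ha : ∀ w ∈ (G.cube c).B (σ.Sa c), a w = σ.aa c w) :
    ∑ α, phi G xs (addA σ c y α a) = phi G xs σ := by
  unfold phi
  show ∑ α, mass σ.E σ.S * pot σ.E xs * gam G (addA σ c y α a) = _
  rw [← mul_sum]
  exact congrArg _ (gam_addA hy ha)

theorem cr_addA {L : ℕ} {σ : Stt X Y T Q W U M} {c : C} {y : U c} (hy : y ∉ σ.Sa c) {α : M c}
    {a : W c → Bool} (hL : G.lev c < L) :
    cr G L (addA σ c y α a) + G.wt c * (((G.cube c).B (insert y (σ.Sa c))).card -
      ((G.cube c).B (σ.Sa c)).card) = cr G L σ + G.wt c := by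
  have hc1 := (G.cube c).B_card (σ.Sa c)
  have hc2 := (G.cube c).B_card (insert y (σ.Sa c))
  have hc3 := card_le_card ((G.cube c).B_mono _ _ (subset_insert y (σ.Sa c)))
  have hc4 := card_insert_of_notMem hy
  have h1 : cr G L (addA σ c y α a) = G.wt c * ((insert y (σ.Sa c)).card -
      ((G.cube c).B (insert y (σ.Sa c))).card) + ∑ c' ∈ univ.erase c, if G.lev c' < L then
        G.wt c' * ((σ.Sa c').card - ((G.cube c').B (σ.Sa c')).card) else 0 := by
    unfold cr
    rw [← add_sum_erase univ _ (mem_univ c)]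
    congr 1
    · rw [if_pos hL]
      unfold addA
      simp only [Function.update_self]
    · refine sum_congr rfl fun c' hc' => ?_
      have hne := ne_of_mem_erase hc'
      unfold addA
      simp only [Function.update_of_ne hne]
  have h2 : cr G L σ = G.wt c * ((σ.Sa c).card - ((G.cube c).B (σ.Sa c)).card) +
      ∑ c' ∈ univ.erase c, if G.lev c' < L then
        G.wt c' * ((σ.Sa c').card - ((G.cube c').B (σ.Sa c')).card) else 0 := by
    unfold cr
    rw [← add_sum_erase univ _ (mem_univ c), if_pos hL]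
  rw [h1, h2]
  generalize (∑ c' ∈ univ.erase c, if G.lev c' < L then
        G.wt c' * ((σ.Sa c').card - ((G.cube c').B (σ.Sa c')).card) else 0) = z
  have h3 : G.wt c * ((insert y (σ.Sa c)).card - ((G.cube c).B (insert y (σ.Sa c))).card) +
      G.wt c * (((G.cube c).B (insert y (σ.Sa c))).card - ((G.cube c).B (σ.Sa c)).card) =
      G.wt c * ((σ.Sa c).card - ((G.cube c).B (σ.Sa c)).card) + G.wt c := by
    rw [← Nat.mul_add, ← Nat.mul_succ]
    congr 1
    omega
  omega

/-- the cubes of the other levels are the same -/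
theorem Spl.keep {L d k : ℕ} {σ : Stt X Y T Q W U M} {Pr : Stt X Y T Q W U M → Prop}
    (h : Spl G E0 H δ xs L d k σ Pr) : Spl G E0 H δ xs L d k σ fun τ => Pr τ ∧
      ∀ c, L ≤ G.lev c → τ.Sa c = σ.Sa c ∧ τ.va c = σ.va c ∧ τ.aa c = σ.aa c := by
  obtain ⟨ι, hι, τ, kk, h1, h2, h3⟩ := h
  exact ⟨ι, hι, τ, kk, h1, fun i => ⟨(h2 i).1, (h2 i).2.1, (h2 i).2.2.1, (h2 i).2.2.2.1,
    (h2 i).2.2.2.2, (h2 i).2.2.2.1⟩, h3⟩

/-- a query of the extension at a new point, the new bad points being resolved first -/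
theorem alg_split (hδ : 0 ≤ δ) {L k : ℕ} {σ : Stt X Y T Q W U M}
    {c : C} {y : U c} (hL : G.lev c < L) (hy : y ∉ σ.Sa c)
    (h : Spl G E0 H δ xs (G.lev c) ((((G.cube c).B (insert y (σ.Sa c))).card -
      ((G.cube c).B (σ.Sa c)).card) * G.wt c) k σ
      fun τ => ∀ w ∈ (G.cube c).B (insert y (σ.Sa c)), w ∉ (G.cube c).B (σ.Sa c) →
        ∃ b, ∀ θ, InW G τ θ → G.bit θ c w = b) :
    Spl G E0 H δ xs L (G.wt c) k σ fun τ => y ∈ τ.Sa c := by
  set r := ((G.cube c).B (insert y (σ.Sa c))).card - ((G.cube c).B (σ.Sa c)).card with hr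
  obtain ⟨ι, hι, τ, kk, h1, h2, h3⟩ := Spl.lift hL.le hδ h.keep
  have hSa : ∀ i, (τ i).Sa c = σ.Sa c ∧ (τ i).va c = σ.va c ∧ (τ i).aa c = σ.aa c :=
    fun i => (h2 i).2.2.2.2.2 c le_rfl
  have hnew : ∀ i, ∃ a : W c → Bool, (∀ w ∈ (G.cube c).B (σ.Sa c), a w = (τ i).aa c w) ∧
      ∀ w ∈ (G.cube c).B (insert y (σ.Sa c)), ∀ θ, InW G (τ i) θ → G.bit θ c w = a w := by
    intro i
    have h4 : ∀ w, ∃ b : Bool, (w ∈ (G.cube c).B (σ.Sa c) → b = (τ i).aa c w) ∧
        (w ∈ (G.cube c).B (insert y (σ.Sa c)) → ∀ θ, InW G (τ i) θ → G.bit θ c w = b) := by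
      intro w
      by_cases hw : w ∈ (G.cube c).B (σ.Sa c)
      · exact ⟨(τ i).aa c w, fun _ => rfl, fun _ θ hθ => (h2 i).2.1.bits c w
          (by rw [(hSa i).1]; exact hw) θ hθ⟩
      · by_cases hw' : w ∈ (G.cube c).B (insert y (σ.Sa c))
        · obtain ⟨b, hb⟩ := (h2 i).2.2.2.2.1 w hw' hw
          exact ⟨b, fun h => absurd h hw, fun _ => hb⟩
        · exact ⟨false, fun h => absurd h hw, fun h => absurd h hw'⟩
    choose a ha1 ha2 using h4
    exact ⟨a, fun w hw => ha1 w hw, fun w hw => ha2 w hw⟩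
  choose a ha1 ha2 using hnew
  have hyi : ∀ i, y ∉ (τ i).Sa c := fun i => by rw [(hSa i).1]; exact hy
  have hcr : ∀ i (α : M c), cr G L (addA (τ i) c y α (a i)) + G.wt c * r =
      cr G L (τ i) + G.wt c := by
    intro i α
    have h4 := cr_addA (G := G) (L := L) (σ := τ i) (hyi i) (α := α) (a := a i) hL
    rw [(hSa i).1] at h4
    exact h4
  refine ⟨Σ _ : ι, M c, inferInstance, fun j => addA (τ j.1) c y j.2 (a j.1), fun j => kk j.1,
    fun θ hθ => ?_, ?_, ?_⟩
  · obtain ⟨i, hi⟩ := h1 θ hθ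
    exact ⟨⟨i, G.f θ c y⟩, (inW_addA (hyi i)).2 ⟨hi, rfl⟩⟩
  · rintro ⟨i, α⟩
    simp only
    obtain ⟨b1, b2, b3, b4, b5, b6⟩ := h2 i
    refine ⟨fun θ hθ => b1 θ ((inW_addA (hyi i)).1 hθ).1, ⟨b2.st, ?_⟩, ?_, ?_, ?_⟩
    · intro c' w hw θ hθ
      have hθ' := ((inW_addA (hyi i)).1 hθ).1
      by_cases hc : c' = c
      · subst hc
        have hw' : w ∈ (G.cube c').B (insert y (σ.Sa c')) := by
          unfold addA at hw
          simp only [Function.update_self] at hw
          rwa [(hSa i).1] at hw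
        unfold addA
        simp only [Function.update_self]
        exact ha2 i w hw' θ hθ'
      · have hw' : w ∈ (G.cube c').B ((τ i).Sa c') := by
          unfold addA at hw
          simp only [Function.update_of_ne hc] at hw
          exact hw
        unfold addA
        simp only [Function.update_of_ne hc]
        exact b2.bits c' w hw' θ hθ'
    · have h4 := hcr i α
      have h5 : r * G.wt c = G.wt c * r := Nat.mul_comm _ _
      omega
    · intro c' hc'
      have hne : c' ≠ c := fun h => by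
        subst h
        omega
      have h6 := b4 c' hc'
      unfold addA
      simp only [Function.update_of_ne hne]
      exact h6
    · unfold addA
      simp only [Function.update_self]
      exact mem_insert_self _ _
  · rw [Fintype.sum_sigma]
    have h1δ : (0 : ℝ) < 1 + δ := by linarith
    have hpos : (0 : ℝ) < (1 + δ) ^ (G.wt c * r) := pow_pos h1δ _
    have key : ∀ i, (∑ α, phi G xs (addA (τ i) c y α (a i)) *
        (1 + δ) ^ cr G L (addA (τ i) c y α (a i))) * (1 + δ) ^ (G.wt c * r) =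
        phi G xs (τ i) * (1 + δ) ^ cr G L (τ i) * (1 + δ) ^ G.wt c := by
      intro i
      rw [sum_mul]
      have h4 : ∀ α, phi G xs (addA (τ i) c y α (a i)) *
          (1 + δ) ^ cr G L (addA (τ i) c y α (a i)) * (1 + δ) ^ (G.wt c * r) =
          phi G xs (addA (τ i) c y α (a i)) * ((1 + δ) ^ cr G L (τ i) * (1 + δ) ^ G.wt c) := by
        intro α
        rw [mul_assoc, ← pow_add, hcr i α, pow_add]
      rw [sum_congr rfl fun α _ => h4 α, ← sum_mul,
        phi_addA (hyi i) (fun w hw => ha1 i w (by rwa [(hSa i).1] at hw))]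
      ring
    refine le_of_mul_le_mul_right ?_ hpos
    calc (∑ i, ∑ α, phi G xs (addA (τ i) c y α (a i)) *
          (1 + δ) ^ cr G L (addA (τ i) c y α (a i))) * (1 + δ) ^ (G.wt c * r)
        = (∑ i, phi G xs (τ i) * (1 + δ) ^ cr G L (τ i)) * (1 + δ) ^ G.wt c := by
          rw [sum_mul, sum_mul]
          exact sum_congr rfl fun i _ => key i
      _ ≤ ((1 + δ) ^ (r * G.wt c) * (phi G xs σ * (1 + δ) ^ cr G L σ)) * (1 + δ) ^ G.wt c :=
          mul_le_mul_of_nonneg_right h3 (by positivity)
      _ = _ := by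
          rw [Nat.mul_comm r]
          ring

/-- the splitting by an ordinary query, as proved in `Base` -/
def BaseSplit (G : AG X Y T P Q C W U M) (E0 : Co X Y T → Finset (List Bool)) (H D : ℕ) (δ : ℝ)
    (xs : List X) : Prop :=
  ∀ (k : ℕ) (σ : Stt X Y T Q W U M), Valid G E0 H k σ → k + 1 ≤ D → ∀ q : Q,
    Spl G E0 H δ xs 0 1 k σ fun τ => ∃ a, ∀ θ, InW G τ θ → G.B θ q = a

/-- **The tree lemma.** -/
theorem tree_split (hδ : 0 ≤ δ) {D : ℕ} (hB : BaseSplit G E0 H D δ xs) (hR : Res G E0) :
    ∀ (L : ℕ) (t : ATree Q C U M) (d : ℕ), Bd G L t d → ∀ (k : ℕ) (σ : Stt X Y T Q W U M),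
      Valid G E0 H k σ → k + cr G L σ + d ≤ D →
      Spl G E0 H δ xs L d k σ fun τ => ∃ b, ∀ θ, InW G τ θ → t.eval G θ = b := by
  intro L
  induction L using Nat.strong_induction_on with
  | _ L ihL =>
    intro t d ht
    induction ht with
    | ret b d =>
      intro k σ hσ _
      exact Spl.refl hδ hσ ⟨b, fun _ _ => rfl⟩ d
    | ask q t0 t1 d h0 h1 ih0 ih1 =>
      intro k σ hσ hk
      have h2 := Spl.lift (Nat.zero_le L) hδ (hB k σ hσ (by omega) q)
      rw [Nat.add_comm]
      refine Spl.comp hδ h2 fun τ k' hτ hτV hk' _ ⟨a, ha⟩ => ?_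
      cases a with
      | false =>
        refine Spl.imp (ih0 k' τ hτV (by omega)) fun τ' hτ' ⟨b, hb⟩ => ⟨b, fun θ hθ => ?_⟩
        rw [ATree.eval, ha θ (hτ' θ hθ), cond_false]
        exact hb θ hθ
      | true =>
        refine Spl.imp (ih1 k' τ hτV (by omega)) fun τ' hτ' ⟨b, hb⟩ => ⟨b, fun θ hθ => ?_⟩
        rw [ATree.eval, ha θ (hτ' θ hθ), cond_true]
        exact hb θ hθ
    | alg c y kt d hc h0 ih =>
      intro k σ hσ hk
      have known : ∀ (k' : ℕ) (τ : Stt X Y T Q W U M), Valid G E0 H k' τ → y ∈ τ.Sa c →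
          k' + cr G L τ + d ≤ D → Spl G E0 H δ xs L d k' τ
            fun τ' => ∃ b, ∀ θ, InW G τ' θ → (ATree.alg c y kt).eval G θ = b := by
        intro k' τ hτ hy hk'
        refine Spl.imp (ih (τ.va c y) k' τ hτ hk') fun τ' hτ' ⟨b, hb⟩ => ⟨b, fun θ hθ => ?_⟩
        rw [ATree.eval, (hτ' θ hθ).2.2.2.2 c y hy]
        exact hb θ hθ
      by_cases hy : y ∈ σ.Sa c
      · exact Spl.mono hδ (known k σ hσ hy (by omega)) (by omega)
      · set B1 := (G.cube c).B (insert y (σ.Sa c)) with hB1
        set B0 := (G.cube c).B (σ.Sa c) with hB0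
        have hsub : B0 ⊆ B1 := (G.cube c).B_mono _ _ (subset_insert _ _)
        have c1 : B0.card ≤ (σ.Sa c).card := (G.cube c).B_card (σ.Sa c)
        have c2 : B1.card ≤ (insert y (σ.Sa c)).card := (G.cube c).B_card (insert y (σ.Sa c))
        have c4 := card_insert_of_notMem hy
        have hcr : cr G L σ = cr G (G.lev c) σ + ∑ c', if G.lev c ≤ G.lev c' ∧ G.lev c' < L then
            G.wt c' * ((σ.Sa c').card - ((G.cube c').B (σ.Sa c')).card) else 0 :=
          cr_add G hc.le σ
        have hterm : G.wt c * ((σ.Sa c).card - B0.card) ≤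
            ∑ c', if G.lev c ≤ G.lev c' ∧ G.lev c' < L then
              G.wt c' * ((σ.Sa c').card - ((G.cube c').B (σ.Sa c')).card) else 0 := by
          have h5 := single_le_sum (f := fun c' => if G.lev c ≤ G.lev c' ∧ G.lev c' < L then
              G.wt c' * ((σ.Sa c').card - ((G.cube c').B (σ.Sa c')).card) else 0)
            (fun _ _ => Nat.zero_le _) (mem_univ c)
          simp only [if_pos (show G.lev c ≤ G.lev c ∧ G.lev c < L from ⟨le_rfl, hc⟩)] at h5
          exact h5
        have hbud : k + cr G (G.lev c) σ + (B1.card - B0.card) * G.wt c ≤ D := by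
          have h6 : (B1.card - B0.card) * G.wt c ≤
              G.wt c * ((σ.Sa c).card - B0.card) + G.wt c := by
            rw [← Nat.mul_succ, Nat.mul_comm]
            exact Nat.mul_le_mul_left _ (by omega)
          omega
        -- the new bad points
        have hlist : ∀ l : List (W c), ∀ (k' : ℕ) (τ : Stt X Y T Q W U M), Valid G E0 H k' τ →
            k' + cr G (G.lev c) τ + l.length * G.wt c ≤ D →
            Spl G E0 H δ xs (G.lev c) (l.length * G.wt c) k' τ
              fun τ' => ∀ w ∈ l, ∃ b, ∀ θ, InW G τ' θ → G.bit θ c w = b := by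
          intro l
          induction l with
          | nil =>
            intro k' τ hτ _
            exact Spl.refl hδ hτ (fun w hw => absurd hw (List.not_mem_nil)) _
          | cons w l ihl =>
            intro k' τ hτ hk'
            have e1 : (w :: l).length * G.wt c = G.wt c + l.length * G.wt c := by
              rw [List.length_cons]; ring
            rw [e1] at hk' ⊢
            obtain ⟨tw, htw, hev⟩ := hR c w
            have h7 := ihL (G.lev c) hc tw (G.wt c) htw k' τ hτ (by omega)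
            refine Spl.comp hδ h7 fun τ1 k1 hτ1 hτV hk1 _ ⟨b, hb⟩ => ?_
            refine Spl.imp (ihl k1 τ1 hτV (by omega)) fun τ2 hτ2 hall => ?_
            intro w' hw'
            rcases List.mem_cons.1 hw' with rfl | hw'
            · refine ⟨b, fun θ hθ => ?_⟩
              rw [← hev θ (fun c => hτV.mem0 (hτ2 θ hθ) c) (hτ2 θ hθ).2.1]
              exact hb θ (hτ2 θ hθ)
            · exact hall w' hw'
        have h8 := hlist (B1 \ B0).toList k σ hσ (by
          rw [length_toList, card_sdiff_of_subset hsub]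
          exact hbud)
        rw [length_toList, card_sdiff_of_subset hsub] at h8
        have h9 := alg_split hδ hc hy (Spl.imp h8 fun τ _ hall w hw hw' =>
          hall w (mem_toList.2 (mem_sdiff.2 ⟨hw, hw'⟩)))
        exact Spl.comp hδ h9 fun τ k' _ hτV hk' _ hyτ => known k' τ hτV hyτ (by omega)

end game

end OAlg
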