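import Pool.Agent.Work.MP_609cce_lc_alg.RunT

/-!
# The number of worlds of a stage with given answers
-/

namespace OAlg

open ORDist hiding stepA stepR stepA_congr stepR_congr orc lang
open OEth hiding orc lang par
open Orc Finset
open Classical

variable {Φ : Fields} {n N : ℕ} {p : Par Φ} {Mach : ℕ → OProc}

/-- worlds with the same hidden strings whose pads and vanishing parts agree below `m` -/
theorem par_agr_lt {η : WC n N → Str} {ω ω' : (IP n N → Bool) × (∀ c : IC n N, CU Φ c → CM Φ c)}
    {m : ℕ} (h1 : ∀ γ : IP n N, γ.1.length < m → ω.1 γ = ω'.1 γ)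
    (h2 : ∀ c : IC n N, c.1.2 < m → ω.2 c = ω'.2 c) :
    Agr (par p (η, ω)) (par p (η, ω')) m := by
  refine ⟨⟨fun x _ => rfl, fun T _ => rfl, fun γ hγ => ?_, fun y _ => rfl⟩, fun s k hk => ?_⟩
  · show (if h : n + 1 ≤ γ.length ∧ γ.length < N then ω.1 ⟨γ, h⟩ else p.par.pad γ) =
      if h : n + 1 ≤ γ.length ∧ γ.length < N then ω'.1 ⟨γ, h⟩ else p.par.pad γ
    split_ifs with h
    · exact h1 ⟨γ, h⟩ hγ
    · rfl
  · show (if h : s.length < N ∧ n ≤ k ∧ k < N then ω.2 ⟨(s, k), h⟩ else p.V s k) =
      if h : s.length < N ∧ n ≤ k ∧ k < N then ω'.2 ⟨(s, k), h⟩ else p.V s k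
    split_ifs with h
    · exact h2 ⟨(s, k), h⟩ hk
    · rfl

/-- **The pad and cube lemma.** -/
theorem count_agW (K : Cubes Φ) (Mach : ℕ → OProc) (hp : p.WF) (hn : 1 ≤ n)
    (η : WC n N → Str) (hη : ∀ c, η c ∈ E0 c) (S : Finset (IT n N))
    (hS : ∀ t ∈ S, ∀ t' ∈ S, η (cg t) = η (cg t') → t = t') (v : IT n N → Bool)
    (Sa : ∀ c : IC n N, Finset (CU Φ c)) (va : ∀ c : IC n N, CU Φ c → CM Φ c)
    (aa : ∀ c : IC n N, CW c → Bool) :
    (univ.filter fun ω : (IP n N → Bool) × (∀ c : IC n N, CU Φ c → CM Φ c) =>
      (agW K Mach p n N).VV ω.2 ∧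
      (∀ t ∈ S, (agW K Mach p n N).vis (η, ω) t = v t) ∧
      (∀ c, ∀ y ∈ Sa c, (agW K Mach p n N).f (η, ω) c y = va c y) ∧
      ∀ c, ∀ w ∈ ((agW K Mach p n N).cube c).B (Sa c),
        (agW K Mach p n N).bit (η, ω) c w = aa c w).card * 2 ^ S.card ≤
      2 ^ Fintype.card (IP n N) *
        ∏ c, (((agW K Mach p n N).cube c).gs (Sa c) (va c) (aa c)).card := by
  set G := agW K Mach p n N with hG
  let ν : IT n N → IP n N := fun t => ⟨η (cg t), name_mem hn hη t⟩
  have hν : ∀ t ∈ S, ∀ t' ∈ S, ν t = ν t' → t = t' := fun t ht t' ht' h =>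
    hS t ht t' ht' (congrArg Subtype.val h)
  -- the triangular map
  let Ψ1 : (IP n N → Bool) × (∀ c : IC n N, CU Φ c → CM Φ c) → (IP n N → Bool) := fun ω γ =>
    if h : ∃ t ∈ S, ν t = γ then G.vis (η, ω) h.choose else ω.1 γ
  let Ψ2 : (IP n N → Bool) × (∀ c : IC n N, CU Φ c → CM Φ c) →
      (∀ c : IC n N, CU Φ c → CM Φ c) := fun ω c =>
    ω.2 c + ∑ w, if G.bit (η, ω) c w then
      (if w ∈ (G.cube c).B (Sa c) then 0 else (G.cube c).del w - (G.cube c).pp (Sa c) w) else 0
  have hΨ1 : ∀ ω, ∀ t ∈ S, Ψ1 ω (ν t) = G.vis (η, ω) t := by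
    intro ω t ht
    have h : ∃ t' ∈ S, ν t' = ν t := ⟨t, ht, rfl⟩
    have h1 : h.choose = t := hν _ h.choose_spec.1 t ht h.choose_spec.2
    simp only [Ψ1, dif_pos h]
    rw [h1]
  have hinj : ∀ ω ω', G.VV ω.2 → G.VV ω'.2 → Ψ1 ω = Ψ1 ω' → Ψ2 ω = Ψ2 ω' → ω = ω' := by
    intro ω ω' hV hV' e1 e2
    have hw : (par p (η, ω)).WF := par_wf_aux K (Mach := Mach) (θ := (η, ω)) hp hη hV
    have hw' : (par p (η, ω')).WF := par_wf_aux K (Mach := Mach) (θ := (η, ω')) hp hη hV'
    have key : ∀ m, (∀ γ : IP n N, γ.1.length = m → ω.1 γ = ω'.1 γ) ∧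
        ∀ c : IC n N, c.1.2 = m → ω.2 c = ω'.2 c := by
      intro m
      induction m using Nat.strong_induction_on with
      | _ m ih =>
        have hag : Agr (par p (η, ω)) (par p (η, ω')) m :=
          par_agr_lt (fun γ hγ => (ih _ hγ).1 γ rfl) fun c hc => (ih _ hc).2 c rfl
        refine ⟨fun γ hγ => ?_, fun c hc => ?_⟩
        · by_cases hex : ∃ t ∈ S, ν t = γ
          · obtain ⟨t, ht, rfl⟩ := hex
            have h1 := congrFun e1 (ν t)
            rw [hΨ1 ω t ht, hΨ1 ω' t ht] at h1
            have hlen : (η (cg t)).length = maxlen t.1 + 1 := mem_sF.1 (hη (cg t))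
            have hm : maxlen t.1 ≤ m := by
              have : (η (cg t)).length = m := hγ
              omega
            have hst : st (lang Mach (par p (η, ω))) t.1 = st (lang Mach (par p (η, ω'))) t.1 :=
              st_congr fun x hx => lang_local hw hw' hag (by have := le_maxlen hx; omega)
            have h3 : (par p (η, ω)).par.pad (η (cg t)) = ω.1 (ν t) := par_pad (ν t)
            have h4 : (par p (η, ω')).par.pad (η (cg t)) = ω'.1 (ν t) := par_pad (ν t)
            have h5 : xor (st (lang Mach (par p (η, ω))) t.1)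
                ((par p (η, ω)).par.pad (η (cg t))) =
              xor (st (lang Mach (par p (η, ω'))) t.1)
                ((par p (η, ω')).par.pad (η (cg t))) := h1
            rw [hst, h3, h4] at h5
            cases hs : st (lang Mach (par p (η, ω'))) t.1 <;> rw [hs] at h5 <;> simpa using h5
          · have h1 := congrFun e1 γ
            simp only [Ψ1, dif_neg hex] at h1
            exact h1
        · have h1 := congrFun e2 c
          have h2 : ∀ w, G.bit (η, ω) c w = G.bit (η, ω') c w := by
            intro w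
            show orc Mach (par p (η, ω)) (List.ofFn w) = orc Mach (par p (η, ω')) (List.ofFn w)
            exact orc_local hw hw' hag (by rw [List.length_ofFn]; omega)
          simp only [Ψ2, h2] at h1
          exact add_right_cancel h1
    exact Prod.ext (funext fun γ => (key _).1 γ rfl) (funext fun c => (key _).2 c rfl)
  -- counting
  let Vs : Finset (IP n N) := S.image ν
  have hVs : Vs.card = S.card := card_image_of_injOn fun t ht t' ht' h => hν t ht t' ht' h
  let val : IP n N → Bool := fun γ => if h : ∃ t ∈ S, ν t = γ then v h.choose else false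
  have h2 : (Fintype.piFinset fun γ : IP n N =>
      if γ ∈ Vs then {val γ} else (univ : Finset Bool)).card * 2 ^ Vs.card =
        2 ^ Fintype.card (IP n N) := by
    rw [Fintype.card_piFinset]
    have h3 : ∀ γ : IP n N, (if γ ∈ Vs then {val γ} else (univ : Finset Bool)).card =
        if γ ∈ Vs then 1 else 2 := by
      intro γ
      split_ifs <;> simp
    simp only [h3]
    rw [prod_ite, prod_const_one, one_mul, prod_const, ← pow_add]
    congr 1
    have h5 : (univ.filter fun γ : IP n N => ¬ γ ∈ Vs) = Vsᶜ := by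
      ext γ
      simp
    rw [h5, card_compl]
    have h6 := card_le_univ Vs
    omega
  have h1 : (univ.filter fun ω : (IP n N → Bool) × (∀ c : IC n N, CU Φ c → CM Φ c) =>
      G.VV ω.2 ∧ (∀ t ∈ S, G.vis (η, ω) t = v t) ∧
      (∀ c, ∀ y ∈ Sa c, G.f (η, ω) c y = va c y) ∧
      ∀ c, ∀ w ∈ (G.cube c).B (Sa c), G.bit (η, ω) c w = aa c w).card ≤
      ((Fintype.piFinset fun γ : IP n N => if γ ∈ Vs then {val γ} else (univ : Finset Bool)) ×ˢ
        Fintype.piFinset fun c => (G.cube c).gs (Sa c) (va c) (aa c)).card := by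
    refine card_le_card_of_injOn (fun ω => (Ψ1 ω, Ψ2 ω)) (fun ω hω => ?_)
      fun ω hω ω' hω' h => ?_
    · rw [mem_coe, mem_filter] at hω
      obtain ⟨_, hV, hvis, hf, hb⟩ := hω
      rw [mem_coe, mem_product, Fintype.mem_piFinset, Fintype.mem_piFinset]
      refine ⟨fun γ => ?_, fun c => ?_⟩
      · by_cases hγ : γ ∈ Vs
        · rw [if_pos hγ, mem_singleton]
          obtain ⟨t, ht, rfl⟩ := mem_image.1 hγ
          show Ψ1 ω (ν t) = val (ν t)
          rw [hΨ1 ω t ht, hvis t ht]
          have h : ∃ t' ∈ S, ν t' = ν t := ⟨t, ht, rfl⟩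
          have h1 : h.choose = t := hν _ h.choose_spec.1 t ht h.choose_spec.2
          simp only [val, dif_pos h]
          rw [h1]
        · rw [if_neg hγ]
          exact mem_univ _
      · show Ψ2 ω c ∈ _
        refine Cube.mem_gs.2 ⟨?_, fun y hy => ?_⟩
        · refine (G.cube c).Van.add_mem (hV c) ((G.cube c).Van.sum_mem fun w _ => ?_)
          split_ifs with h3 h4
          · exact (G.cube c).Van.zero_mem
          · exact (G.cube c).pp_van _ _ h4
          · exact (G.cube c).Van.zero_mem
        · have e1 : va c y = (∑ w, if G.bit (η, ω) c w then (G.cube c).del w y else 0) +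
              ω.2 c y := (hf c y hy).symm
          have e2 : Ψ2 ω c y = ω.2 c y + ∑ w, if G.bit (η, ω) c w then
              (if w ∈ (G.cube c).B (Sa c) then 0 else (G.cube c).del w y) else 0 := by
            simp only [Ψ2]
            rw [Pi.add_apply, Finset.sum_apply]
            congr 1
            refine sum_congr rfl fun w _ => ?_
            split_ifs with h3 h4
            · rfl
            · rw [Pi.sub_apply, (G.cube c).pp_zero _ _ h4 y hy, sub_zero]
            · rfl
          have e3 : (G.cube c).low (Sa c) (aa c) y = ∑ w, if G.bit (η, ω) c w then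
              (if w ∈ (G.cube c).B (Sa c) then (G.cube c).del w y else 0) else 0 := by
            unfold Cube.low
            rw [← sum_filter_add_sum_filter_not univ (fun w => w ∈ (G.cube c).B (Sa c))
              (fun w => if G.bit (η, ω) c w then
              (if w ∈ (G.cube c).B (Sa c) then (G.cube c).del w y else 0) else 0)]
            have z : (∑ w ∈ univ.filter fun w => ¬ w ∈ (G.cube c).B (Sa c),
                if G.bit (η, ω) c w then
                (if w ∈ (G.cube c).B (Sa c) then (G.cube c).del w y else 0) else 0) = 0 := by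
              refine sum_eq_zero fun w hw => ?_
              rw [mem_filter] at hw
              split_ifs with h3 h4
              · exact absurd h4 hw.2
              · rfl
              · rfl
            rw [z, add_zero]
            have e4 : (univ.filter fun w => w ∈ (G.cube c).B (Sa c)) = (G.cube c).B (Sa c) := by
              ext w
              simp
            rw [e4]
            refine sum_congr rfl fun w hw => ?_
            rw [hb c w hw, if_pos hw]
          have e5 : (∑ w, if G.bit (η, ω) c w then (G.cube c).del w y else 0) =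
              (∑ w, if G.bit (η, ω) c w then
              (if w ∈ (G.cube c).B (Sa c) then (G.cube c).del w y else 0) else 0) +
              ∑ w, if G.bit (η, ω) c w then
              (if w ∈ (G.cube c).B (Sa c) then 0 else (G.cube c).del w y) else 0 := by
            rw [← sum_add_distrib]
            refine sum_congr rfl fun w _ => ?_
            split_ifs <;> simp
          rw [e2, e1, e3, e5]
          abel
    · rw [mem_coe, mem_filter] at hω hω'
      simp only [Prod.mk.injEq] at h
      exact hinj ω ω' hω.2.1 hω'.2.1 h.1 h.2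
  rw [card_product, Fintype.card_piFinset (fun c => (G.cube c).gs (Sa c) (va c) (aa c))] at h1
  calc _ ≤ ((Fintype.piFinset fun γ : IP n N =>
        if γ ∈ Vs then {val γ} else (univ : Finset Bool)).card *
        ∏ c, ((G.cube c).gs (Sa c) (va c) (aa c)).card) * 2 ^ S.card :=
        Nat.mul_le_mul_right _ h1
    _ = _ := by
        rw [← h2, hVs]
        ring

end OAlg
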